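import Pool.Graph.R_pool_sql_team_seeded_620a6dc7.H761J.Nil6

/-!
# Groups in which every element centralises or inverts the commutator subgroup

`D` contains all commutators and is abelian, the elements of the subgroup `C` centralise `D` and
the other elements invert `D`.
-/

namespace Pool.Agent.H268.CI

open Pool.Agent.H761J.Ham Pool.Agent.H761J.Nil

variable {G : Type*} [Group G]

/-- `D` contains all commutators, elements of `C` centralise `D`, the others invert `D`. -/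
structure CD (D C : Subgroup G) : Prop where
  comm : ∀ g h : G, g⁻¹ * h⁻¹ * g * h ∈ D
  cent : ∀ g ∈ C, ∀ x ∈ D, g * x = x * g
  inv : ∀ g, g ∉ C → ∀ x ∈ D, g * x = x⁻¹ * g
  mul : ∀ g h, g ∉ C → h ∉ C → g * h ∈ C
  le : D ≤ C

/-- the commutator of `w` and `a` -/
def fw (a w : G) : G := w⁻¹ * a⁻¹ * w * a

/-- the union of the sets `a ^ I N H` -/
def SN (H : Subgroup G) (a : G) (N : Subgroup G) : Set G :=
  {g | ∃ I : ℤ, (a ^ I)⁻¹ * g ∈ N ⊔ H}

/-- every step of the walk `L` which starts at `p` has the property `P` if it starts in `E` -/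
def EVr (E : Subgroup G) (P : G → Prop) : G → List G → Prop
  | _, [] => True
  | p, t :: L => (p ∈ E → P t) ∧ EVr E P (p * t) L

variable {D C : Subgroup G}

theorem CD.Dc (h : CD D C) {x y : G} (hx : x ∈ D) (hy : y ∈ D) : x * y = y * x :=
  h.cent x (h.le hx) y hy

theorem fw_mem (h : CD D C) (a w : G) : fw a w ∈ D := h.comm w a

theorem CD.conj (h : CD D C) {x : G} (hx : x ∈ D) (g : G) :
    g * x * g⁻¹ = x ∨ g * x * g⁻¹ = x⁻¹ := by
  by_cases hg : g ∈ C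
  · left; rw [h.cent g hg x hx]; group
  · right; rw [h.inv g hg x hx]; group

theorem CD.norm (h : CD D C) {N : Subgroup G} (hN : N ≤ D) (g : G) {x : G} (hx : x ∈ N) :
    g * x * g⁻¹ ∈ N := by
  rcases h.conj (hN hx) g with e | e
  · rw [e]; exact hx
  · rw [e]; exact N.inv_mem hx

theorem CD.norm' (h : CD D C) {N : Subgroup G} (hN : N ≤ D) (g : G) {x : G} (hx : x ∈ N) :
    g⁻¹ * x * g ∈ N := by
  have := h.norm hN g⁻¹ hx
  rwa [inv_inv] at this

/-- moving an element across a power of `f ∈ D` -/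
theorem CD.zpow_comm (h : CD D C) {f : G} (hf : f ∈ D) (g : G) (j : ℤ) :
    ∃ ε : ℤ, (ε = 1 ∨ ε = -1) ∧ (g ∈ C → ε = 1) ∧ (g ∉ C → ε = -1) ∧
      g * f ^ j = f ^ (ε * j) * g ∧ f ^ j * g = g * f ^ (ε * j) := by
  by_cases hg : g ∈ C
  · refine ⟨1, Or.inl rfl, fun _ => rfl, fun h => absurd hg h, ?_, ?_⟩
    · rw [one_mul]; exact h.cent g hg _ (D.zpow_mem hf j)
    · rw [one_mul]; exact (h.cent g hg _ (D.zpow_mem hf j)).symm
  · refine ⟨-1, Or.inr rfl, fun h => absurd h hg, fun _ => rfl, ?_, ?_⟩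
    · have := h.inv g hg _ (D.zpow_mem hf j)
      rw [this, neg_one_mul, zpow_neg]
    · have := h.inv g hg _ (D.zpow_mem hf (-j))
      rw [neg_one_mul, this, zpow_neg, inv_inv]

theorem CD.mem_iff (h : CD D C) {g : G} (hg : g ∉ C) (x : G) : g * x ∈ C ↔ x ∉ C := by
  constructor
  · intro h1 h2
    apply hg
    have : g = (g * x) * x⁻¹ := by group
    rw [this]; exact C.mul_mem h1 (C.inv_mem h2)
  · exact h.mul g x hg

theorem CD.Cconj (h : CD D C) (g : G) {x : G} (hx : x ∈ C) : g * x * g⁻¹ ∈ C := by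
  have : g * x * g⁻¹ = (g⁻¹⁻¹ * x⁻¹⁻¹ * g⁻¹ * x⁻¹) * x := by group
  rw [this]
  exact C.mul_mem (h.le (h.comm g⁻¹ x⁻¹)) hx

theorem CD.Cconj' (h : CD D C) (g : G) {x : G} (hx : x ∈ C) : g⁻¹ * x * g ∈ C := by
  have := h.Cconj g⁻¹ hx
  rwa [inv_inv] at this

/-- elements of `N ⊔ H` -/
theorem CD.mem_sup (h : CD D C) {N H : Subgroup G} (hN : N ≤ D) {u : G} :
    u ∈ N ⊔ H ↔ ∃ ν ∈ N, ν⁻¹ * u ∈ H := by
  constructor
  · intro hu
    let U : Subgroup G :=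
      { carrier := {u | ∃ ν ∈ N, ν⁻¹ * u ∈ H}
        mul_mem' := by
          rintro p q ⟨ν, hν, hp⟩ ⟨μ, hμ, hq⟩
          refine ⟨ν * ((ν⁻¹ * p) * μ * (ν⁻¹ * p)⁻¹), N.mul_mem hν (h.norm hN _ hμ), ?_⟩
          have : (ν * ((ν⁻¹ * p) * μ * (ν⁻¹ * p)⁻¹))⁻¹ * (p * q) = (ν⁻¹ * p) * (μ⁻¹ * q) := by
            group
          rw [this]; exact H.mul_mem hp hq
        one_mem' := ⟨1, N.one_mem, by simp [H.one_mem]⟩
        inv_mem' := by
          rintro p ⟨ν, hν, hp⟩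
          refine ⟨(ν⁻¹ * p)⁻¹ * ν⁻¹ * (ν⁻¹ * p), h.norm' hN _ (N.inv_mem hν), ?_⟩
          have : ((ν⁻¹ * p)⁻¹ * ν⁻¹ * (ν⁻¹ * p))⁻¹ * p⁻¹ = (ν⁻¹ * p)⁻¹ := by group
          rw [this]; exact H.inv_mem hp }
    have hle : N ⊔ H ≤ U := by
      refine sup_le ?_ ?_
      · intro x hx
        exact ⟨x, hx, by simp [H.one_mem]⟩
      · intro x hx
        exact ⟨1, N.one_mem, by simpa using hx⟩
    exact hle hu
  · rintro ⟨ν, hν, hu⟩
    have : u = ν * (ν⁻¹ * u) := by group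
    rw [this]
    exact Subgroup.mul_mem _ (Subgroup.mem_sup_left hν) (Subgroup.mem_sup_right hu)

/-- elements of `⟨f⟩ ⊔ H` -/
theorem CD.mem_sup_z (h : CD D C) {f : G} {H : Subgroup G} (hf : f ∈ D) {u : G} :
    u ∈ Subgroup.zpowers f ⊔ H ↔ ∃ j : ℤ, (f ^ j)⁻¹ * u ∈ H := by
  have hN : Subgroup.zpowers f ≤ D := by rw [Subgroup.zpowers_le]; exact hf
  rw [h.mem_sup hN]
  constructor
  · rintro ⟨ν, hν, hu⟩
    obtain ⟨j, rfl⟩ := Subgroup.mem_zpowers_iff.1 hν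
    exact ⟨j, hu⟩
  · rintro ⟨j, hu⟩
    exact ⟨_, Subgroup.zpow_mem _ (Subgroup.mem_zpowers f) j, hu⟩

theorem a_conj (a w : G) : a⁻¹ * w * a = w * fw a w := by
  unfold fw; group

/-- `a` normalises `w N` if `fw a w ∈ N` -/
theorem CD.wN (h : CD D C) {N : Subgroup G} (hN : N ≤ D) {a w : G} (hw : fw a w ∈ N) (I : ℤ) :
    w⁻¹ * ((a ^ I)⁻¹ * w * a ^ I) ∈ N := by
  have h1 : ∀ x : G, w⁻¹ * x ∈ N → w⁻¹ * (a⁻¹ * x * a) ∈ N := by
    intro x hx
    have e : w⁻¹ * (a⁻¹ * x * a) = fw a w * (a⁻¹ * (w⁻¹ * x) * a) := by unfold fw; group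
    rw [e]; exact N.mul_mem hw (h.norm' hN a hx)
  have h2 : ∀ x : G, w⁻¹ * x ∈ N → w⁻¹ * (a * x * a⁻¹) ∈ N := by
    intro x hx
    have e : w⁻¹ * (a * x * a⁻¹) = a * ((fw a w)⁻¹ * (w⁻¹ * x)) * a⁻¹ *
      ((a * (fw a w)⁻¹ * a⁻¹)⁻¹ * (w⁻¹ * a * w * a⁻¹)) := by unfold fw; group
    have e2 : w⁻¹ * a * w * a⁻¹ = a * (a⁻¹ * w⁻¹ * a * w) * a⁻¹ := by group
    have e3 : a⁻¹ * w⁻¹ * a * w = (fw a w)⁻¹ := by unfold fw; group
    rw [e, e2, e3]
    exact N.mul_mem (h.norm hN a (N.mul_mem (N.inv_mem hw) hx))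
      (N.mul_mem (N.inv_mem (h.norm hN a (N.inv_mem hw))) (h.norm hN a (N.inv_mem hw)))
  have h3 : ∀ n : ℕ, w⁻¹ * ((a ^ n)⁻¹ * w * a ^ n) ∈ N := by
    intro n
    induction n with
    | zero => simp [N.one_mem]
    | succ n ih =>
      have := h1 _ ih
      have e : a⁻¹ * ((a ^ n)⁻¹ * w * a ^ n) * a = (a ^ (n + 1))⁻¹ * w * a ^ (n + 1) := by
        rw [pow_succ]; group
      rwa [e] at this
  have h4 : ∀ n : ℕ, w⁻¹ * (a ^ n * w * (a ^ n)⁻¹) ∈ N := by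
    intro n
    induction n with
    | zero => simp [N.one_mem]
    | succ n ih =>
      have := h2 _ ih
      have e : a * (a ^ n * w * (a ^ n)⁻¹) * a⁻¹ = a ^ (n + 1) * w * (a ^ (n + 1))⁻¹ := by
        rw [pow_succ']; group
      rwa [e] at this
  obtain ⟨n, rfl | rfl⟩ := Int.eq_nat_or_neg I
  · have := h3 n
    rwa [← zpow_natCast] at this
  · have := h4 n
    rw [← zpow_natCast] at this
    rwa [zpow_neg, inv_inv]

section SNlemmas

variable {H N : Subgroup G} {a : G}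

theorem sn_sup {u : G} (hu : u ∈ N ⊔ H) : u ∈ SN H a N := ⟨0, by simpa using hu⟩

theorem sn_right {s u : G} (hs : s ∈ SN H a N) (hu : u ∈ N ⊔ H) : s * u ∈ SN H a N := by
  obtain ⟨I, hI⟩ := hs
  exact ⟨I, by rw [← mul_assoc]; exact Subgroup.mul_mem _ hI hu⟩

/-- the left stabiliser of `SN H a N` -/
def Gam (H : Subgroup G) (a : G) (N : Subgroup G) : Subgroup G where
  carrier := {g | ∀ s, s ∈ SN H a N ↔ g * s ∈ SN H a N}
  mul_mem' := by
    intro p q hp hq s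
    rw [mul_assoc, ← hp, ← hq]
  one_mem' := by intro s; rw [one_mul]
  inv_mem' := by
    intro p hp s
    rw [hp (p⁻¹ * s), mul_inv_cancel_left]

theorem mem_gam {g : G} : g ∈ Gam H a N ↔ ∀ s, s ∈ SN H a N ↔ g * s ∈ SN H a N := Iff.rfl

/-- one direction for all `g ^ ±1` is enough -/
theorem gam_of {g : G} (h1 : ∀ s ∈ SN H a N, g * s ∈ SN H a N)
    (h2 : ∀ s ∈ SN H a N, g⁻¹ * s ∈ SN H a N) : g ∈ Gam H a N := by
  intro s
  refine ⟨h1 s, fun h => ?_⟩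
  have := h2 _ h
  rwa [inv_mul_cancel_left] at this

theorem gam_a : a ∈ Gam H a N := by
  apply gam_of
  · rintro s ⟨I, hI⟩
    refine ⟨I + 1, ?_⟩
    have : (a ^ (I + 1))⁻¹ * (a * s) = (a ^ I)⁻¹ * s := by
      rw [add_comm, zpow_add, zpow_one]; group
    rwa [this]
  · rintro s ⟨I, hI⟩
    refine ⟨I - 1, ?_⟩
    have : (a ^ (I - 1))⁻¹ * (a⁻¹ * s) = (a ^ I)⁻¹ * s := by
      rw [sub_eq_neg_add, zpow_add, zpow_neg_one]; group
    rwa [this]

/-- an element `g` such that all `a ^ (-I) g ^ ±1 a ^ I` are in `N ⊔ H` stabilises -/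
theorem gam_of_conj {g : G} (h1 : ∀ I : ℤ, (a ^ I)⁻¹ * g * a ^ I ∈ N ⊔ H) : g ∈ Gam H a N := by
  apply gam_of
  · rintro s ⟨I, hI⟩
    refine ⟨I, ?_⟩
    have : (a ^ I)⁻¹ * (g * s) = ((a ^ I)⁻¹ * g * a ^ I) * ((a ^ I)⁻¹ * s) := by group
    rw [this]; exact Subgroup.mul_mem _ (h1 I) hI
  · rintro s ⟨I, hI⟩
    refine ⟨I, ?_⟩
    have : (a ^ I)⁻¹ * (g⁻¹ * s) = ((a ^ I)⁻¹ * g * a ^ I)⁻¹ * ((a ^ I)⁻¹ * s) := by group
    rw [this]; exact Subgroup.mul_mem _ (Subgroup.inv_mem _ (h1 I)) hI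

theorem gam_N (h : CD D C) (hN : N ≤ D) {ν : G} (hν : ν ∈ N) : ν ∈ Gam H a N := by
  apply gam_of_conj
  intro I
  exact Subgroup.mem_sup_left (h.norm' hN _ hν)

theorem gam_D (h : CD D C) {d : G} (hd : d ∈ D) (hdU : d ∈ N ⊔ H) : d ∈ Gam H a N := by
  apply gam_of_conj
  intro I
  rcases h.conj hd ((a ^ I)⁻¹) with e | e
  · rw [inv_inv] at e; rw [e]; exact hdU
  · rw [inv_inv] at e; rw [e]; exact Subgroup.inv_mem _ hdU

theorem gam_w (h : CD D C) (hN : N ≤ D) {w : G} (hw : w ∈ H) (hf : fw a w ∈ N) :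
    w ∈ Gam H a N := by
  apply gam_of_conj
  intro I
  have e : (a ^ I)⁻¹ * w * a ^ I = w * (w⁻¹ * ((a ^ I)⁻¹ * w * a ^ I)) := by group
  rw [e]
  exact Subgroup.mul_mem _ (Subgroup.mem_sup_right hw) (Subgroup.mem_sup_left (h.wN hN hf I))

/-- a step -/
theorem gam_step (h : CD D C) (hN : N ≤ D) {w t : G} (hw : w ∈ H) (hf : fw a w ∈ N)
    (ht : t = w * a ∨ t = w * a⁻¹) : t ∈ Gam H a N := by
  rcases ht with rfl | rfl
  · exact Subgroup.mul_mem _ (gam_w h hN hw hf) gam_a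
  · exact Subgroup.mul_mem _ (gam_w h hN hw hf) (Subgroup.inv_mem _ gam_a)

end SNlemmas

section EVlemmas

variable {E : Subgroup G} {P : G → Prop}

theorem evr_append (p : G) (l l' : List G) :
    EVr E P p (l ++ l') ↔ EVr E P p l ∧ EVr E P (p * l.prod) l' := by
  induction l generalizing p with
  | nil => simp [EVr]
  | cons t l ih =>
    simp only [List.cons_append, EVr, ih, List.prod_cons, mul_assoc, and_assoc]

/-- only the coset `E p` is important -/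
theorem evr_coset {p e : G} (he : e ∈ E) (l : List G) : EVr E P p l ↔ EVr E P (e * p) l := by
  induction l generalizing p with
  | nil => simp [EVr]
  | cons t l ih =>
    simp only [EVr]
    rw [ih, mul_assoc]
    have : p ∈ E ↔ e * p ∈ E := by
      constructor
      · exact E.mul_mem he
      · intro h
        have e1 : p = e⁻¹ * (e * p) := by group
        rw [e1]; exact E.mul_mem (E.inv_mem he) h
    rw [this]

theorem evr_mem {p q : G} (h : p * q⁻¹ ∈ E) (l : List G) : EVr E P p l ↔ EVr E P q l := by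
  have := evr_coset (P := P) (p := q) h l
  rw [inv_mul_cancel_right] at this
  exact this.symm

theorem evr_split {p : G} {l : List G} (h : EVr E P p l) {l₁ l₂ : List G} {t : G}
    (e : l = l₁ ++ t :: l₂) (hp : p * l₁.prod ∈ E) : P t := by
  rw [e, evr_append] at h
  exact h.2.1 hp

end EVlemmas

/-- the conclusions on a walk `L` -/
structure Wk (H : Subgroup G) (W : Set G) (a : G) (L : List G) : Prop where
  step : ∀ t ∈ L, ∃ w ∈ W, t = w * a ∨ t = w * a⁻¹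
  X : ∀ E : Subgroup G, H ≤ E → (∀ g ∈ E, a⁻¹ * g * a ∈ E) → L.prod * a ∈ E
  EV : ∀ E : Subgroup G, H ≤ E → (∀ g ∈ E, a⁻¹ * g * a ∈ E) → a ∉ E → a * a ∈ E →
    EVr E (fun t => ∃ w ∈ W, t = w * a) 1 L

/-- the state of the nested construction -/
structure St (D : Subgroup G) (H : Subgroup G) (W : Set G) (a x : G) (N : Subgroup G)
    (L : List G) : Prop where
  wk : Wk H W a L
  ND : N ≤ D
  NK : N ≤ Subgroup.closure ((H : Set G) ∪ {a})
  fx : fw a x ∈ N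
  stepN : ∀ t ∈ L, ∃ w ∈ W, fw a w ∈ N ∧ (t = w * a ∨ t = w * a⁻¹)
  hd : ∃ w L', L = (w * a) :: L' ∧ w ∈ W ∧ fw a w ∈ N
  cov : Cov H L (SN H a N)
  len : (fw a x) ^ (L.length + 1) ∈ H

theorem St.prod_mem {H : Subgroup G} {W : Set G} {a x : G} {N : Subgroup G} {L : List G}
    (h : CD D C) (hWH : W ⊆ H) (hS : St D H W a x N L) : L.prod ∈ Gam H a N := by
  apply Subgroup.list_prod_mem
  intro t ht
  obtain ⟨w, hw, hf, ht⟩ := hS.stepN t ht
  exact gam_step h hS.ND (hWH hw) hf ht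

/-- subgroups of the integers -/
theorem int_gen (Q : ℤ → Prop) (h0 : Q 0) (hadd : ∀ p q, Q p → Q q → Q (p + q))
    (hneg : ∀ p, Q p → Q (-p)) (k : ℤ) (hk : Q k) (hk0 : k ≠ 0) :
    ∃ n : ℕ, 0 < n ∧ ∀ z : ℤ, Q z ↔ (n : ℤ) ∣ z := by
  let P : AddSubgroup ℤ :=
    { carrier := {z | Q z}
      add_mem' := fun {p q} hp hq => hadd p q hp hq
      zero_mem' := h0
      neg_mem' := fun {p} hp => hneg p hp }
  exact int_sub P k hk hk0

end Pool.Agent.H268.CI
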