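import Pool.Agent.H268.CI.Defs

/-! Definitions for the induction. The statements `WalkS`, `TowerS`, `RotS`, `ExtS` are proved in
other files and used as hypotheses. -/

namespace Pool.Agent.H268.CI

open Pool.Agent.H761J.Ham Pool.Agent.H761J.Nil

variable {G : Type*} [Group G]

/-- `E` meets `K` in a subgroup of index two -/
def Ix2 (K E : Subgroup G) : Prop :=
  (∃ g ∈ K, g ∉ E) ∧ ∀ g ∈ K, ∀ k ∈ K, g ∉ E → k ∉ E → g * k ∈ E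

def P2 (R : Set G) : Prop :=
  ∀ E : Subgroup G, Ix2 (Subgroup.closure R) E → ∀ r ∈ R, r ∈ E → r ≠ 1 → ∃ w ∈ Ends R, w ∈ E

structure Good (R : Set G) : Prop where
  ne : (Ends R).Nonempty
  gen : Subgroup.closure (Ends R) = Subgroup.closure R
  p2 : P2 R

/-- the induction hypothesis -/
def IH (R : Set G) : Prop :=
  ∀ R' : Set G, (∀ x ∈ R', x⁻¹ ∈ R') → R' ⊆ R → Subgroup.closure R' ≠ Subgroup.closure R → Good R'

/-- the conclusions of the extension theorem -/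
structure Ext (C : Subgroup G) (R' R W : Set G) (a : G) (L : List G) : Prop where
  wk : Wk (Subgroup.closure R') W a L
  ends : ∀ w ∈ Ends R', L.prod * w ∈ Ends R
  len : ¬ Subgroup.closure R' ≤ C →
    ∃ x ∈ W, x ∉ C ∧ (fw a x) ^ (L.length + 1) ∈ Subgroup.closure R'
  rot : ∀ E : Subgroup G, Subgroup.closure R' ≤ E → (∀ g ∈ E, a⁻¹ * g * a ∈ E) → a ∉ E →
    a * a ∈ E → Subgroup.closure R' ≠ ⊥ → ∀ w ∈ Ends R', ∃ s ∈ R', s ≠ 1 ∧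
      L.prod * w * a⁻¹ * s ∈ Ends R

/-- the walk theorem -/
def WalkS (C : Subgroup G) : Prop :=
  ∀ (H : Subgroup G) (W : Set G), (∀ w ∈ W, w⁻¹ ∈ W) → W.Nonempty →
    Subgroup.closure W = H → ∀ a : G, a ∉ H → (a ∉ C ∨ (a ∈ C ∧ H ≤ C)) →
    ∃ L : List G, Wk H W a L ∧ Cov H L (Subgroup.closure ((H : Set G) ∪ {a}) : Subgroup G) ∧
      (¬ H ≤ C → ∃ x ∈ W, x ∉ C ∧ (fw a x) ^ (L.length + 1) ∈ H)

/-- concatenation of paths in cosets -/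
def TowerS (G : Type*) [Group G] : Prop :=
  ∀ (H : Subgroup G) (R' T : Set G) (Q : G → G → Prop) (τ : List G),
    Cov ⊥ τ (H : Set G) → (∀ x ∈ τ, x ∈ R') → ∀ L : List G,
    (∀ t ∈ L, ∃ l s, Cov ⊥ l (H : Set G) ∧ (∀ x ∈ l, x ∈ R') ∧ s ∈ T ∧
      t = l.prod * s ∧ Q t s) →
    (pre L).Pairwise (fun p q => p⁻¹ * q ∉ H) →
    ∃ l' : List G, (∀ x ∈ l', x ∈ R' ∨ x ∈ T) ∧ Cov ⊥ l' {g | ∃ p ∈ pre L, p⁻¹ * g ∈ H} ∧
      l'.prod = L.prod * τ.prod ∧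
      (∀ l₁ s l₂, l' = l₁ ++ s :: l₂ → s ∈ R' ∨ (∃ L₁ t L₂, L = L₁ ++ t :: L₂ ∧
        L₁.prod⁻¹ * l₁.prod ∈ H ∧ Q t s ∧ ∃ l₃, l₂ = l₃ ++ τ))

/-- rotation of a Hamiltonian path at its end -/
def RotS (G : Type*) [Group G] : Prop :=
  ∀ (l₁ l₂ : List G) (s a : G) (S : Set G), Cov ⊥ (l₁ ++ s :: l₂) S →
    (l₁ ++ s :: l₂).prod = l₁.prod * a →
    Cov ⊥ (l₁ ++ a :: (l₂.map (·⁻¹)).reverse) S ∧
      (l₁ ++ a :: (l₂.map (·⁻¹)).reverse).prod = l₁.prod * s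

/-- the extension theorem -/
def ExtS (C : Subgroup G) : Prop :=
  ∀ (R' R W : Set G), (∀ x ∈ R, x⁻¹ ∈ R) → (∀ x ∈ R', x⁻¹ ∈ R') → R' ⊆ R →
    W ⊆ Ends R' → (∀ w ∈ W, w⁻¹ ∈ W) → W.Nonempty →
    Subgroup.closure W = Subgroup.closure R' → ∀ a ∈ R, a ∉ Subgroup.closure R' →
    Subgroup.closure ((Subgroup.closure R' : Set G) ∪ {a}) = Subgroup.closure R →
    (a ∉ C ∨ (a ∈ C ∧ Subgroup.closure R' ≤ C)) → ∃ L : List G, Ext C R' R W a L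

/-- the extension theorem with all ends -/
theorem ExtS.all {C : Subgroup G} (hext : ExtS C) {R' R : Set G} (hR : ∀ x ∈ R, x⁻¹ ∈ R)
    (hR' : ∀ x ∈ R', x⁻¹ ∈ R') (hRR : R' ⊆ R) (hg : Good R') {a : G} (ha : a ∈ R)
    (haH : a ∉ Subgroup.closure R')
    (hcl : Subgroup.closure ((Subgroup.closure R' : Set G) ∪ {a}) = Subgroup.closure R)
    (hav : a ∉ C ∨ (a ∈ C ∧ Subgroup.closure R' ≤ C)) :
    ∃ L : List G, Ext C R' R (Ends R') a L :=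
  hext R' R (Ends R') hR hR' hRR subset_rfl (ends_inv hR') hg.ne hg.gen a ha haH hcl hav

/-- choice of `R'` and `a` -/
theorem pick' [Finite G] {C : Subgroup G} {R R0 : Set G} (hR : ∀ x ∈ R, x⁻¹ ∈ R)
    (hR0 : ∀ x ∈ R0, x⁻¹ ∈ R0) (hsub : R0 ⊆ R) (hne : Subgroup.closure R0 ≠ Subgroup.closure R)
    (hav : Subgroup.closure R ≤ C ∨ ∀ r ∈ R, r ∈ C → r ∈ R0) :
    ∃ R' : Set G, R0 ⊆ R' ∧ R' ⊆ R ∧ (∀ x ∈ R', x⁻¹ ∈ R') ∧
      Subgroup.closure R' ≠ Subgroup.closure R ∧ ∃ a ∈ R, a ∉ Subgroup.closure R' ∧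
        Subgroup.closure ((Subgroup.closure R' : Set G) ∪ {a}) = Subgroup.closure R ∧
        (a ∉ C ∨ (a ∈ C ∧ Subgroup.closure R' ≤ C)) := by
  obtain ⟨R', h1, h2, h3, h4, a, ha, ha', hcl⟩ := pick hR hR0 hsub hne
  refine ⟨R', h1, h2, h3, h4, a, ha, ha', hcl, ?_⟩
  by_cases haC : a ∈ C
  · right
    refine ⟨haC, ?_⟩
    rcases hav with hav | hav
    · exact (Subgroup.closure_mono h2).trans hav
    · exact absurd (Subgroup.subset_closure (h1 (hav a ha haC))) ha'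
  · exact Or.inl haC

/-- facts on a maximal subgroup `E` of `K` which is not normal -/
structure NN (C K E : Subgroup G) : Prop where
  F3 : ∀ w ∈ K, w ∈ C → w * w ∈ E → w ∈ E
  F4 : ∀ r ∈ K, r ∉ C → r * r ∈ E
  N0 : ∀ k ∈ K, ∀ g ∈ E, g ∈ C → k⁻¹ * g * k ∈ E
  notC : ∃ e ∈ E, e ∉ C

theorem Ix2.sub {K K' E : Subgroup G} (h : Ix2 K E) (hK : K' ≤ K) (h2 : ∃ g ∈ K', g ∉ E) :
    Ix2 K' E := ⟨h2, fun g hg k hk => h.2 g (hK hg) k (hK hk)⟩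

end Pool.Agent.H268.CI
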