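import Pool.Agent.H268.CI.Defs

/-! Base walk, even number of levels. -/

namespace Pool.Agent.H268.CI

open Pool.Agent.H761J.Ham Pool.Agent.H761J.Nil

variable {G : Type*} [Group G] {D C : Subgroup G}

namespace T1

/-- the walk on two levels -/
def ds (a x : G) : ℕ → List G
  | 0 => [x * a]
  | k + 1 => (x * a) :: (x⁻¹ * a⁻¹) :: ds a x k

theorem ds_length (a x : G) (k : ℕ) : (ds a x k).length = 2 * k + 1 := by
  induction k with
  | zero => simp [ds]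
  | succ k ih => simp only [ds, List.length_cons, ih]; ring

theorem ds_prod (a x : G) (k : ℕ) :
    (ds a x k).prod = (x * a * x⁻¹ * a⁻¹) ^ k * (x * a) := by
  induction k with
  | zero => simp [ds]
  | succ k ih =>
    simp only [ds, List.prod_cons, ih, pow_succ', mul_assoc]

theorem ds_pre (a x : G) (k i : ℕ) (hi : i ≤ k) :
    (x * a * x⁻¹ * a⁻¹) ^ i ∈ pre (ds a x k) ∧
      (x * a * x⁻¹ * a⁻¹) ^ i * (x * a) ∈ pre (ds a x k) := by
  induction k generalizing i with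
  | zero =>
    obtain rfl : i = 0 := by omega
    simp [ds, pre]
  | succ k ih =>
    cases i with
    | zero => 
      refine ⟨?_, ?_⟩
      · rw [pow_zero]; exact one_mem_pre _
      · rw [pow_zero, one_mul]
        simp only [ds, pre, List.mem_cons, List.map_cons]
        exact Or.inr (Or.inl (mul_one _).symm)
    | succ i =>
      obtain ⟨h1, h2⟩ := ih i (by omega)
      have key : ∀ y ∈ pre (ds a x k), (x * a * x⁻¹ * a⁻¹) * y ∈ pre (ds a x (k + 1)) := by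
        intro y hy
        simp only [ds, pre, List.mem_cons, List.mem_map, List.map_cons, List.map_map]
        refine Or.inr (Or.inr ⟨y, hy, ?_⟩)
        simp only [Function.comp_apply, mul_assoc]
      refine ⟨?_, ?_⟩
      · rw [pow_succ']; exact key _ h1
      · rw [pow_succ', mul_assoc]; exact key _ h2

theorem ds_step (a x : G) (k : ℕ) :
    ∀ t ∈ ds a x k, ∃ w, (w = x ∨ w = x⁻¹) ∧ (t = w * a ∨ t = w * a⁻¹) := by
  induction k with
  | zero =>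
    intro t ht
    simp only [ds, List.mem_cons, List.not_mem_nil, or_false] at ht
    exact ⟨x, Or.inl rfl, Or.inl ht⟩
  | succ k ih =>
    intro t ht
    simp only [ds, List.mem_cons] at ht
    rcases ht with rfl | rfl | ht
    · exact ⟨x, Or.inl rfl, Or.inl rfl⟩
    · exact ⟨x⁻¹, Or.inr rfl, Or.inr rfl⟩
    · exact ih t ht

theorem c_eq (a x : G) : x * a * x⁻¹ * a⁻¹ = (x * a) * fw a x * (x * a)⁻¹ := by
  unfold fw; group

theorem c_pow (a x : G) (i : ℕ) :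
    (x * a * x⁻¹ * a⁻¹) ^ i * (x * a) = x * a * (fw a x) ^ i := by
  rw [c_eq, conj_pow]; group

/-- the whole walk -/
def LL (a x : G) (c : ℕ) : ℕ → List G
  | 0 => ds a x c
  | k + 1 => LL a x c k ++ (x⁻¹ * a) :: ds a x c

theorem LL_length (a x : G) (c k : ℕ) :
    (LL a x c k).length + 1 = 2 * (k + 1) * (c + 1) := by
  induction k with
  | zero => simp only [LL, ds_length]; ring
  | succ k ih =>
    simp only [LL, List.length_append, List.length_cons, ds_length]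
    have : (LL a x c k).length + (2 * c + 1 + 1) + 1 =
      ((LL a x c k).length + 1) + (2 * c + 1 + 1) := by ring
    rw [this, ih]; ring

theorem LL_step (a x : G) (c k : ℕ) :
    ∀ t ∈ LL a x c k, ∃ w, (w = x ∨ w = x⁻¹) ∧ (t = w * a ∨ t = w * a⁻¹) := by
  induction k with
  | zero => exact ds_step a x c
  | succ k ih =>
    intro t ht
    simp only [LL, List.mem_append, List.mem_cons] at ht
    rcases ht with ht | rfl | ht
    · exact ih t ht
    · exact ⟨x⁻¹, Or.inr rfl, Or.inl rfl⟩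
    · exact ds_step a x c t ht

theorem LL_head (a x : G) (c k : ℕ) : ∃ L', LL a x c k = (x * a) :: L' := by
  induction k with
  | zero =>
    cases c with
    | zero => exact ⟨[], rfl⟩
    | succ c => exact ⟨_, rfl⟩
  | succ k ih =>
    obtain ⟨L', hL'⟩ := ih
    exact ⟨L' ++ (x⁻¹ * a) :: ds a x c, by rw [LL, hL', List.cons_append]⟩

/-- `T` -/
def TT (a x : G) : Subgroup G := Subgroup.closure {x, fw a x}

theorem x_mem (a x : G) : x ∈ TT a x := Subgroup.subset_closure (by simp)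
theorem f_mem (a x : G) : fw a x ∈ TT a x := Subgroup.subset_closure (by simp)

theorem TT_le {a x : G} {E : Subgroup G} (h1 : x ∈ E) (h2 : fw a x ∈ E) : TT a x ≤ E := by
  unfold TT
  rw [Subgroup.closure_le]
  intro y hy
  rcases hy with rfl | hy
  · exact h1
  · rw [Set.mem_singleton_iff] at hy
    rw [hy]; exact h2

theorem TT_conj (h : CD D C) {a x : G} {t : G} (ht : t ∈ TT a x) : a⁻¹ * t * a ∈ TT a x := by
  have h1 : TT a x ≤ (TT a x).comap (MulAut.conj a⁻¹).toMonoidHom := by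
    apply TT_le
    · rw [Subgroup.mem_comap]
      simp only [MulEquiv.toMonoidHom_eq_coe, MonoidHom.coe_coe, MulAut.conj_apply, inv_inv]
      rw [a_conj]
      exact Subgroup.mul_mem _ (x_mem a x) (f_mem a x)
    · rw [Subgroup.mem_comap]
      simp only [MulEquiv.toMonoidHom_eq_coe, MonoidHom.coe_coe, MulAut.conj_apply, inv_inv]
      have h2 := h.conj (fw_mem h a x) a⁻¹
      rw [inv_inv] at h2
      rcases h2 with e | e
      · rw [e]; exact f_mem a x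
      · rw [e]; exact Subgroup.inv_mem _ (f_mem a x)
  have h3 := h1 ht
  rw [Subgroup.mem_comap] at h3
  simpa only [MulEquiv.toMonoidHom_eq_coe, MonoidHom.coe_coe, MulAut.conj_apply, inv_inv] using h3

theorem ds_prod' (h : CD D C) (a x : G) (c : ℕ) :
    ∃ t ∈ TT a x, (ds a x c).prod = a * t := by
  refine ⟨(a⁻¹ * x * a) * (fw a x) ^ c, ?_, ?_⟩
  · exact Subgroup.mul_mem _ (TT_conj h (x_mem a x)) (Subgroup.pow_mem _ (f_mem a x) _)
  · rw [ds_prod, c_pow]; group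

theorem LL_prod (h : CD D C) (a x : G) (c k : ℕ) :
    ∃ t ∈ TT a x, (LL a x c k).prod = a ^ (2 * k + 1) * t := by
  induction k with
  | zero => 
    obtain ⟨t, ht, e⟩ := ds_prod' h a x c
    exact ⟨t, ht, by simp only [LL, e]; simp⟩
  | succ k ih =>
    obtain ⟨t, ht, e⟩ := ih
    obtain ⟨t0, ht0, e0⟩ := ds_prod' h a x c
    refine ⟨a⁻¹ * (a⁻¹ * (t * x⁻¹) * a) * a * t0, ?_, ?_⟩
    · exact Subgroup.mul_mem _ (TT_conj h (TT_conj h
        (Subgroup.mul_mem _ ht (Subgroup.inv_mem _ (x_mem a x))))) ht0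
    · have e1 : a ^ (2 * (k + 1) + 1) = a ^ (2 * k + 1) * a * a := by
        rw [← pow_succ, ← pow_succ, mul_add, mul_one]
      rw [LL, List.prod_append, List.prod_cons, e, e0, e1]
      group

theorem LL_prod2 (h : CD D C) (a x : G) (c k : ℕ) :
    ∃ t ∈ TT a x, (LL a x c k).prod * (x⁻¹ * a) = a ^ (2 * k + 2) * t := by
  obtain ⟨t, ht, e⟩ := LL_prod h a x c k
  refine ⟨a⁻¹ * (t * x⁻¹) * a, TT_conj h
        (Subgroup.mul_mem _ ht (Subgroup.inv_mem _ (x_mem a x))), ?_⟩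
  have e1 : a ^ (2 * k + 2) = a ^ (2 * k + 1) * a := by rw [← pow_succ]
  rw [e, e1]; group

section cov

variable {H : Subgroup G} {a x : G} {n : ℕ}

theorem fin_rep (h : CD D C) (hn0 : 0 < n)
    (hn : ∀ z : ℤ, (fw a x) ^ z ∈ H ↔ (n : ℤ) ∣ z) {u : G}
    (hu : u ∈ Subgroup.zpowers (fw a x) ⊔ H) : ∃ j : ℕ, j < n ∧ ((fw a x) ^ (j : ℤ))⁻¹ * u ∈ H := by
  obtain ⟨z, hz⟩ := (h.mem_sup_z (fw_mem h a x)).1 hu
  have hn' : (0 : ℤ) < n := by exact_mod_cast hn0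
  have h1 := Int.emod_nonneg z hn'.ne'
  have h2 := Int.emod_lt_of_pos z hn'
  refine ⟨(z % n).toNat, by omega, ?_⟩
  rw [Int.toNat_of_nonneg h1]
  have e : ((fw a x) ^ (z % n))⁻¹ * u = (fw a x) ^ (z - z % n) * (((fw a x) ^ z)⁻¹ * u) := by
    rw [← mul_assoc, ← zpow_neg, ← zpow_neg, ← zpow_add]
    congr 2; ring
  rw [e]
  refine H.mul_mem ((hn _).2 ?_) hz
  exact ⟨z / n, by have := Int.mul_ediv_add_emod z n; linarith⟩

theorem ds_cov (h : CD D C) (hx : x ∈ H) (c : ℕ)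
    (hn : ∀ z : ℤ, (fw a x) ^ z ∈ H ↔ ((c + 1 : ℕ) : ℤ) ∣ z)
    (ha : a ∉ Subgroup.zpowers (fw a x) ⊔ H) :
    Cov H (ds a x c) {g | g ∈ Subgroup.zpowers (fw a x) ⊔ H ∨
      a⁻¹ * g ∈ Subgroup.zpowers (fw a x) ⊔ H} := by
  have hfU : ∀ j : ℤ, (fw a x) ^ j ∈ Subgroup.zpowers (fw a x) ⊔ H := fun j =>
    Subgroup.mem_sup_left (Subgroup.zpow_mem _ (Subgroup.mem_zpowers _) _)
  have hHU : H ≤ Subgroup.zpowers (fw a x) ⊔ H := le_sup_right
  have hdv : ∀ i j : ℕ, i < c + 1 → j < c + 1 → ((c + 1 : ℕ) : ℤ) ∣ (j : ℤ) - i → i = j := by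
    intro i j hi hj hd
    have := Int.eq_zero_of_abs_lt_dvd hd (by rw [abs_lt]; constructor <;> push_cast <;> omega)
    omega
  refine (cov_of_hits (ι := Fin 2 × Fin (c + 1))
      (fun i => a ^ ((i.1 : ℕ) : ℤ) * (fw a x) ^ ((i.2 : ℕ) : ℤ)) ?_ ?_ ?_).congr ?_
  · rw [ds_length, Fintype.card_prod, Fintype.card_fin, Fintype.card_fin]; ring
  · rintro ⟨⟨b, hb⟩, ⟨j, hj⟩⟩ ⟨⟨b', hb'⟩, ⟨j', hj'⟩⟩ hH
    simp only at hH
    have hbb : b = b' := by
      by_contra hne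
      have h1 := hHU hH
      have h2 : (a ^ ((b : ℕ) : ℤ))⁻¹ * a ^ ((b' : ℕ) : ℤ) ∈ Subgroup.zpowers (fw a x) ⊔ H := by
        have e : (a ^ ((b : ℕ) : ℤ))⁻¹ * a ^ ((b' : ℕ) : ℤ) =
          (fw a x) ^ (j : ℤ) * ((a ^ ((b : ℕ) : ℤ) * (fw a x) ^ (j : ℤ))⁻¹ *
            (a ^ ((b' : ℕ) : ℤ) * (fw a x) ^ (j' : ℤ))) * ((fw a x) ^ (j' : ℤ))⁻¹ := by group
        rw [e]
        exact Subgroup.mul_mem _ (Subgroup.mul_mem _ (hfU _) h1) (Subgroup.inv_mem _ (hfU _))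
      have h3 : (b = 0 ∧ b' = 1) ∨ (b = 1 ∧ b' = 0) := by omega
      rcases h3 with ⟨rfl, rfl⟩ | ⟨rfl, rfl⟩
      · apply ha; simpa using h2
      · apply ha; simpa using h2
    subst hbb
    have h4 : (fw a x) ^ ((j' : ℤ) - j) ∈ H := by
      have e : (a ^ ((b : ℕ) : ℤ) * (fw a x) ^ (j : ℤ))⁻¹ *
            (a ^ ((b : ℕ) : ℤ) * (fw a x) ^ (j' : ℤ)) = (fw a x) ^ ((j' : ℤ) - j) := by
        rw [sub_eq_neg_add, zpow_add, zpow_neg]; group
      rwa [e] at hH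
    have h5 := hdv j j' hj hj' ((hn _).1 h4)
    subst h5
    rfl
  · rintro ⟨⟨b, hb⟩, ⟨j, hj⟩⟩
    simp only
    have hmod : ∀ z : ℤ, ∃ i : ℕ, i ≤ c ∧ ((c + 1 : ℕ) : ℤ) ∣ z - i := by
      intro z
      have hp : (0 : ℤ) < ((c + 1 : ℕ) : ℤ) := by positivity
      have h1 := Int.emod_nonneg z hp.ne'
      have h2 := Int.emod_lt_of_pos z hp
      refine ⟨(z % ((c + 1 : ℕ) : ℤ)).toNat, by omega, ?_⟩
      rw [Int.toNat_of_nonneg h1]
      exact ⟨z / ((c + 1 : ℕ) : ℤ), by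
        have := Int.mul_ediv_add_emod z ((c + 1 : ℕ) : ℤ); linarith⟩
    have hb2 : b = 0 ∨ b = 1 := by omega
    rcases hb2 with rfl | rfl
    · obtain ⟨ε, hε, he⟩ : ∃ ε : ℤ, (ε = 1 ∨ ε = -1) ∧ x * a * x⁻¹ * a⁻¹ = (fw a x) ^ ε := by
        rw [c_eq]
        rcases h.conj (fw_mem h a x) (x * a) with e | e
        · exact ⟨1, Or.inl rfl, by rw [e, zpow_one]⟩
        · exact ⟨-1, Or.inr rfl, by rw [e, zpow_neg_one]⟩
      obtain ⟨i, hi, hd⟩ := hmod (ε * j)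
      refine ⟨(x * a * x⁻¹ * a⁻¹) ^ i, (ds_pre a x c i hi).1, ?_⟩
      rw [he, ← zpow_natCast, ← zpow_mul]
      have e : ((fw a x) ^ (ε * i))⁻¹ * (a ^ ((0 : ℕ) : ℤ) * (fw a x) ^ (j : ℤ)) =
        (fw a x) ^ (ε * (ε * j - i)) := by
        have e2 : ε * (ε * j - i) = -(ε * i) + j := by
          rcases hε with rfl | rfl <;> ring
        rw [e2, zpow_add, zpow_neg]
        simp
      rw [e, hn]
      exact Dvd.dvd.mul_left hd _
    · obtain ⟨ε, -, -, -, he, -⟩ := h.zpow_comm (fw_mem h a x) x⁻¹ j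
      obtain ⟨i, hi, hd⟩ := hmod (ε * j - 1)
      refine ⟨(x * a * x⁻¹ * a⁻¹) ^ i * (x * a), (ds_pre a x c i hi).2, ?_⟩
      rw [c_pow, ← zpow_natCast]
      have e : (x * a * (fw a x) ^ (i : ℤ))⁻¹ * (a ^ ((1 : ℕ) : ℤ) * (fw a x) ^ (j : ℤ)) =
        (fw a x) ^ (ε * j - 1 - i) * x⁻¹ := by
        have e1 : (x * a * (fw a x) ^ (i : ℤ))⁻¹ * (a ^ ((1 : ℕ) : ℤ) * (fw a x) ^ (j : ℤ)) =
          ((fw a x) ^ (i : ℤ))⁻¹ * (a⁻¹ * x * a)⁻¹ * (fw a x) ^ (j : ℤ) := by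
          rw [Nat.cast_one, zpow_one]; group
        rw [e1, a_conj, mul_inv_rev, mul_assoc, mul_assoc, he]
        have e2 : ε * j - 1 - i = -i + (-1 + ε * j) := by ring
        rw [e2, zpow_add, zpow_add, zpow_neg, zpow_neg_one]
        simp only [mul_assoc]
      rw [e]
      exact H.mul_mem ((hn _).2 hd) (H.inv_mem hx)
  · intro g
    constructor
    · rintro (hg | hg)
      · obtain ⟨j, hj, hj2⟩ := fin_rep h (Nat.succ_pos c) hn hg
        refine ⟨(⟨0, by omega⟩, ⟨j, hj⟩), ?_⟩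
        simpa using hj2
      · obtain ⟨j, hj, hj2⟩ := fin_rep h (Nat.succ_pos c) hn hg
        refine ⟨(⟨1, by omega⟩, ⟨j, hj⟩), ?_⟩
        simp only [Nat.cast_one, zpow_one, mul_inv_rev, mul_assoc]
        exact hj2
    · rintro ⟨⟨⟨b, hb⟩, ⟨j, hj⟩⟩, hg⟩
      simp only at hg
      have hb2 : b = 0 ∨ b = 1 := by omega
      rcases hb2 with rfl | rfl
      · left
        have e : g = (fw a x) ^ (j : ℤ) *
          ((a ^ ((0 : ℕ) : ℤ) * (fw a x) ^ (j : ℤ))⁻¹ * g) := by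
          simp
        rw [e]
        exact Subgroup.mul_mem _ (hfU _) (hHU hg)
      · right
        have e : a⁻¹ * g = (fw a x) ^ (j : ℤ) *
          ((a ^ ((1 : ℕ) : ℤ) * (fw a x) ^ (j : ℤ))⁻¹ * g) := by
          rw [Nat.cast_one, zpow_one]; group
        rw [e]
        exact Subgroup.mul_mem _ (hfU _) (hHU hg)

theorem LL_cov (h : CD D C) (hx : x ∈ H) (c M : ℕ)
    (hn : ∀ z : ℤ, (fw a x) ^ z ∈ H ↔ ((c + 1 : ℕ) : ℤ) ∣ z)
    (hm : ∀ I : ℤ, a ^ I ∈ Subgroup.zpowers (fw a x) ⊔ H ↔ ((2 * (M + 1) : ℕ) : ℤ) ∣ I)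
    (k : ℕ) (hk : k ≤ M) :
    Cov H (LL a x c k) {g | ∃ i : ℕ, i ≤ 2 * k + 1 ∧
      (a ^ i)⁻¹ * g ∈ Subgroup.zpowers (fw a x) ⊔ H} := by
  have hfU : fw a x ∈ Subgroup.zpowers (fw a x) ⊔ H := 
    Subgroup.mem_sup_left (Subgroup.mem_zpowers _)
  have hHU : H ≤ Subgroup.zpowers (fw a x) ⊔ H := le_sup_right
  have hTU : TT a x ≤ Subgroup.zpowers (fw a x) ⊔ H := TT_le (hHU hx) hfU
  have ha : a ∉ Subgroup.zpowers (fw a x) ⊔ H := by
    intro h1
    have h2 := (hm 1).1 (by rwa [zpow_one])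
    have h3 := Int.le_of_dvd (by norm_num) h2
    push_cast at h3
    omega
  have hD := ds_cov h hx c hn ha
  induction k with
  | zero =>
    refine hD.congr ?_
    intro g
    constructor
    · rintro ⟨i, hi, hg⟩
      have hi2 : i = 0 ∨ i = 1 := by omega
      rcases hi2 with rfl | rfl
      · left; simpa using hg
      · right; simpa using hg
    · rintro (hg | hg)
      · exact ⟨0, by omega, by simpa using hg⟩
      · exact ⟨1, by omega, by simpa using hg⟩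
  | succ k ih =>
    have h1 := ih (by omega)
    obtain ⟨t, ht, e⟩ := LL_prod2 h a x c k
    have htU := hTU ht
    have ht2 : a⁻¹ * t⁻¹ * a ∈ Subgroup.zpowers (fw a x) ⊔ H :=
      hTU (TT_conj h (Subgroup.inv_mem _ ht))
    -- the second block
    have hb : ∀ g : G, (((LL a x c k).prod * (x⁻¹ * a))⁻¹ * g ∈
        {g | g ∈ Subgroup.zpowers (fw a x) ⊔ H ∨ a⁻¹ * g ∈ Subgroup.zpowers (fw a x) ⊔ H}) ↔
        ((a ^ (2 * k + 2))⁻¹ * g ∈ Subgroup.zpowers (fw a x) ⊔ H ∨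
          (a ^ (2 * k + 3))⁻¹ * g ∈ Subgroup.zpowers (fw a x) ⊔ H) := by
      intro g
      rw [e]
      have e1 : (a ^ (2 * k + 2) * t)⁻¹ * g = t⁻¹ * ((a ^ (2 * k + 2))⁻¹ * g) := by group
      have e3 : a ^ (2 * k + 3) = a ^ (2 * k + 2) * a := by rw [← pow_succ]
      have e2 : a⁻¹ * ((a ^ (2 * k + 2) * t)⁻¹ * g) =
        (a⁻¹ * t⁻¹ * a) * ((a ^ (2 * k + 3))⁻¹ * g) := by rw [e3]; group
      rw [Set.mem_ofPred_eq, e2, e1, Subgroup.mul_mem_cancel_left _ (Subgroup.inv_mem _ htU),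
        Subgroup.mul_mem_cancel_left _ ht2]
    have hdis : ∀ i i' : ℕ, i < i' → i' ≤ 2 * M + 1 → ∀ g : G,
        (a ^ i)⁻¹ * g ∈ Subgroup.zpowers (fw a x) ⊔ H →
        (a ^ i')⁻¹ * g ∈ Subgroup.zpowers (fw a x) ⊔ H → False := by
      intro i i' hi hi' g h2 h3
      have h4 : a ^ ((i' : ℤ) - i) ∈ Subgroup.zpowers (fw a x) ⊔ H := by
        have e4 : a ^ ((i' : ℤ) - i) = ((a ^ i)⁻¹ * g) * ((a ^ i')⁻¹ * g)⁻¹ := by
          rw [sub_eq_neg_add, zpow_add, zpow_neg, zpow_natCast, zpow_natCast]; group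
        rw [e4]
        exact Subgroup.mul_mem _ h2 (Subgroup.inv_mem _ h3)
      have h5 := Int.le_of_dvd (by omega) ((hm _).1 h4)
      push_cast at h5
      omega
    refine (cov_concat h1 hD ?_ (s := x⁻¹ * a)).congr ?_
    · rintro g ⟨i, hi, hg⟩ hg2
      rw [hb] at hg2
      rcases hg2 with hg2 | hg2
      · exact hdis i (2 * k + 2) (by omega) (by omega) g hg hg2
      · exact hdis i (2 * k + 3) (by omega) (by omega) g hg hg2
    · intro g
      rw [Set.mem_ofPred_eq, Set.mem_ofPred_eq, hb g]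
      constructor
      · rintro ⟨i, hi, hg⟩
        have hi2 : i ≤ 2 * k + 1 ∨ i = 2 * k + 2 ∨ i = 2 * k + 3 := by omega
        rcases hi2 with hi2 | rfl | rfl
        · exact Or.inl ⟨i, hi2, hg⟩
        · exact Or.inr (Or.inl hg)
        · exact Or.inr (Or.inr hg)
      · rintro (⟨i, hi, hg⟩ | hg | hg)
        · exact ⟨i, by omega, hg⟩
        · exact ⟨2 * k + 2, by omega, hg⟩
        · exact ⟨2 * k + 3, by omega, hg⟩

end cov

theorem ds_ev (h : CD D C) {a x : G} {E : Subgroup G} (hxE : x ∈ E) (hfE : fw a x ∈ E)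
    (haE : a ∉ E) (c : ℕ) {p : G} (hp : p ∈ E) : EVr E (fun t => t = x * a) p (ds a x c) := by
  induction c generalizing p with
  | zero => exact ⟨fun _ => rfl, trivial⟩
  | succ c ih =>
    refine ⟨fun _ => rfl, ?_, ?_⟩
    · intro h1
      exfalso
      apply haE
      have e : a = x⁻¹ * p⁻¹ * (p * (x * a)) := by group
      rw [e]
      exact E.mul_mem (E.mul_mem (E.inv_mem hxE) (E.inv_mem hp)) h1
    · apply ih
      have e : p * (x * a) * (x⁻¹ * a⁻¹) = p * (x * a * x⁻¹ * a⁻¹) := by group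
      rw [e, c_eq]
      apply E.mul_mem hp
      rcases h.conj (fw_mem h a x) (x * a) with e | e
      · rw [e]; exact hfE
      · rw [e]; exact E.inv_mem hfE

theorem LL_ev (h : CD D C) {a x : G} {E : Subgroup G} (hxE : x ∈ E) (hfE : fw a x ∈ E)
    (haE : a ∉ E) (haa : a * a ∈ E) (c k : ℕ) :
    EVr E (fun t => t = x * a) 1 (LL a x c k) := by
  induction k with
  | zero => exact ds_ev h hxE hfE haE c E.one_mem
  | succ k ih =>
    rw [LL, evr_append]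
    refine ⟨ih, ?_⟩
    simp only [EVr, one_mul]
    have hT : TT a x ≤ E := TT_le hxE hfE
    refine ⟨?_, ?_⟩
    · intro h1
      exfalso
      obtain ⟨t, ht, e⟩ := LL_prod h a x c k
      rw [e] at h1
      apply haE
      have e1 : a = ((a * a) ^ k)⁻¹ * (a ^ (2 * k + 1) * t) * t⁻¹ := by
        have e2 : a ^ (2 * k + 1) = (a * a) ^ k * a := by
          rw [pow_succ, pow_mul, pow_two]
        rw [e2]; group
      rw [e1]
      exact E.mul_mem (E.mul_mem (E.inv_mem (E.pow_mem haa _)) h1) (E.inv_mem (hT ht))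
    · apply ds_ev h hxE hfE haE c
      obtain ⟨t, ht, e⟩ := LL_prod2 h a x c k
      rw [e]
      refine E.mul_mem ?_ (hT ht)
      have e2 : a ^ (2 * k + 2) = (a * a) ^ (k + 1) := by
        rw [← pow_two, ← pow_mul]; congr 1
      rw [e2]
      exact E.pow_mem haa _

end T1

/-- Proof. Put f = fw a x ∈ D, U = ⟨f⟩ ⊔ H, m = 2(M+1). By `CD.mem_sup_z`: u ∈ U iff ∃ j, f^(-j) u ∈ H.
U is normalised by the elements of T = closure {x, f} ⊆ U, and a⁻¹ x a = x f, a⁻¹ f a = f^±1, so a⁻¹ T a ⊆ T.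
Let c = x a x⁻¹ a⁻¹ = (x a) f (x a)⁻¹ (= f^±1) and
  Dl = [x a, x⁻¹ a⁻¹] repeated (n-1) times, then [x a].
Prefix products of Dl: c^i, c^i x a = x a f^i (i < n). Claim: Cov H Dl {g | g ∈ U ∨ a⁻¹ g ∈ U}: use `cov_of_hits` with
ι = Fin n ⊕ Fin n (or Fin 2 × Fin n), reps f^j and a f^j; length 2n-1; distinct because a ∉ U (m ≥ 2) and hn;
hits: c^i = f^(±i) (choose i ≡ ± j mod n); (x a f^i)⁻¹ a f^j = f^(-i) (x f)⁻¹ f^j  [as a⁻¹ x a = x f] = f^(-i-1) x⁻¹ f^j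
= f^(-i-1±j) x⁻¹ ∈ H iff n ∣ ±j-i-1.
Induction: L_0 = Dl, L_(k+1) = L_k ++ (x⁻¹ * a) :: Dl. Claims: L_k.prod ∈ a^(2k+1) T and
Cov H L_k {g | ∃ i ≤ 2k+1, (a^i)⁻¹ g ∈ U} (for 2k+1 < m). Step: p = L_k.prod x⁻¹ a = a^(2k+2) t, t ∈ T; `cov_concat`;
p⁻¹ g ∈ U iff a^(-(2k+2)) g ∈ U; a⁻¹ p⁻¹ g = (a⁻¹ t⁻¹ a) a⁻¹ a^(-(2k+2)) g, and a⁻¹ t⁻¹ a ∈ T ⊆ U. Disjoint: the cosets a^i U,
0 ≤ i < m are distinct by hm. L = L_M. By hm, {∃ i ≤ 2M+1, ...} = SN (reduce the exponent mod m, a^m ∈ U; note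
(a^I)⁻¹ g ∈ U and a^(mq) ∈ U normalises..: a^I = a^r (a^m)^q, so (a^r)⁻¹ g = (a^m)^q ((a^I)⁻¹ g) ∈ U).
X: L.prod * a ∈ a^m T; for E ≥ H normalised by a we have f = x⁻¹ (a⁻¹ x a) ∈ E, so T ≤ E and U ≤ E, a^m ∈ U ≤ E.
EV: such E contains T; positions at even levels (in a^(2k) T) are in E because a a ∈ E, positions at odd levels are not in E
(else a ∈ E). At even levels all steps are x a. With the recursive definition of EVr use `evr_append`, `evr_mem`/`evr_coset`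
(EVr depends only on the coset E p): show EVr E P p Dl for p ∈ E by induction on n, then for L_k by induction.
length: (2n-1) + M (2n) + 1 = 2 (M+1) n. -/
theorem base_even (h : CD D C) {H : Subgroup G} {x a : G} (hx : x ∈ H) {n M : ℕ} (hn0 : 0 < n)
    (hn : ∀ z : ℤ, (fw a x) ^ z ∈ H ↔ (n : ℤ) ∣ z)
    (hm : ∀ I : ℤ, a ^ I ∈ Subgroup.zpowers (fw a x) ⊔ H ↔ ((2 * (M + 1) : ℕ) : ℤ) ∣ I) :
    ∃ L : List G, (∀ t ∈ L, ∃ w, (w = x ∨ w = x⁻¹) ∧ (t = w * a ∨ t = w * a⁻¹)) ∧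
      (∃ L', L = (x * a) :: L') ∧
      Cov H L (SN H a (Subgroup.zpowers (fw a x))) ∧
      (∀ E : Subgroup G, H ≤ E → (∀ g ∈ E, a⁻¹ * g * a ∈ E) → L.prod * a ∈ E) ∧
      (∀ E : Subgroup G, H ≤ E → (∀ g ∈ E, a⁻¹ * g * a ∈ E) → a ∉ E → a * a ∈ E →
        EVr E (fun t => t = x * a) 1 L) ∧
      L.length + 1 = 2 * (M + 1) * n := by
  obtain ⟨c, rfl⟩ : ∃ c, n = c + 1 := ⟨n - 1, by omega⟩
  have hfE : ∀ E : Subgroup G, H ≤ E → (∀ g ∈ E, a⁻¹ * g * a ∈ E) → fw a x ∈ E := by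
    intro E hE hEa
    have e : fw a x = x⁻¹ * (a⁻¹ * x * a) := by unfold fw; group
    rw [e]
    exact E.mul_mem (E.inv_mem (hE hx)) (hEa x (hE hx))
  refine ⟨T1.LL a x c M, T1.LL_step a x c M, T1.LL_head a x c M, ?_, ?_, ?_,
    T1.LL_length a x c M⟩
  · refine (T1.LL_cov h hx c M hn hm M le_rfl).congr ?_
    intro g
    constructor
    · rintro ⟨I, hI⟩
      have hp : (0 : ℤ) < ((2 * (M + 1) : ℕ) : ℤ) := by positivity
      have h1 := Int.emod_nonneg I hp.ne'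
      have h2 := Int.emod_lt_of_pos I hp
      refine ⟨(I % ((2 * (M + 1) : ℕ) : ℤ)).toNat, by omega, ?_⟩
      rw [← zpow_natCast, Int.toNat_of_nonneg h1]
      have e : (a ^ (I % ((2 * (M + 1) : ℕ) : ℤ)))⁻¹ * g =
        a ^ (I - I % ((2 * (M + 1) : ℕ) : ℤ)) * ((a ^ I)⁻¹ * g) := by
        rw [← mul_assoc, ← zpow_neg, ← zpow_neg, ← zpow_add]
        congr 2; ring
      rw [e]
      refine Subgroup.mul_mem _ ((hm _).2 ?_) hI
      exact ⟨I / ((2 * (M + 1) : ℕ) : ℤ), by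
        have := Int.mul_ediv_add_emod I ((2 * (M + 1) : ℕ) : ℤ); linarith⟩
    · rintro ⟨i, -, hg⟩
      exact ⟨i, by rw [zpow_natCast]; exact hg⟩
  · intro E hE hEa
    have hf := hfE E hE hEa
    have hT : T1.TT a x ≤ E := T1.TT_le (hE hx) hf
    obtain ⟨t, ht, e⟩ := T1.LL_prod h a x c M
    have e1 : (T1.LL a x c M).prod * a = a ^ (2 * M + 2) * (a⁻¹ * t * a) := by
      have e2 : a ^ (2 * M + 2) = a ^ (2 * M + 1) * a := by rw [← pow_succ]
      rw [e, e2]; group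
    rw [e1]
    refine E.mul_mem ?_ (hEa t (hT ht))
    have hU : Subgroup.zpowers (fw a x) ⊔ H ≤ E := by
      refine sup_le ?_ hE
      rw [Subgroup.zpowers_le]; exact hf
    apply hU
    have h3 := (hm ((2 * (M + 1) : ℕ) : ℤ)).2 dvd_rfl
    rw [zpow_natCast] at h3
    exact h3
  · intro E hE hEa haE haa
    exact T1.LL_ev h (hE hx) (hfE E hE hEa) haE haa c M

end Pool.Agent.H268.CI
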