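import Pool.Agent.H268.CI.Defs2

/-! The property `P2`. -/

namespace Pool.Agent.H268.CI

open Pool.Agent.H761J.Ham Pool.Agent.H761J.Nil

variable {G : Type*} [Group G] {D C : Subgroup G}

/-- Proof. K = closure R, E with Ix2 K E, r ∈ R ∩ E, r ≠ 1. To find w ∈ Ends R ∩ E. Facts for elements of K: x, y ∉ E → x y ∈ E; x ∉ E → x⁻¹ ∉ E; x ∈ E, y ∉ E
→ x y ∉ E, y x ∉ E; E ⊓ K is normalised by elements of K.
R0 = {r, r⁻¹} if K ≤ C, otherwise {r, r⁻¹} ∪ {s ∈ R | s ∈ C}.
Case A: closure R0 ≠ K. pick' gives R' ⊇ R0, a with the conditions; Good R' by hIH; hext.all gives L. v = L.prod.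
 A1: there are w, w' ∈ Ends R' with w ∈ E, w' ∉ E: then v w or v w' is in E (v ∈ closure R because v w ∈ Ends R ⊆ closure R, ends_sub).
 A2: all w ∈ Ends R' are in E: closure R' ≤ E (Good.gen). If v ∈ E, v w ∈ E, done. If v ∉ E: X of the walk with E' = E ⊓ K gives v a ∈ E, so a ∉ E
   (a ∈ E would give v ∈ E), a a ∈ E. Apply `rot` of Ext with E' = E ⊓ K (closure R' ≠ ⊥ since r ∈ R', r ≠ 1): s ∈ R' with v w a⁻¹ s ∈ Ends R:
   v ∉ E, w ∈ E, a⁻¹ ∉ E, s ∈ E so it is in E.
 A3: all w ∈ Ends R' are ∉ E: contradicts P2 R' (Good.p2) applied to E and r ∈ R' (Ix2.sub).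
Case B: closure R0 = K. If K ≤ C then K = closure {r, r⁻¹} ≤ E, contradicts Ix2. So K ≰ C, and r ∉ C (else K ≤ C). R' = {s ∈ R | s ∈ C}, a = r:
 closure R' ≤ C, so ≠ K and a ∉ closure R'; closure (closure R' ∪ {a}) = K; a ∉ C. Good R', hext.all gives L.
 B1 both types: as A1. B2 all in E: closure R' ≤ E and a = r ∈ E, K ≤ E contradiction.
 B3 all ∉ E: then by P2 R' every s ∈ R', s ≠ 1 is ∉ E. Take w ∈ Ends R'. If v w ∈ E, done. Otherwise v ∈ E (w ∉ E). Apply `rot` with C ⊓ K
   (normalised by a: CD.Cconj'; a a ∈ C: CD.mul; closure R' ≠ ⊥ since w ∉ E so w ≠ 1): s ∈ R', s ≠ 1, v w a⁻¹ s ∈ Ends R: v w ∉ E, a⁻¹ ∈ E, s ∉ E: it is in E. -/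
theorem p2_step [Finite G] (h : CD D C) (hext : ExtS C) {R : Set G} (hR : ∀ x ∈ R, x⁻¹ ∈ R)
    (hIH : IH R) : P2 R := by
  intro E hE r hrR hrE hr1
  obtain ⟨⟨g0, hg0K, hg0E⟩, hE2⟩ := hE
  have hE : Ix2 (Subgroup.closure R) E := ⟨⟨g0, hg0K, hg0E⟩, hE2⟩
  have hRK : ∀ x ∈ R, x ∈ Subgroup.closure R := fun x hx => Subgroup.subset_closure hx
  have ninv : ∀ {x : G}, x ∉ E → x⁻¹ ∉ E := fun {x} hx h => hx (by simpa using E.inv_mem h)
  have ne : ∀ {x y : G}, x ∉ E → y ∈ E → x * y ∉ E := fun {x y} hx hy h => hx (by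
    have e : x = (x * y) * y⁻¹ := by group
    rw [e]; exact E.mul_mem h (E.inv_mem hy))
  have hconj : ∀ k ∈ Subgroup.closure R, ∀ g ∈ E ⊓ Subgroup.closure R,
      k⁻¹ * g * k ∈ E ⊓ Subgroup.closure R := by
    intro k hk g hg
    obtain ⟨hgE, hgK⟩ := Subgroup.mem_inf.1 hg
    refine Subgroup.mem_inf.2 ⟨?_, Subgroup.mul_mem _ (Subgroup.mul_mem _
      (Subgroup.inv_mem _ hk) hgK) hk⟩
    by_cases hkE : k ∈ E
    · exact E.mul_mem (E.mul_mem (E.inv_mem hkE) hgE) hkE
    · exact hE2 _ (Subgroup.mul_mem _ (Subgroup.inv_mem _ hk) hgK) _ hk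
        (ne (ninv hkE) hgE) hkE
  -- the first case of both parts
  have both : ∀ {R' : Set G} {a : G} {L : List G}, R' ⊆ R → Ext C R' R (Ends R') a L →
      (∃ w ∈ Ends R', w ∈ E) → (∃ w ∈ Ends R', w ∉ E) → ∃ w ∈ Ends R, w ∈ E := by
    intro R' a L hsub hL ⟨w, hw, hwE⟩ ⟨w', hw', hwE'⟩
    have hK' : Subgroup.closure R' ≤ Subgroup.closure R := Subgroup.closure_mono hsub
    have hvK : L.prod ∈ Subgroup.closure R := by
      have h1 := ends_sub R (hL.ends w hw)
      have e : L.prod = (L.prod * w) * w⁻¹ := by group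
      rw [e]; exact Subgroup.mul_mem _ h1 (Subgroup.inv_mem _ (hK' (ends_sub R' hw)))
    by_cases hv : L.prod ∈ E
    · exact ⟨_, hL.ends w hw, E.mul_mem hv hwE⟩
    · exact ⟨_, hL.ends w' hw', hE2 _ hvK _ (hK' (ends_sub R' hw')) hv hwE'⟩
  have prodK : ∀ {R' : Set G} {a : G} {L : List G}, R' ⊆ R → Ext C R' R (Ends R') a L →
      ∀ w ∈ Ends R', L.prod ∈ Subgroup.closure R := by
    intro R' a L hsub hL w hw
    have hK' : Subgroup.closure R' ≤ Subgroup.closure R := Subgroup.closure_mono hsub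
    have h1 := ends_sub R (hL.ends w hw)
    have e : L.prod = (L.prod * w) * w⁻¹ := by group
    rw [e]; exact Subgroup.mul_mem _ h1 (Subgroup.inv_mem _ (hK' (ends_sub R' hw)))
  let R0 : Set G := {s | s = r ∨ s = r⁻¹ ∨ (¬ Subgroup.closure R ≤ C ∧ s ∈ R ∧ s ∈ C)}
  have hR0s : ∀ x ∈ R0, x⁻¹ ∈ R0 := by
    rintro x (rfl | rfl | ⟨h1, h2, h3⟩)
    · exact Or.inr (Or.inl rfl)
    · exact Or.inl (inv_inv r)
    · exact Or.inr (Or.inr ⟨h1, hR x h2, C.inv_mem h3⟩)
  have hR0 : R0 ⊆ R := by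
    rintro x (rfl | rfl | ⟨h1, h2, h3⟩)
    · exact hrR
    · exact hR r hrR
    · exact h2
  by_cases hcl0 : Subgroup.closure R0 ≠ Subgroup.closure R
  · -- case A
    have hav : Subgroup.closure R ≤ C ∨ ∀ r ∈ R, r ∈ C → r ∈ R0 := by
      by_cases hKC : Subgroup.closure R ≤ C
      · exact Or.inl hKC
      · exact Or.inr fun x hx hxC => Or.inr (Or.inr ⟨hKC, hx, hxC⟩)
    obtain ⟨R', h1, hsub, hR', hne, a, haR, haH, hcl, hav'⟩ := pick' hR hR0s hR0 hcl0 hav
    have hgood := hIH R' hR' hsub hne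
    obtain ⟨L, hL⟩ := hext.all hR hR' hsub hgood haR haH hcl hav'
    have hrR' : r ∈ R' := h1 (Or.inl rfl)
    have hK' : Subgroup.closure R' ≤ Subgroup.closure R := Subgroup.closure_mono hsub
    by_cases hin : ∃ w ∈ Ends R', w ∈ E
    · by_cases hout : ∃ w ∈ Ends R', w ∉ E
      · exact both hsub hL hin hout
      · push Not at hout
        obtain ⟨w, hw, hwE⟩ := hin
        have hcE : Subgroup.closure R' ≤ E := by
          rw [← hgood.gen, Subgroup.closure_le]
          exact hout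
        have hvK := prodK hsub hL w hw
        by_cases hv : L.prod ∈ E
        · exact ⟨_, hL.ends w hw, E.mul_mem hv hwE⟩
        · have haK := hRK a haR
          have hle : Subgroup.closure R' ≤ E ⊓ Subgroup.closure R := le_inf hcE hK'
          have hX := (Subgroup.mem_inf.1 (hL.wk.X _ hle (hconj a haK))).1
          have haE : a ∉ E := fun haE => hv (by
            have e : L.prod = (L.prod * a) * a⁻¹ := by group
            rw [e]; exact E.mul_mem hX (E.inv_mem haE))
          have haa : a * a ∈ E := hE2 a haK a haK haE haE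
          have hbot : Subgroup.closure R' ≠ ⊥ := by
            intro hb
            have := Subgroup.subset_closure (k := R') hrR'
            rw [hb] at this
            exact hr1 (Subgroup.mem_bot.1 this)
          obtain ⟨s, hs, hs1, hse⟩ := hL.rot _ hle (hconj a haK)
            (fun h => haE (Subgroup.mem_inf.1 h).1)
            (Subgroup.mem_inf.2 ⟨haa, Subgroup.mul_mem _ haK haK⟩) hbot w hw
          refine ⟨_, hse, E.mul_mem (hE2 _ (Subgroup.mul_mem _ hvK (hK' (ends_sub R' hw))) _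
            (Subgroup.inv_mem _ haK) (ne hv hwE) (ninv haE)) (hcE (Subgroup.subset_closure hs))⟩
    · exfalso
      obtain ⟨w, hw⟩ := hgood.ne
      have hwE : w ∉ E := fun hwE => hin ⟨w, hw, hwE⟩
      exact hin (hgood.p2 E (hE.sub hK' ⟨w, ends_sub R' hw, hwE⟩) r hrR' hrE hr1)
  · -- case B
    push Not at hcl0
    have hKC : ¬ Subgroup.closure R ≤ C := by
      intro hKC
      apply hg0E
      have hle : Subgroup.closure R0 ≤ E := by
        rw [Subgroup.closure_le]
        rintro x (rfl | rfl | ⟨h1, h2, h3⟩)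
        · exact hrE
        · exact E.inv_mem hrE
        · exact absurd hKC h1
      rw [hcl0] at hle
      exact hle hg0K
    have hrC : r ∉ C := by
      intro hrC
      apply hKC
      rw [← hcl0, Subgroup.closure_le]
      rintro x (rfl | rfl | ⟨h1, h2, h3⟩)
      · exact hrC
      · exact C.inv_mem hrC
      · exact h3
    let R' : Set G := {s | s ∈ R ∧ s ∈ C}
    have hsub : R' ⊆ R := fun x hx => hx.1
    have hR' : ∀ x ∈ R', x⁻¹ ∈ R' := fun x hx => ⟨hR x hx.1, C.inv_mem hx.2⟩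
    have hcC : Subgroup.closure R' ≤ C := by
      rw [Subgroup.closure_le]
      exact fun x hx => hx.2
    have hne : Subgroup.closure R' ≠ Subgroup.closure R := fun h => hKC (h ▸ hcC)
    have hK' : Subgroup.closure R' ≤ Subgroup.closure R := Subgroup.closure_mono hsub
    have hrH : r ∉ Subgroup.closure R' := fun h => hrC (hcC h)
    have hcl : Subgroup.closure ((Subgroup.closure R' : Set G) ∪ {r}) = Subgroup.closure R := by
      apply le_antisymm
      · rw [Subgroup.closure_le]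
        rintro x (hx | hx)
        · exact hK' hx
        · rw [Set.mem_singleton_iff] at hx
          rw [hx]
          exact hRK r hrR
      · rw [← hcl0, Subgroup.closure_le]
        have hr' : r ∈ Subgroup.closure ((Subgroup.closure R' : Set G) ∪ {r}) :=
          Subgroup.subset_closure (Or.inr rfl)
        rintro x (rfl | rfl | ⟨h1, h2, h3⟩)
        · exact hr'
        · exact Subgroup.inv_mem _ hr'
        · exact Subgroup.subset_closure (Or.inl (Subgroup.subset_closure ⟨h2, h3⟩))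
    have hgood := hIH R' hR' hsub hne
    obtain ⟨L, hL⟩ := hext.all hR hR' hsub hgood hrR hrH hcl (Or.inl hrC)
    have hrK := hRK r hrR
    by_cases hin : ∃ w ∈ Ends R', w ∈ E
    · by_cases hout : ∃ w ∈ Ends R', w ∉ E
      · exact both hsub hL hin hout
      · exfalso
        push Not at hout
        have hcE : Subgroup.closure R' ≤ E := by
          rw [← hgood.gen, Subgroup.closure_le]
          exact hout
        apply hg0E
        have hle : Subgroup.closure ((Subgroup.closure R' : Set G) ∪ {r}) ≤ E := by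
          rw [Subgroup.closure_le]
          rintro x (hx | hx)
          · exact hcE hx
          · rw [Set.mem_singleton_iff] at hx
            rw [hx]
            exact hrE
        rw [hcl] at hle
        exact hle hg0K
    · obtain ⟨w, hw⟩ := hgood.ne
      have hwE : w ∉ E := fun hwE => hin ⟨w, hw, hwE⟩
      have hwH := ends_sub R' hw
      have hvK := prodK hsub hL w hw
      have hsE : ∀ s ∈ R', s ≠ 1 → s ∉ E := fun s hs hs1 hsE =>
        hin (hgood.p2 E (hE.sub hK' ⟨w, hwH, hwE⟩) s hs hsE hs1)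
      by_cases hvw : L.prod * w ∈ E
      · exact ⟨_, hL.ends w hw, hvw⟩
      · have hbot : Subgroup.closure R' ≠ ⊥ := by
          intro hb
          rw [hb] at hwH
          exact hwE (by rw [Subgroup.mem_bot.1 hwH]; exact E.one_mem)
        obtain ⟨s, hs, hs1, hse⟩ := hL.rot (C ⊓ Subgroup.closure R) (le_inf hcC hK')
          (fun g hg => Subgroup.mem_inf.2 ⟨h.Cconj' r (Subgroup.mem_inf.1 hg).1,
            Subgroup.mul_mem _ (Subgroup.mul_mem _ (Subgroup.inv_mem _ hrK)
              (Subgroup.mem_inf.1 hg).2) hrK⟩)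
          (fun h => hrC (Subgroup.mem_inf.1 h).1)
          (Subgroup.mem_inf.2 ⟨h.mul r r hrC hrC, Subgroup.mul_mem _ hrK hrK⟩) hbot w hw
        refine ⟨_, hse, hE2 _ (Subgroup.mul_mem _ (Subgroup.mul_mem _ hvK (hK' hwH))
          (Subgroup.inv_mem _ hrK)) _ (hRK s hs.1) (ne hvw (E.inv_mem hrE)) (hsE s hs hs1)⟩

end Pool.Agent.H268.CI
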