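import Pool.Agent.H268.CI.Defs2

/-! Normal maximal subgroups containing the ends. -/

namespace Pool.Agent.H268.CI

open Pool.Agent.H761J.Ham Pool.Agent.H761J.Nil

variable {G : Type*} [Group G] {D C : Subgroup G}

theorem T12_ends {R₁ R : Set G} (hsub : R₁ ⊆ R)
    (hcl : Subgroup.closure R₁ = Subgroup.closure R) : Ends R₁ ⊆ Ends R := by
  rintro w ⟨l, h1, h2, h3⟩
  exact ⟨l, fun x hx => hsub (h1 x hx), by rw [← hcl]; exact h2, h3⟩

/-- the key step -/
theorem T12_one [Finite G] (hext : ExtS C) {R : Set G}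
    (hIH : IH R) {E : Subgroup G} (hEK : E ≤ Subgroup.closure R)
    (hne : E ≠ Subgroup.closure R)
    (hmax : ∀ E' : Subgroup G, E ≤ E' → E' ≤ Subgroup.closure R → E' = E ∨
      E' = Subgroup.closure R)
    (hend : ∀ w ∈ Ends R, w ∈ E)
    (hnorm : ∀ k ∈ Subgroup.closure R, ∀ g ∈ E, k⁻¹ * g * k ∈ E)
    {R₁ R' : Set G} (hR1 : ∀ x ∈ R₁, x⁻¹ ∈ R₁) (hsub : R₁ ⊆ R)
    (hcl1 : Subgroup.closure R₁ = Subgroup.closure R) (hR' : ∀ x ∈ R', x⁻¹ ∈ R') (hRR : R' ⊆ R₁)
    (hne' : Subgroup.closure R' ≠ Subgroup.closure R₁) {a : G} (ha : a ∈ R₁)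
    (haR' : a ∉ Subgroup.closure R')
    (hcl : Subgroup.closure ((Subgroup.closure R' : Set G) ∪ {a}) = Subgroup.closure R₁)
    (hav : a ∉ C ∨ (a ∈ C ∧ Subgroup.closure R' ≤ C)) :
    Good R' ∧ (∃ L : List G, Ext C R' R₁ (Ends R') a L) ∧ (∀ w ∈ Ends R', w ∉ E) ∧
      Ix2 (Subgroup.closure R) E ∧ a ∈ E := by
  classical
  have hgood : Good R' := hIH R' hR' (hRR.trans hsub) (by rw [← hcl1]; exact hne')
  obtain ⟨L, hL⟩ := hext.all hR1 hR' hRR hgood ha haR' hcl hav
  set K := Subgroup.closure R with hK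
  have haK : a ∈ K := Subgroup.subset_closure (hsub ha)
  have hLE : ∀ w ∈ Ends R', L.prod * w ∈ E := fun w hw =>
    hend _ (T12_ends hsub hcl1 (hL.ends w hw))
  have hR'K : Subgroup.closure R' ≤ K := Subgroup.closure_mono (hRR.trans hsub)
  obtain ⟨w₀, hw₀⟩ := hgood.ne
  have hAB : ¬ Subgroup.closure R' ≤ E := by
    intro hAB
    have h1 := hL.wk.X E hAB (hnorm a haK)
    have h2 := hLE w₀ hw₀
    have h3 : w₀ ∈ E := hAB (ends_sub R' hw₀)
    have h4 : L.prod ∈ E := by
      have : L.prod = L.prod * w₀ * w₀⁻¹ := by group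
      rw [this]; exact E.mul_mem h2 (E.inv_mem h3)
    have haE : a ∈ E := by
      have : a = L.prod⁻¹ * (L.prod * a) := by group
      rw [this]
      exact E.mul_mem (E.inv_mem h4) h1
    apply hne
    apply le_antisymm hEK
    rw [← hcl1, ← hcl, Subgroup.closure_le]
    rintro x (hx | hx)
    · exact hAB hx
    · rw [Set.mem_singleton_iff] at hx
      subst hx; exact haE
  have hwE : ∀ w ∈ Ends R', w ∉ E := by
    intro w hw hwE
    have h4 : L.prod ∈ E := by
      have : L.prod = L.prod * w * w⁻¹ := by group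
      rw [this]; exact E.mul_mem (hLE w hw) (E.inv_mem hwE)
    apply hAB
    rw [← hgood.gen, Subgroup.closure_le]
    intro x hx
    have : x = L.prod⁻¹ * (L.prod * x) := by group
    rw [this]
    exact E.mul_mem (E.inv_mem h4) (hLE x hx)
  have hnorm' : ∀ a ∈ K, ∀ g ∈ E, a * g * a⁻¹ ∈ E := by
    intro a ha g hg
    have := hnorm a⁻¹ (K.inv_mem ha) g hg
    rwa [inv_inv] at this
  obtain ⟨w, hw⟩ := hgood.ne
  have hwK : w ∈ K := hR'K (ends_sub R' hw)
  have hww : w * w ∈ E := by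
    have h1 := hLE w hw
    have h2 := hLE w⁻¹ (ends_inv hR' w hw)
    have : w * w = (L.prod * w⁻¹)⁻¹ * (L.prod * w) := by group
    rw [this]; exact E.mul_mem (E.inv_mem h2) h1
  -- the quotient has order two
  let E' : Subgroup G :=
    { carrier := {g | g ∈ K ∧ (g ∈ E ∨ w * g ∈ E)}
      mul_mem' := by
        rintro p q ⟨hp, hp'⟩ ⟨hq, hq'⟩
        refine ⟨K.mul_mem hp hq, ?_⟩
        rcases hp' with hp' | hp' <;> rcases hq' with hq' | hq'
        · exact Or.inl (E.mul_mem hp' hq')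
        · right
          have : w * (p * q) = (w * p * w⁻¹) * (w * q) := by group
          rw [this]; exact E.mul_mem (hnorm' w hwK p hp') hq'
        · right
          rw [← mul_assoc]; exact E.mul_mem hp' hq'
        · left
          have : p * q = (w⁻¹ * (w * p) * w) * (w * w)⁻¹ * (w * q) := by group
          rw [this]
          exact E.mul_mem (E.mul_mem (hnorm w hwK _ hp') (E.inv_mem hww)) hq'
      one_mem' := ⟨K.one_mem, Or.inl E.one_mem⟩
      inv_mem' := by
        rintro p ⟨hp, hp'⟩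
        refine ⟨K.inv_mem hp, ?_⟩
        rcases hp' with hp' | hp'
        · exact Or.inl (E.inv_mem hp')
        · right
          have : w * p⁻¹ = (w * (w * p)⁻¹ * w⁻¹) * (w * w) := by group
          rw [this]
          exact E.mul_mem (hnorm' w hwK _ (E.inv_mem hp')) hww }
  have hE'K : E' = K := by
    rcases hmax E' (fun g hg => ⟨hEK hg, Or.inl hg⟩) (fun g hg => hg.1) with h | h
    · exfalso
      apply hwE w hw
      have : w⁻¹ ∈ E' := ⟨K.inv_mem hwK, Or.inr (by rw [mul_inv_cancel]; exact E.one_mem)⟩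
      rw [h] at this
      have := E.inv_mem this
      rwa [inv_inv] at this
    · exact h
  have htwo : ∀ g ∈ K, g ∉ E → w * g ∈ E := by
    intro g hg hgE
    have : g ∈ E' := by rw [hE'K]; exact hg
    exact this.2.resolve_left hgE
  have hprod : ∀ p q : G, w * p ∈ E → w * q ∈ E → p * q ∈ E := by
    intro p q hp hq
    have : p * q = (w⁻¹ * (w * p) * w) * (w * w)⁻¹ * (w * q) := by group
    rw [this]
    exact E.mul_mem (E.mul_mem (hnorm w hwK _ hp) (E.inv_mem hww)) hq
  have hwLE : L.prod ∉ E := by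
    intro h
    apply hwE w hw
    have : w = L.prod⁻¹ * (L.prod * w) := by group
    rw [this]
    exact E.mul_mem (E.inv_mem h) (hLE w hw)
  refine ⟨hgood, ⟨L, hL⟩, hwE, ⟨⟨w, hwK, hwE w hw⟩, fun g hg k hk hgE hkE =>
    hprod g k (htwo g hg hgE) (htwo k hk hkE)⟩, ?_⟩
  by_contra haE
  apply hwLE
  apply Subgroup.list_prod_mem
  intro t ht
  obtain ⟨w', hw', ht⟩ := hL.wk.step t ht
  have hw'E : w * w' ∈ E := htwo w' (hR'K (ends_sub R' hw')) (hwE w' hw')
  rcases ht with rfl | rfl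
  · exact hprod _ _ hw'E (htwo a haK haE)
  · exact hprod _ _ hw'E (htwo a⁻¹ (K.inv_mem haK)
      (fun h => haE (by have := E.inv_mem h; rwa [inv_inv] at this)))

/-- Model: the last part of the library theorem `good` (Nil6.lean). Proof. K = closure R.
(1) Let R₁ ⊆ R be symmetric with closure R₁ = K, and R' ⊆ R₁, a ∈ R₁ as given by pick' (for R₁). Good R' (hIH), hext.all (with R₁ in place of R) gives L, v = L.prod;
 Ends R₁ ⊆ Ends R (same closure), so v w ∈ E for all w ∈ Ends R'. If some w ∈ Ends R' is in E then v ∈ E, all of Ends R' is in E, closure R' ≤ E,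
 X gives v a ∈ E, a ∈ E, K ≤ E, contradiction. So all w ∈ Ends R' are ∉ E. And w w = (v w⁻¹)⁻¹ (v w) ∈ E (ends_inv). Then as in the library the
 subgroup {g ∈ K | g ∈ E ∨ w g ∈ E} is K by hmax, so K \ E is one coset: x, y ∈ K, x, y ∉ E → x y ∈ E. v ∈ K.
 If moreover a ∉ E: all steps w' a^(±1) of L are in E, so v ∈ E, contradiction with v w ∈ E, w ∉ E. So a ∈ E.
(2) K ≤ C: R₁ = R, R0 = {r ∈ R | r ∈ E} (closure ≤ E ≠ K); a ∉ E since a ∉ closure R' ⊇ R0: contradiction to (1).
(3) K ≰ C: R₁ = {r ∈ R | r ∈ C ∨ r ∈ E}. If closure R₁ ≠ K: pick' for R with R0 = R₁ (contains all r ∈ R ∩ C): a ∉ R₁ so a ∉ E: contradiction to (1)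
 (with R₁ := R). If closure R₁ = K: pick' for R₁ with R0 = {r ∈ R₁ | r ∈ C} (closure ≤ C so ≠ K). By (1) all w ∈ Ends R' are ∉ E and a ∈ E; a ∉ C because
 a ∉ closure R'. By P2 R' (Ix2 (closure R') E holds by (1)) every s ∈ R' with s ≠ 1 is ∉ E; so s ∈ C (s ∈ R₁), so closure R' ≤ C. Apply `rot` with C ⊓ K
 (CD.Cconj', CD.mul; closure R' ≠ ⊥ because w ∈ Ends R' is ∉ E): s ∈ R', s ≠ 1, v w a⁻¹ s ∈ Ends R₁ ⊆ E; v w ∈ E and a ∈ E give s ∈ E, contradiction. -/
theorem normal_case [Finite G] (h : CD D C) (hext : ExtS C) {R : Set G} (hR : ∀ x ∈ R, x⁻¹ ∈ R)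
    (hIH : IH R) {E : Subgroup G} (hEK : E ≤ Subgroup.closure R)
    (hne : E ≠ Subgroup.closure R)
    (hmax : ∀ E' : Subgroup G, E ≤ E' → E' ≤ Subgroup.closure R → E' = E ∨
      E' = Subgroup.closure R)
    (hend : ∀ w ∈ Ends R, w ∈ E)
    (hnorm : ∀ k ∈ Subgroup.closure R, ∀ g ∈ E, k⁻¹ * g * k ∈ E) : False := by
  classical
  by_cases hKC : Subgroup.closure R ≤ C
  · obtain ⟨R', h1, h2, h3, h4, a, haR, haR', hcl, hav⟩ := pick' (C := C) (R0 := {x ∈ R | x ∈ E}) hR
      (fun x hx => ⟨hR x hx.1, E.inv_mem hx.2⟩) (fun x hx => hx.1) (by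
        intro h
        apply hne
        apply le_antisymm hEK
        rw [← h, Subgroup.closure_le]
        exact fun x hx => hx.2) (Or.inl hKC)
    obtain ⟨-, -, -, -, haE⟩ := T12_one hext hIH hEK hne hmax hend hnorm hR subset_rfl rfl h3 h2 h4
      haR haR' hcl hav
    exact haR' (Subgroup.subset_closure (h1 ⟨haR, haE⟩))
  · by_cases hcl1 : Subgroup.closure {r ∈ R | r ∈ C ∨ r ∈ E} = Subgroup.closure R
    · set R₁ : Set G := {r ∈ R | r ∈ C ∨ r ∈ E} with hR₁
      have hsub : R₁ ⊆ R := fun x hx => hx.1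
      have hsym : ∀ x ∈ R₁, x⁻¹ ∈ R₁ := by
        rintro x ⟨hx, hx'⟩
        refine ⟨hR x hx, ?_⟩
        rcases hx' with hx' | hx'
        · exact Or.inl (C.inv_mem hx')
        · exact Or.inr (E.inv_mem hx')
      obtain ⟨R', h1, h2, h3, h4, a, haR, haR', hcl, hav⟩ := pick' (C := C)
        (R0 := {x ∈ R₁ | x ∈ C}) hsym
        (fun x hx => ⟨hsym x hx.1, C.inv_mem hx.2⟩) (fun x hx => hx.1) (by
          intro h
          apply hKC
          rw [← hcl1, ← h, Subgroup.closure_le]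
          exact fun x hx => hx.2) (Or.inr (fun r hr hrC => ⟨hr, hrC⟩))
      obtain ⟨hgood, ⟨L, hL⟩, hwE, hix, haE⟩ := T12_one hext hIH hEK hne hmax hend hnorm hsym hsub
        hcl1 h3 h2 h4 haR haR' hcl hav
      have haC : a ∉ C := fun haC => haR' (Subgroup.subset_closure (h1 ⟨haR, haC⟩))
      have haK : a ∈ Subgroup.closure R := Subgroup.subset_closure (hsub haR)
      obtain ⟨w, hw⟩ := hgood.ne
      have hR'K : Subgroup.closure R' ≤ Subgroup.closure R := Subgroup.closure_mono (h2.trans hsub)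
      have hix' : Ix2 (Subgroup.closure R') E := hix.sub hR'K ⟨w, ends_sub R' hw, hwE w hw⟩
      have hsE : ∀ s ∈ R', s ≠ 1 → s ∉ E := by
        intro s hs hs1 hsE
        obtain ⟨w', hw', hw'E⟩ := hgood.p2 E hix' s hs hsE hs1
        exact hwE w' hw' hw'E
      have hR'C : Subgroup.closure R' ≤ C := by
        rw [Subgroup.closure_le]
        intro s hs
        by_cases hs1 : s = 1
        · subst hs1; exact C.one_mem
        · exact (h2 hs).2.resolve_right (hsE s hs hs1)
      obtain ⟨s, hs, hs1, hse⟩ := hL.rot (C ⊓ Subgroup.closure R) (le_inf hR'C hR'K)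
        (by
          rintro g ⟨hg, hg'⟩
          exact ⟨h.Cconj' a hg, Subgroup.mul_mem _ (Subgroup.mul_mem _
            (Subgroup.inv_mem _ haK) hg') haK⟩)
        (fun h => haC h.1) ⟨h.mul a a haC haC, Subgroup.mul_mem _ haK haK⟩
        (by
          intro hbot
          have := ends_sub R' hw
          rw [hbot] at this
          have h1 : w = 1 := Subgroup.mem_bot.1 this
          exact hwE w hw (by rw [h1]; exact E.one_mem)) w hw
      apply hsE s hs hs1
      have h5 := hend _ (T12_ends hsub hcl1 hse)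
      have h6 := hend _ (T12_ends hsub hcl1 (hL.ends w hw))
      have : s = a * (L.prod * w)⁻¹ * (L.prod * w * a⁻¹ * s) := by group
      rw [this]
      exact E.mul_mem (E.mul_mem haE (E.inv_mem h6)) h5
    · obtain ⟨R', h1, h2, h3, h4, a, haR, haR', hcl, hav⟩ := pick' (C := C)
        (R0 := {r ∈ R | r ∈ C ∨ r ∈ E}) hR
        (by
          rintro x ⟨hx, hx'⟩
          refine ⟨hR x hx, ?_⟩
          rcases hx' with hx' | hx'
          · exact Or.inl (C.inv_mem hx')
          · exact Or.inr (E.inv_mem hx')) (fun x hx => hx.1) hcl1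
        (Or.inr (fun r hr hrC => ⟨hr, Or.inl hrC⟩))
      obtain ⟨-, -, -, -, haE⟩ := T12_one hext hIH hEK hne hmax hend hnorm hR subset_rfl rfl h3 h2
        h4 haR haR' hcl hav
      exact haR' (Subgroup.subset_closure (h1 ⟨haR, Or.inr haE⟩))

end Pool.Agent.H268.CI
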