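import Pool.Agent.H268.CI.Defs2

/-! Maximal subgroups which are not normal: facts. -/

namespace Pool.Agent.H268.CI

open Pool.Agent.H761J.Ham Pool.Agent.H761J.Nil

variable {G : Type*} [Group G] {D C : Subgroup G}

/-- every element of `K` is `f ^ j * e` -/
theorem T13_dec (h : CD D C) {K E : Subgroup G} (hEK : E ≤ K)
    (hmax : ∀ E' : Subgroup G, E ≤ E' → E' ≤ K → E' = E ∨ E' = K) {f : G} (hf : f ∈ D)
    (hfK : f ∈ K) (hfE : f ∉ E) {k : G} (hk : k ∈ K) :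
    ∃ (j : ℤ) (e : G), e ∈ E ∧ k = f ^ j * e := by
  have h1 := hmax (Subgroup.zpowers f ⊔ E) le_sup_right
    (sup_le (by rw [Subgroup.zpowers_le]; exact hfK) hEK)
  rcases h1 with h1 | h1
  · exfalso
    apply hfE
    rw [← h1]
    exact Subgroup.mem_sup_left (Subgroup.mem_zpowers f)
  · rw [← h1, h.mem_sup_z hf] at hk
    obtain ⟨j, hj⟩ := hk
    exact ⟨j, (f ^ j)⁻¹ * k, hj, by group⟩

/-- Proof. (0) For f ∈ D ⊓ K with f ∉ E: E ⊔ zpowers f = K by hmax, and every k ∈ K is k = e f^j with e ∈ E (`CD.mem_sup_z`-like, zpowers f is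
normal; or define the subgroup {k | ∃ j, k f^j ∈ E}).
(1) D ⊓ K ≰ E: otherwise k⁻¹ g k = g (g⁻¹ k⁻¹ g k) ∈ E for g ∈ E, k ∈ K, against hnorm. Fix y ∈ D ⊓ K, y ∉ E.
(2) notC: if E ≤ C, then y commutes with E and every k = e y^j normalises E: contradiction.
(3) for f ∈ D ⊓ K: f f ∈ E → f ∈ E: otherwise K = E ⟨f⟩ and f normalises E: for g ∈ E ∩ C, f⁻¹ g f = g; for g ∈ E \ C: f⁻¹ g f = g (g⁻¹ f⁻¹ g) f = g f f ∈ E.
(Similarly for f; or k⁻¹ g k with k = e f^j; the powers f^j: f^(2j) ∈ E.) So hnorm is contradicted.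
F3: w ∈ K ∩ C, w w ∈ E: w = e y^j, e = w y^(-j) ∈ C, w w = e e y^(2j), so (y^j)(y^j) ∈ E, y^j ∈ E by (3), w ∈ E.
F4: r ∈ K \ C: r = e y^j, e ∉ C (y^j ∈ C), r r = e y^j e y^j = e e y^(-j) y^j = e e ∈ E.
N0: k = e y^j, g ∈ E ⊓ C: k⁻¹ g k = y^(-j) (e⁻¹ g e) y^j = e⁻¹ g e since e⁻¹ g e ∈ C (CD.Cconj'). -/
theorem nn_facts (h : CD D C) {K E : Subgroup G} (hEK : E ≤ K) (hne : E ≠ K)
    (hmax : ∀ E' : Subgroup G, E ≤ E' → E' ≤ K → E' = E ∨ E' = K)
    (hnorm : ¬ ∀ k ∈ K, ∀ g ∈ E, k⁻¹ * g * k ∈ E) : NN C K E := by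
  -- conjugation of an element of `C`
  have hcj : ∀ f ∈ D, ∀ (j : ℤ) (e g : G), g ∈ C →
      (f ^ j * e)⁻¹ * g * (f ^ j * e) = e⁻¹ * g * e := by
    intro f hf j e g hg
    have h1 := h.cent g hg (f ^ j) (D.zpow_mem hf j)
    calc (f ^ j * e)⁻¹ * g * (f ^ j * e) = e⁻¹ * (f ^ j)⁻¹ * (g * f ^ j) * e := by group
      _ = e⁻¹ * g * e := by rw [h1]; group
  obtain ⟨y, hyD, hyK, hyE⟩ : ∃ y, y ∈ D ∧ y ∈ K ∧ y ∉ E := by
    by_contra hcon
    push Not at hcon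
    apply hnorm
    intro k hk g hg
    have e : k⁻¹ * g * k = g * (g⁻¹ * k⁻¹ * g * k) := by group
    rw [e]
    refine E.mul_mem hg (hcon _ (h.comm g k) ?_)
    exact K.mul_mem (K.mul_mem (K.mul_mem (K.inv_mem (hEK hg)) (K.inv_mem hk)) (hEK hg)) hk
  have h3 : ∀ f ∈ D, f ∈ K → f * f ∈ E → f ∈ E := by
    intro f hf hfK hff
    by_contra hfE
    apply hnorm
    intro k hk g hg
    obtain ⟨j, e, he, rfl⟩ := T13_dec h hEK hmax hf hfK hfE hk
    by_cases hgC : g ∈ C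
    · rw [hcj f hf j e g hgC]
      exact E.mul_mem (E.mul_mem (E.inv_mem he) hg) he
    · have h1 := h.inv g hgC (f ^ j) (D.zpow_mem hf j)
      have h2 : (f ^ j)⁻¹ * g = g * f ^ j := h1.symm
      have h4 : (f ^ j * e)⁻¹ * g * (f ^ j * e) = e⁻¹ * (g * (f * f) ^ j) * e := by
        calc (f ^ j * e)⁻¹ * g * (f ^ j * e) = e⁻¹ * ((f ^ j)⁻¹ * g) * (f ^ j * e) := by group
          _ = e⁻¹ * (g * (f * f) ^ j) * e := by
            rw [h2, (Commute.refl f).mul_zpow]; group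
      rw [h4]
      exact E.mul_mem (E.mul_mem (E.inv_mem he) (E.mul_mem hg (E.zpow_mem hff j))) he
  refine ⟨?_, ?_, ?_, ?_⟩
  · intro w hw hwC hww
    obtain ⟨j, e, he, rfl⟩ := T13_dec h hEK hmax hyD hyK hyE hw
    have hyj : y ^ j ∈ D := D.zpow_mem hyD j
    have heC : e ∈ C := by
      have e1 : e = (y ^ j)⁻¹ * (y ^ j * e) := by group
      rw [e1]; exact C.mul_mem (C.inv_mem (h.le hyj)) hwC
    have h1 := h.cent e heC (y ^ j) hyj
    have h2 : y ^ j * y ^ j = (y ^ j * e * (y ^ j * e)) * (e * e)⁻¹ := by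
      have : y ^ j * e * (y ^ j * e) = y ^ j * (e * y ^ j) * e := by group
      rw [this, h1]; group
    have h4 : y ^ j * y ^ j ∈ E := by
      rw [h2]; exact E.mul_mem hww (E.inv_mem (E.mul_mem he he))
    exact E.mul_mem (h3 _ hyj (K.zpow_mem hyK j) h4) he
  · intro r hr hrC
    obtain ⟨j, e, he, rfl⟩ := T13_dec h hEK hmax hyD hyK hyE hr
    have hyj : y ^ j ∈ D := D.zpow_mem hyD j
    have heC : e ∉ C := fun heC => hrC (C.mul_mem (h.le hyj) heC)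
    have h1 := h.inv e heC (y ^ j) hyj
    have h2 : y ^ j * e * (y ^ j * e) = e * e := by
      have : y ^ j * e * (y ^ j * e) = y ^ j * (e * y ^ j) * e := by group
      rw [this, h1]; group
    rw [h2]; exact E.mul_mem he he
  · intro k hk g hg hgC
    obtain ⟨j, e, he, rfl⟩ := T13_dec h hEK hmax hyD hyK hyE hk
    rw [hcj y hyD j e g hgC]
    exact E.mul_mem (E.mul_mem (E.inv_mem he) hg) he
  · by_contra hcon
    push Not at hcon
    apply hnorm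
    intro k hk g hg
    obtain ⟨j, e, he, rfl⟩ := T13_dec h hEK hmax hyD hyK hyE hk
    rw [hcj y hyD j e g (hcon g hg)]
    exact E.mul_mem (E.mul_mem (E.inv_mem he) hg) he

end Pool.Agent.H268.CI
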