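import Pool.Agent.H268.CI.Defs2

/-! Maximal subgroups which are not normal: three lemmas. -/

namespace Pool.Agent.H268.CI

open Pool.Agent.H761J.Ham Pool.Agent.H761J.Nil

variable {G : Type*} [Group G] {D C : Subgroup G}

/-- Proof. v = L.prod, W = Ends R' (symmetric, generates closure R'). v w ∈ E for w ∈ W (hL.ends, hend). So w⁻¹ w' ∈ E and (ends_inv) w w' ∈ E for w, w' ∈ W.
If some w ∈ W is in C: w w ∈ E so w ∈ E by F3, v ∈ E, W ⊆ E, closure R' ≤ E. Otherwise all w ∈ W are ∉ C: by induction on closure W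
(Subgroup.closure_induction_right or similar), every g ∈ closure W satisfies: (g ∈ C → g ∈ E) and (g ∉ C → ∀ w ∈ W, g * w ∈ E) [then for g ∉ C, w ∈ W: (g w) ∈ E, g w w' = ..:
(g w) ∈ C; for the induction step g → g w: if g ∈ C (so g ∈ E): g w ∉ C and g w w' ∈ E; if g ∉ C: g w ∈ C and g w ∈ E]. -/
theorem lemmaQ [Finite G] (h : CD D C) {R' R : Set G} {E : Subgroup G}
    (hN : NN C (Subgroup.closure R) E) (hR' : ∀ x ∈ R', x⁻¹ ∈ R') (hRR : R' ⊆ R)
    (hg : Good R') {a : G} {L : List G} (hL : Ext C R' R (Ends R') a L)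
    (hend : ∀ w ∈ Ends R, w ∈ E) : ∀ g ∈ Subgroup.closure R', g ∈ C → g ∈ E := by
  have hvE : ∀ w ∈ Ends R', L.prod * w ∈ E := fun w hw => hend _ (hL.ends w hw)
  have hinv := ends_inv hR'
  have hK : ∀ w ∈ Ends R', w ∈ Subgroup.closure R :=
    fun w hw => Subgroup.closure_mono hRR (ends_sub R' hw)
  have hww : ∀ w ∈ Ends R', ∀ w' ∈ Ends R', w * w' ∈ E := by
    intro w hw w' hw'
    have h1 := hvE _ (hinv w hw)
    have h2 := hvE _ hw'
    have e : w * w' = (L.prod * w⁻¹)⁻¹ * (L.prod * w') := by group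
    rw [e]; exact E.mul_mem (E.inv_mem h1) h2
  by_cases hc : ∃ w ∈ Ends R', w ∈ C
  · obtain ⟨w, hw, hwC⟩ := hc
    have hwE : w ∈ E := hN.F3 w (hK w hw) hwC (hww w hw w hw)
    have hW : Ends R' ⊆ (E : Set G) := by
      intro w' hw'
      have e : w' = w⁻¹ * (w * w') := by group
      rw [e]; exact E.mul_mem (E.inv_mem hwE) (hww w hw w' hw')
    intro g hg' _
    rw [← hg.gen] at hg'
    exact (Subgroup.closure_le E).2 hW hg'
  · push Not at hc
    have step : ∀ g w : G, w ∈ Ends R' →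
        ((g ∈ C → g ∈ E) ∧ (g ∉ C → ∀ w ∈ Ends R', g * w ∈ E)) →
        ((g * w ∈ C → g * w ∈ E) ∧ (g * w ∉ C → ∀ w' ∈ Ends R', g * w * w' ∈ E)) := by
      intro g w hw ih
      by_cases hgC : g ∈ C
      · have h1 := ih.1 hgC
        refine ⟨fun hgw => absurd ?_ (hc w hw), fun _ w' hw' => ?_⟩
        · have e : w = g⁻¹ * (g * w) := by group
          rw [e]; exact C.mul_mem (C.inv_mem hgC) hgw
        · rw [mul_assoc]; exact E.mul_mem h1 (hww w hw w' hw')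
      · have h2 := ih.2 hgC
        exact ⟨fun _ => h2 w hw, fun hn => absurd (h.mul g w hgC (hc w hw)) hn⟩
    have key : ∀ g ∈ Subgroup.closure (Ends R'),
        (g ∈ C → g ∈ E) ∧ (g ∉ C → ∀ w ∈ Ends R', g * w ∈ E) := by
      intro g hg'
      induction hg' using Subgroup.closure_induction_right with
      | one => exact ⟨fun _ => E.one_mem, fun h => absurd C.one_mem h⟩
      | mul_right g hg' w hw ih => exact step g w hw ih
      | mul_inv_cancel g hg' w hw ih => exact step g w⁻¹ (hinv w hw) ih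
    intro g hg' hgC
    rw [← hg.gen] at hg'
    exact (key g hg').1 hgC

/-- Proof. By closure induction every g ∈ closure R1 = closure R is in E ⊓ C or r₀⁻¹ g ∈ E ⊓ C (generators r ∈ C: in E by hRC; r ∉ C: r₀⁻¹ r ∈ E ∩ C by hall
and CD.mul; products/inverses: E ⊓ C is normalised by elements of K = closure R (N0; and CD.Cconj'), r₀ r₀ ∈ E (F4), r₀ r₀ ∈ C (CD.mul)).
Take e ∈ E \ C (notC), e ∈ K by hEK: r₀⁻¹ e ∈ E, so r₀ ∈ E, so all r ∈ R1 are in E, closure R1 = K ≤ E, contradiction with hne, hEK. -/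
theorem one_inv (h : CD D C) {R : Set G} {E : Subgroup G}
    (hN : NN C (Subgroup.closure R) E) (hEK : E ≤ Subgroup.closure R)
    (hne : E ≠ Subgroup.closure R) (hRC : ∀ r ∈ R, r ∈ C → r ∈ E) {R1 : Set G} (hR1 : R1 ⊆ R)
    {r₀ : G} (hr₀ : r₀ ∈ R1) (hr₀C : r₀ ∉ C) (hcl : Subgroup.closure R1 = Subgroup.closure R)
    (hall : ∀ r ∈ R1, r ∉ C → r₀⁻¹ * r ∈ E) : False := by
  have hr₀K : r₀ ∈ Subgroup.closure R := Subgroup.subset_closure (hR1 hr₀)
  have hr₀iC : r₀⁻¹ ∉ C := fun hh => hr₀C (by simpa using C.inv_mem hh)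
  have hsqE : r₀ * r₀ ∈ E := hN.F4 r₀ hr₀K hr₀C
  have hsqC : r₀ * r₀ ∈ C := h.mul r₀ r₀ hr₀C hr₀C
  have key : ∀ g ∈ Subgroup.closure R1,
      (g ∈ E ∧ g ∈ C) ∨ (r₀⁻¹ * g ∈ E ∧ r₀⁻¹ * g ∈ C) := by
    intro g hg
    induction hg using Subgroup.closure_induction with
    | mem r hr =>
      by_cases hrC : r ∈ C
      · exact Or.inl ⟨hRC r (hR1 hr) hrC, hrC⟩
      · exact Or.inr ⟨hall r hr hrC, h.mul _ _ hr₀iC hrC⟩
    | one => exact Or.inl ⟨E.one_mem, C.one_mem⟩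
    | mul g g' hg hg' ih ih' =>
      rcases ih with ⟨h1, h2⟩ | ⟨h1, h2⟩
      · rcases ih' with ⟨h3, h4⟩ | ⟨h3, h4⟩
        · exact Or.inl ⟨E.mul_mem h1 h3, C.mul_mem h2 h4⟩
        · refine Or.inr ?_
          have e : r₀⁻¹ * (g * g') = (r₀⁻¹ * g * r₀) * (r₀⁻¹ * g') := by group
          rw [e]
          exact ⟨E.mul_mem (hN.N0 r₀ hr₀K g h1 h2) h3, C.mul_mem (h.Cconj' r₀ h2) h4⟩
      · rcases ih' with ⟨h3, h4⟩ | ⟨h3, h4⟩
        · refine Or.inr ?_
          rw [← mul_assoc]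
          exact ⟨E.mul_mem h1 h3, C.mul_mem h2 h4⟩
        · refine Or.inl ?_
          have e : g * g' = (r₀ * r₀) * (r₀⁻¹ * (r₀⁻¹ * g) * r₀) * (r₀⁻¹ * g') := by group
          rw [e]
          exact ⟨E.mul_mem (E.mul_mem hsqE (hN.N0 r₀ hr₀K _ h1 h2)) h3,
            C.mul_mem (C.mul_mem hsqC (h.Cconj' r₀ h2)) h4⟩
    | inv g hg ih =>
      rcases ih with ⟨h1, h2⟩ | ⟨h1, h2⟩
      · exact Or.inl ⟨E.inv_mem h1, C.inv_mem h2⟩
      · refine Or.inr ?_
        have e : r₀⁻¹ * g⁻¹ = (r₀⁻¹ * (r₀⁻¹ * g)⁻¹ * r₀) * (r₀ * r₀)⁻¹ := by group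
        rw [e]
        exact ⟨E.mul_mem (hN.N0 r₀ hr₀K _ (E.inv_mem h1) (C.inv_mem h2)) (E.inv_mem hsqE),
          C.mul_mem (h.Cconj' r₀ (C.inv_mem h2)) (C.inv_mem hsqC)⟩
  obtain ⟨e, heE, heC⟩ := hN.notC
  have heK : e ∈ Subgroup.closure R1 := by rw [hcl]; exact hEK heE
  have hr₀E : r₀ ∈ E := by
    rcases key e heK with ⟨_, h2⟩ | ⟨h1, _⟩
    · exact absurd h2 heC
    · have e1 : r₀ = e * (r₀⁻¹ * e)⁻¹ := by group
      rw [e1]; exact E.mul_mem heE (E.inv_mem h1)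
  have hle : Subgroup.closure R1 ≤ E := by
    rw [Subgroup.closure_le]
    intro r hr
    by_cases hrC : r ∈ C
    · exact hRC r (hR1 hr) hrC
    · have e1 : r = r₀ * (r₀⁻¹ * r) := by group
      rw [e1]; exact E.mul_mem hr₀E (hall r hr hrC)
  rw [hcl] at hle
  exact hne (le_antisymm hEK hle)

theorem mem_zpowers_iff_mem_range_orderOf' [Finite G] (r g : G) :
    g ∈ Subgroup.zpowers r ↔ ∃ i, i < orderOf r ∧ g = r ^ i := by
  classical
  constructor
  · intro hg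
    rw [← mem_powers_iff_mem_zpowers,
      (isOfFinOrder_of_finite r).mem_powers_iff_mem_range_orderOf] at hg
    simp only [Finset.mem_image, Finset.mem_range] at hg
    obtain ⟨i, hi, he⟩ := hg
    exact ⟨i, hi, he.symm⟩
  · rintro ⟨i, _, rfl⟩
    exact Subgroup.pow_mem _ (Subgroup.mem_zpowers r) i

/-- Proof. m = orderOf r > 0, the list replicate (m-1) r has prefix products r^i, i < m (`mem_pre_replicate`, `pre_replicate_pairwise`
in Ham1.lean with K = ⊥), Cov ⊥ for zpowers r = closure R2, product r^(m-1) = r⁻¹. -/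
theorem cyc_ends [Finite G] {R2 : Set G} {r : G} (hr : r ∈ R2)
    (hcl : Subgroup.closure R2 = Subgroup.zpowers r) : r⁻¹ ∈ Ends R2 := by
  have hm : 0 < orderOf r := orderOf_pos r
  refine ⟨List.replicate (orderOf r - 1) r, ?_, ⟨?_, ?_⟩, ?_⟩
  · intro x hx
    rw [(List.mem_replicate.1 hx).2]; exact hr
  · apply pre_replicate_pairwise
    intro i hi hi' hmem
    rw [Subgroup.mem_bot] at hmem
    exact pow_ne_one_of_lt_orderOf hi.ne' (by omega) hmem
  · intro g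
    rw [hcl]
    constructor
    · intro hg
      obtain ⟨i, hi, hig⟩ := (mem_zpowers_iff_mem_range_orderOf' r g).1 hg
      refine ⟨r ^ i, (mem_pre_replicate r _ _).2 ⟨i, by omega, rfl⟩, ?_⟩
      rw [hig, inv_mul_cancel, Subgroup.mem_bot]
    · rintro ⟨p, hp, hpg⟩
      obtain ⟨i, hi, rfl⟩ := (mem_pre_replicate r _ _).1 hp
      rw [Subgroup.mem_bot] at hpg
      have : g = r ^ i := by rw [← mul_one (r ^ i), ← hpg, mul_inv_cancel_left]
      rw [this]
      exact Subgroup.pow_mem _ (Subgroup.mem_zpowers r) i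
  · rw [List.prod_replicate]
    apply eq_inv_of_mul_eq_one_left
    rw [← pow_succ, Nat.sub_add_cancel hm, pow_orderOf_eq_one]

end Pool.Agent.H268.CI
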