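import Pool.Agent.H268.CI.Defs2

/-! Maximal subgroups which are not normal: two inverting generators. -/

namespace Pool.Agent.H268.CI

open Pool.Agent.H761J.Ham Pool.Agent.H761J.Nil

variable {G : Type*} [Group G] {D C : Subgroup G}

namespace T15

/-- congruence on `K` modulo `N` -/
def Cg (K N : Subgroup G) (x y : G) : Prop := x ∈ K ∧ y ∈ K ∧ x⁻¹ * y ∈ N

theorem Cg.refl {K N : Subgroup G} {x : G} (hx : x ∈ K) : Cg K N x x :=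
  ⟨hx, hx, by rw [inv_mul_cancel]; exact N.one_mem⟩

theorem Cg.mul {K N : Subgroup G} (hn : ∀ k ∈ K, ∀ g ∈ N, k⁻¹ * g * k ∈ N) {x y x' y' : G}
    (h : Cg K N x y) (h' : Cg K N x' y') : Cg K N (x * x') (y * y') := by
  refine ⟨K.mul_mem h.1 h'.1, K.mul_mem h.2.1 h'.2.1, ?_⟩
  have e : (x * x')⁻¹ * (y * y') = (x'⁻¹ * (x⁻¹ * y) * x') * (x'⁻¹ * y') := by group
  rw [e]
  exact N.mul_mem (hn x' h'.1 _ h.2.2) h'.2.2

theorem Cg.pow {K N : Subgroup G} (hn : ∀ k ∈ K, ∀ g ∈ N, k⁻¹ * g * k ∈ N) {x y : G}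
    (h : Cg K N x y) (n : ℕ) : Cg K N (x ^ n) (y ^ n) := by
  induction n with
  | zero => rw [pow_zero, pow_zero]; exact Cg.refl K.one_mem
  | succ n ih => rw [pow_succ, pow_succ]; exact ih.mul hn h

theorem Cg.list {K N : Subgroup G} (hn : ∀ k ∈ K, ∀ g ∈ N, k⁻¹ * g * k ∈ N) {ρ : G}
    (l : List G) (h : ∀ t ∈ l, Cg K N t ρ) : Cg K N l.prod (ρ ^ l.length) := by
  induction l with
  | nil => simpa using Cg.refl K.one_mem
  | cons t l ih =>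
    rw [List.prod_cons, List.length_cons, pow_succ']
    exact (h t (by simp)).mul hn (ih fun s hs => h s (by simp [hs]))

theorem Cg.left {K N : Subgroup G} {x y : G} (h : Cg K N x y) (hx : x ∈ N) : y ∈ N := by
  have e : y = x * (x⁻¹ * y) := by group
  rw [e]
  exact N.mul_mem hx h.2.2

theorem Cg.right {K N : Subgroup G} {x y : G} (h : Cg K N x y) (hy : y ∈ N) : x ∈ N := by
  have e : x = y * (x⁻¹ * y)⁻¹ := by group
  rw [e]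
  exact N.mul_mem hy (N.inv_mem h.2.2)

end T15

open T15

/-- Proof. W = {r₂, r₂⁻¹} ⊆ Ends R2 (hcyc and ends_inv), closure W = zpowers r₂ = closure R2. Apply hext (R2, R, W, a = r₁): L, v = L.prod, v w ∈ E for w ∈ Ends R2.
Let N₀ = E ⊓ C; K = closure R. For x, y ∈ K write x ≡ y if x⁻¹ y ∈ E ⊓ C; this is a congruence on K by N0 (conjugation by k⁻¹ gives k g k⁻¹ ∈ E too) and CD.Cconj'.
By F4 r₁ r₁, r₂ r₂ ∈ E, and ∈ C (CD.mul): r₁⁻¹ ≡ r₁, r₂⁻¹ ≡ r₂. ρ = r₂ r₁ ∈ C. Every step of L is w r₁^(±1) with w ∈ W, so ≡ ρ; v ≡ ρ^(L.length).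
hL.len (closure R2 ≰ C because of r₂): x ∈ W, fw r₁ x ^ (L.length+1) ∈ closure R2 = zpowers r₂ =: r₂^j; it is in D ≤ C, and r₂ ∉ C, so j is even
and r₂^j ∈ E ⊓ C (powers of r₂ r₂). fw r₁ x = x⁻¹ r₁⁻¹ x r₁ ≡ ρ ρ. So ρ^(2 (L.length+1)) ≡ 1, i.e. (ρ^(L.length+1))² ∈ E, and ρ^(L.length+1) ∈ C ∩ K, so by F3
ρ^(L.length+1) ∈ E. v r₂ ≡ ρ^(L.length) r₂ = ρ^(L.length+1) ρ⁻¹ r₂ ≡ ρ⁻¹ r₂ = r₁⁻¹ r₂⁻¹ r₂ = r₁⁻¹; v r₂ ∈ E (r₂ ∈ Ends R2) so r₁⁻¹ ∈ E.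
Suggestion: work in the quotient by the normal subgroup (E ⊓ C).subgroupOf K of ↥K, or define the congruence by hand. -/
theorem two_case [Finite G] (h : CD D C) (hext : ExtS C) {R2 R : Set G} {E : Subgroup G}
    (hN : NN C (Subgroup.closure R) E) (hR : ∀ x ∈ R, x⁻¹ ∈ R)
    (hR2 : ∀ x ∈ R2, x⁻¹ ∈ R2) (hRR : R2 ⊆ R) {r₁ r₂ : G} (hr₁ : r₁ ∈ R) (hr₂ : r₂ ∈ R2)
    (hr₁C : r₁ ∉ C) (hr₂C : r₂ ∉ C) (hcl2 : Subgroup.closure R2 = Subgroup.zpowers r₂)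
    (hcyc : r₂⁻¹ ∈ Ends R2)
    (hr₁H : r₁ ∉ Subgroup.closure R2)
    (hcl : Subgroup.closure ((Subgroup.closure R2 : Set G) ∪ {r₁}) = Subgroup.closure R)
    (hend : ∀ w ∈ Ends R, w ∈ E) : r₁ ∈ E := by
  set K := Subgroup.closure R with hK
  have hr₁K : r₁ ∈ K := Subgroup.subset_closure hr₁
  have hr₂K : r₂ ∈ K := Subgroup.subset_closure (hRR hr₂)
  have hr₂e : r₂ ∈ Ends R2 := by
    have := ends_inv hR2 _ hcyc
    rwa [inv_inv] at this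
  obtain ⟨L, hL⟩ := hext R2 R {r₂, r₂⁻¹} hR hR2 hRR
    (by
      intro w hw
      rcases hw with rfl | hw
      · exact hr₂e
      · rw [Set.mem_singleton_iff] at hw; rw [hw]; exact hcyc)
    (by
      intro w hw
      rcases hw with rfl | hw
      · right; rfl
      · rw [Set.mem_singleton_iff] at hw; rw [hw, inv_inv]; left; rfl)
    ⟨r₂, Or.inl rfl⟩
    (by
      rw [hcl2]
      apply le_antisymm
      · rw [Subgroup.closure_le]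
        intro w hw
        rcases hw with rfl | hw
        · exact Subgroup.mem_zpowers w
        · rw [Set.mem_singleton_iff] at hw
          rw [hw]
          exact Subgroup.inv_mem _ (Subgroup.mem_zpowers r₂)
      · rw [Subgroup.zpowers_le]
        exact Subgroup.subset_closure (Or.inl rfl))
    r₁ hr₁ hr₁H hcl (Or.inl hr₁C)
  -- the congruence
  have hn : ∀ k ∈ K, ∀ g ∈ E ⊓ C, k⁻¹ * g * k ∈ E ⊓ C := fun k hk g hg =>
    ⟨hN.N0 k hk g hg.1 hg.2, h.Cconj' k hg.2⟩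
  have h11 : r₁ * r₁ ∈ E ⊓ C := ⟨hN.F4 r₁ hr₁K hr₁C, h.mul _ _ hr₁C hr₁C⟩
  have h22 : r₂ * r₂ ∈ E ⊓ C := ⟨hN.F4 r₂ hr₂K hr₂C, h.mul _ _ hr₂C hr₂C⟩
  have c1 : Cg K (E ⊓ C) r₁ r₁ := Cg.refl hr₁K
  have c2 : Cg K (E ⊓ C) r₂ r₂ := Cg.refl hr₂K
  have c1' : Cg K (E ⊓ C) r₁⁻¹ r₁ := ⟨K.inv_mem hr₁K, hr₁K, by rw [inv_inv]; exact h11⟩
  have c2' : Cg K (E ⊓ C) r₂⁻¹ r₂ := ⟨K.inv_mem hr₂K, hr₂K, by rw [inv_inv]; exact h22⟩
  have hW : ∀ w ∈ ({r₂, r₂⁻¹} : Set G), Cg K (E ⊓ C) w r₂ ∧ Cg K (E ⊓ C) w⁻¹ r₂ := by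
    intro w hw
    rcases hw with rfl | hw
    · exact ⟨c2, c2'⟩
    · rw [Set.mem_singleton_iff] at hw
      rw [hw, inv_inv]
      exact ⟨c2', c2⟩
  have hρC : r₂ * r₁ ∈ C := h.mul _ _ hr₂C hr₁C
  have hstep : ∀ t ∈ L, Cg K (E ⊓ C) t (r₂ * r₁) := by
    intro t ht
    obtain ⟨w, hw, rfl | rfl⟩ := hL.wk.step t ht
    · exact (hW w hw).1.mul hn c1
    · exact (hW w hw).1.mul hn c1'
  have hprod := Cg.list hn L hstep
  -- the power of the commutator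
  obtain ⟨x, hx, -, hlen⟩ := hL.len fun hle =>
    hr₂C (hle (Subgroup.subset_closure hr₂))
  rw [hcl2] at hlen
  obtain ⟨j, hj⟩ := Subgroup.mem_zpowers_iff.1 hlen
  have hjC : r₂ ^ j ∈ C := by
    rw [hj]
    exact C.pow_mem (h.le (fw_mem h r₁ x)) _
  have hjN : r₂ ^ j ∈ E ⊓ C := by
    rcases Int.even_or_odd' j with ⟨i, hi | hi⟩
    · rw [hi, zpow_mul, zpow_two]
      exact Subgroup.zpow_mem _ h22 i
    · exfalso
      apply hr₂C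
      have e : r₂ = ((r₂ * r₂) ^ i)⁻¹ * r₂ ^ j := by
        rw [hi, zpow_add, zpow_mul, zpow_two, zpow_one, inv_mul_cancel_left]
      rw [e]
      exact C.mul_mem (C.inv_mem (C.zpow_mem h22.2 i)) hjC
  rw [hj] at hjN
  have hfw : Cg K (E ⊓ C) (fw r₁ x) ((r₂ * r₁) * (r₂ * r₁)) := by
    have := (((hW x hx).2.mul hn c1').mul hn (hW x hx).1).mul hn c1
    have e : (r₂ * r₁) * (r₂ * r₁) = r₂ * r₁ * r₂ * r₁ := by group
    rw [e]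
    exact this
  have hpow := (hfw.pow hn (L.length + 1)).left hjN
  have e1 : ((r₂ * r₁) * (r₂ * r₁)) ^ (L.length + 1) =
      (r₂ * r₁) ^ (L.length + 1) * (r₂ * r₁) ^ (L.length + 1) := by
    rw [← pow_two, ← pow_mul, ← pow_add]
    congr 1
    omega
  rw [e1] at hpow
  have hρK : r₂ * r₁ ∈ K := K.mul_mem hr₂K hr₁K
  have hρE : (r₂ * r₁) ^ (L.length + 1) ∈ E :=
    hN.F3 _ (K.pow_mem hρK _) (C.pow_mem hρC _) hpow.1
  have hρN : (r₂ * r₁) ^ (L.length + 1) ∈ E ⊓ C := ⟨hρE, C.pow_mem hρC _⟩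
  -- the end
  have hfin : Cg K (E ⊓ C) (L.prod * (r₂ * r₁)) ((r₂ * r₁) ^ (L.length + 1)) := by
    rw [pow_succ]
    exact hprod.mul hn (Cg.refl hρK)
  have h1 : L.prod * (r₂ * r₁) ∈ E := (hfin.right hρN).1
  have h2 : L.prod * r₂ ∈ E := hend _ (hL.ends r₂ hr₂e)
  have e2 : r₁ = (L.prod * r₂)⁻¹ * (L.prod * (r₂ * r₁)) := by group
  rw [e2]
  exact E.mul_mem (E.inv_mem h2) h1

end Pool.Agent.H268.CI
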