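import Pool.Agent.H268.CI.Defs2

/-! Concatenation of Hamiltonian paths in cosets, with the positions of the connecting steps. Rotation. -/

namespace Pool.Agent.H268.CI

open Pool.Agent.H761J.Ham Pool.Agent.H761J.Nil

variable {G : Type*} [Group G]

/-- Proof: induction on L as in the library lemma `Pool.Agent.H761J.Ham.tower` (Ham1.lean): L = [] : l' = τ, all steps in R'.
L = t :: L: l' = l ++ s :: l₂' with (l, s) chosen for t and l₂' from the induction hypothesis. For the last claim: if
l ++ s :: l₂' = l₁ ++ s' :: l₂ then (List.append_eq_append_iff or `List.append_eq_cons_iff`..) s' is in l (in R'), or it is this s (then L₁ = [],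
l₁ = l, L₁.prod⁻¹ * l₁.prod = l.prod ∈ H because of Cov.prod_mem, l₂ = l₂' which ends with τ: you need in the induction also
l' = l₃ ++ τ for some l₃), or it is in l₂' (induction hypothesis; L₁ := t :: L₁, l₁ = l ++ s :: l₁', products t⁻¹.. cancel since t = l.prod * s). -/
theorem tower2 : TowerS G := by
  intro H R' T Q τ hτ hτR L
  suffices h : (∀ t ∈ L, ∃ l s, Cov ⊥ l (H : Set G) ∧ (∀ x ∈ l, x ∈ R') ∧ s ∈ T ∧
      t = l.prod * s ∧ Q t s) →
    (pre L).Pairwise (fun p q => p⁻¹ * q ∉ H) →
    ∃ l' : List G, (∀ x ∈ l', x ∈ R' ∨ x ∈ T) ∧ Cov ⊥ l' {g | ∃ p ∈ pre L, p⁻¹ * g ∈ H} ∧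
      l'.prod = L.prod * τ.prod ∧ (∃ l₃, l' = l₃ ++ τ) ∧
      (∀ l₁ s l₂, l' = l₁ ++ s :: l₂ → s ∈ R' ∨ (∃ L₁ t L₂, L = L₁ ++ t :: L₂ ∧
        L₁.prod⁻¹ * l₁.prod ∈ H ∧ Q t s ∧ ∃ l₃, l₂ = l₃ ++ τ)) by
    intro hL hd
    obtain ⟨l', h1, h2, h3, _, h5⟩ := h hL hd
    exact ⟨l', h1, h2, h3, h5⟩
  induction L with
  | nil =>
    intro _ _
    refine ⟨τ, fun x hx => Or.inl (hτR x hx), hτ.congr ?_, by simp, ⟨[], rfl⟩, ?_⟩
    · intro g
      simp [pre]
    · intro l₁ s l₂ e
      left
      exact hτR s (by rw [e]; simp)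
  | cons t L ih =>
    intro hL hd
    have hd' := hd
    simp only [pre, List.pairwise_cons, List.pairwise_map, List.mem_map] at hd'
    obtain ⟨hd1, hd2⟩ := hd'
    obtain ⟨l2, h2T, h2, h2p, ⟨l₀, hl₀⟩, h2e⟩ := ih (fun t ht => hL t (List.mem_cons_of_mem _ ht))
      (hd2.imp (fun {p q} h hpq => h (by
        have e : (t * p)⁻¹ * (t * q) = p⁻¹ * q := by group
        rw [e]; exact hpq)))
    obtain ⟨l, s, hl, hlR, hs, ht, hQ⟩ := hL t List.mem_cons_self
    have hcross : ∀ g ∈ (H : Set G), (l.prod * s)⁻¹ * g ∉ {g | ∃ p ∈ pre L, p⁻¹ * g ∈ H} := by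
      rintro g hg ⟨p, hp, hpg⟩
      apply hd1 _ ⟨p, hp, rfl⟩
      rw [ht]
      have e : (1 : G)⁻¹ * (l.prod * s * p) = g * (p⁻¹ * ((l.prod * s)⁻¹ * g))⁻¹ := by group
      rw [e]
      exact H.mul_mem hg (H.inv_mem hpg)
    refine ⟨l ++ s :: l2, ?_, ?_, ?_, ⟨l ++ s :: l₀, by rw [hl₀]; simp⟩, ?_⟩
    · intro x hx
      rw [List.mem_append, List.mem_cons] at hx
      rcases hx with hx | rfl | hx
      · exact Or.inl (hlR x hx)
      · exact Or.inr hs
      · exact h2T x hx
    · refine (cov_concat (s := s) hl h2 hcross).congr ?_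
      intro g
      simp only [pre, Set.mem_ofPred_eq, List.mem_cons, List.mem_map]
      constructor
      · rintro ⟨p, rfl | ⟨q, hq, rfl⟩, hp⟩
        · left; simpa using hp
        · right
          refine ⟨q, hq, ?_⟩
          have e : (t * q)⁻¹ * g = q⁻¹ * ((l.prod * s)⁻¹ * g) := by rw [ht]; group
          rw [← e]; exact hp
      · rintro (hg | ⟨q, hq, hg⟩)
        · exact ⟨1, Or.inl rfl, by simpa using hg⟩
        · refine ⟨_, Or.inr ⟨q, hq, rfl⟩, ?_⟩
          have e : (t * q)⁻¹ * g = q⁻¹ * ((l.prod * s)⁻¹ * g) := by rw [ht]; group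
          rw [e]; exact hg
    · rw [List.prod_append, List.prod_cons, h2p, List.prod_cons, ht]
      group
    · -- the step `s` itself
      have hself : ∀ l₂ : List G, l₂ = l2 → (∃ L₁ t' L₂, t :: L = L₁ ++ t' :: L₂ ∧
          L₁.prod⁻¹ * l.prod ∈ H ∧ Q t' s ∧ ∃ l₃, l₂ = l₃ ++ τ) := by
        rintro l₂ rfl
        refine ⟨[], t, L, rfl, ?_, hQ, l₀, hl₀⟩
        simpa using (hl.prod_mem : l.prod ∈ (H : Set G))
      intro l₁ s' l₂ e
      rcases List.append_eq_append_iff.1 e with ⟨a', e1, e2⟩ | ⟨c', e1, e2⟩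
      · cases a' with
        | nil =>
          simp only [List.nil_append, List.cons.injEq] at e2
          obtain ⟨rfl, e3⟩ := e2
          rw [List.append_nil] at e1
          subst e1
          exact Or.inr (hself l₂ e3.symm)
        | cons b a'' =>
          simp only [List.cons_append, List.cons.injEq] at e2
          obtain ⟨rfl, e3⟩ := e2
          rcases h2e a'' s' l₂ e3 with h | ⟨L₁, t', L₂, f1, f2, f3, f4⟩
          · exact Or.inl h
          · right
            refine ⟨t :: L₁, t', L₂, by rw [f1]; rfl, ?_, f3, f4⟩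
            rw [e1, List.prod_cons, List.prod_append, List.prod_cons, ht]
            have e4 : (l.prod * s * L₁.prod)⁻¹ * (l.prod * (s * a''.prod)) = L₁.prod⁻¹ * a''.prod := by group
            rw [e4]; exact f2
      · cases c' with
        | nil =>
          simp only [List.nil_append, List.cons.injEq] at e2
          obtain ⟨rfl, e3⟩ := e2
          rw [List.append_nil] at e1
          subst e1
          exact Or.inr (hself l₂ e3)
        | cons c c'' =>
          simp only [List.cons_append, List.cons.injEq] at e2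
          obtain ⟨rfl, e3⟩ := e2
          left
          exact hlR _ (by rw [e1]; simp)

private theorem pre_rev (l : List G) :
    pre ((l.map (·⁻¹)).reverse) = ((pre l).map (fun x => l.prod⁻¹ * x)).reverse := by
  induction l with
  | nil => simp [pre]
  | cons a l ih =>
    rw [List.map_cons, List.reverse_cons]
    rw [pre_append, ih]
    have hp : ((l.map (·⁻¹)).reverse).prod = l.prod⁻¹ := by
      rw [List.prod_inv_reverse]
    rw [hp]
    simp only [pre, List.map_cons, List.map_nil, List.map_map, List.reverse_cons, List.prod_cons]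
    congr 1
    · congr 1
      apply List.map_congr_left
      intro x _
      simp only [Function.comp_apply]
      group
    · simp

private theorem cov_bot (l : List G) (S : Set G) :
    Cov ⊥ l S ↔ (pre l).Nodup ∧ ∀ g, g ∈ S ↔ g ∈ pre l := by
  have h1 : ∀ p q : G, p⁻¹ * q ∈ (⊥ : Subgroup G) ↔ p = q := by
    intro p q
    rw [Subgroup.mem_bot, inv_mul_eq_one]
  constructor
  · rintro ⟨h, h'⟩
    refine ⟨h.imp (fun {p q} hpq e => hpq ((h1 p q).2 e)), fun g => ?_⟩
    rw [h']
    constructor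
    · rintro ⟨p, hp, hpg⟩
      rw [← (h1 p g).1 hpg]; exact hp
    · intro hg
      exact ⟨g, hg, (h1 g g).2 rfl⟩
  · rintro ⟨h, h'⟩
    refine ⟨h.imp (fun {p q} hpq e => hpq ((h1 p q).1 e)), fun g => ?_⟩
    rw [h']
    constructor
    · intro hg
      exact ⟨g, hg, (h1 g g).2 rfl⟩
    · rintro ⟨p, hp, hpg⟩
      rw [← (h1 p g).1 hpg]; exact hp

/-- Proof: pre (l₁ ++ a :: l₂⁻¹ reversed) = pre l₁ ++ (pre (l₂ reversed inverse)).map (l₁.prod a · ), and
pre ((l₂.map (·⁻¹)).reverse) = ((pre l₂).map (l₂.prod⁻¹ * ·)).reverse (see `key` in `reverse_cov`, Ham2.lean; prove this identity by induction),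
l₁.prod a = l₁.prod s l₂.prod by hypothesis (cancel). So the new list of prefix products is a permutation of the old one:
(List.Perm), membership and pairwise distinctness (Cov ⊥: p⁻¹ q ∉ ⊥ iff p ≠ q, i.e. List.Nodup) carry over. -/
theorem rot : RotS G := by
  intro l₁ l₂ s a S hc hp
  have ha : a = s * l₂.prod := by
    rw [List.prod_append, List.prod_cons] at hp
    exact (mul_left_cancel hp).symm
  have hperm : (pre (l₁ ++ a :: (l₂.map (·⁻¹)).reverse)).Perm (pre (l₁ ++ s :: l₂)) := by
    rw [pre_append, pre_append, pre_rev]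
    apply List.Perm.append_left
    rw [List.map_reverse, List.map_map]
    refine (List.reverse_perm _).trans ?_
    have e : ((fun x => l₁.prod * a * x) ∘ fun x => l₂.prod⁻¹ * x) = fun x : G => l₁.prod * s * x := by
      funext x
      simp only [Function.comp_apply, ha]
      group
    rw [e]
  constructor
  · rw [cov_bot] at hc ⊢
    refine ⟨(hperm.nodup_iff).2 hc.1, fun g => ?_⟩
    rw [hc.2, hperm.mem_iff]
  · have hq : ((l₂.map (·⁻¹)).reverse).prod = l₂.prod⁻¹ := by
      rw [List.prod_inv_reverse]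
    rw [List.prod_append, List.prod_cons, hq, ha]
    group

end Pool.Agent.H268.CI
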