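import Pool.Agent.H268.CI.Defs2

/-! The extension theorem. -/

namespace Pool.Agent.H268.CI

open Pool.Agent.H761J.Ham Pool.Agent.H761J.Nil

variable {G : Type*} [Group G] {D C : Subgroup G}

namespace T9

theorem mem_pre {l : List G} {p : G} (hp : p ∈ pre l) : ∃ l₁ l₂, l = l₁ ++ l₂ ∧ p = l₁.prod := by
  obtain ⟨k, hk, rfl⟩ := List.getElem_of_mem hp
  exact ⟨l.take k, l.drop k, (List.take_append_drop k l).symm, pre_getElem l k hk⟩

theorem dis_step {l₁ l₂ : List G} {s : G} {S : Set G} (h : Cov ⊥ (l₁ ++ s :: l₂) S) : s ≠ 1 := by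
  rintro rfl
  have h1 := h.dis
  rw [pre_append, List.pairwise_append] at h1
  refine h1.2.2 l₁.prod (prod_mem_pre l₁) _ (List.mem_map.2 ⟨1, one_mem_pre l₂, rfl⟩) ?_
  rw [Subgroup.mem_bot]
  group

theorem dis_tail {l₁ l₂ : List G} {s : G} {S : Set G} (h : Cov ⊥ (l₁ ++ s :: l₂) S)
    (h2 : l₂ ≠ []) : l₂.prod ≠ 1 := by
  intro h3
  have h1 := h.dis
  rw [pre_append, List.pairwise_append] at h1
  obtain ⟨b, l, rfl⟩ := List.exists_cons_of_ne_nil h2
  have h4 := h1.2.1
  rw [List.pairwise_map] at h4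
  simp only [pre, List.pairwise_cons] at h4
  refine h4.1 (b * l.prod) (List.mem_map.2 ⟨l.prod, prod_mem_pre l, rfl⟩) ?_
  rw [List.prod_cons] at h3
  rw [Subgroup.mem_bot, h3]
  group

theorem cov_ne_nil {τ : List G} {H : Subgroup G} (h : Cov ⊥ τ (H : Set G)) (hH : H ≠ ⊥) :
    τ ≠ [] := by
  rintro rfl
  apply hH
  rw [Subgroup.eq_bot_iff_forall]
  intro x hx
  obtain ⟨p, hp, h1⟩ := (h.cov x).1 hx
  simp only [pre, List.mem_singleton] at hp
  subst hp
  simpa using h1

end T9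

/-- Model: library `Pool.Agent.H761J.Nil.extend` (Nil6.lean). Proof. H = closure R'. Take L from hwalk (H, W, a). For w ∈ Ends R',
w = τ.prod with τ a Hamiltonian path of H. Apply htower with T = {a, a⁻¹}, Q t s := (∃ w' ∈ W, t = w' * a) → s = a: for t ∈ L choose
w' ∈ W with t = w' * a if possible and s = a, else t = w' * a⁻¹ and s = a⁻¹; l = a Hamiltonian path with end w' (W ⊆ Ends R').
(W ⊆ Ends R' ⊆ H.) This gives l' with steps in R, Cov ⊥ l' (closure R) (use the Cov of L and hcl), l'.prod = L.prod * w: `ends`.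
`len` is the third conclusion of hwalk.
`rot`: let E be as in the statement, H ≠ ⊥, v = L.prod * w = l'.prod. L.prod * a ∈ E (X), w ∈ H ≤ E. v a⁻¹ = (L.prod a)(a⁻¹ w a)(a a)⁻¹ ∈ E.
v a⁻¹ ∈ closure R, so v a⁻¹ ∈ pre l' (Cov ⊥), v a⁻¹ = l₁.prod with l' = l₁ ++ l₂' (take; `pre_getElem`); l₂' ≠ [] because v a⁻¹ ≠ v (a ≠ 1 as a ∉ H),
so l' = l₁ ++ s :: l₂. By the last conclusion of htower: s ∈ R' or (L = L₁ ++ t :: L₂, L₁.prod⁻¹ l₁.prod ∈ H, Q t s, l₂ = l₃ ++ τ). In the second case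
L₁.prod ∈ E (as l₁.prod = v a⁻¹ ∈ E, H ≤ E), so EV (evr_split, p = 1) gives t = w' * a for some w' ∈ W, hence s = a, so
l₁.prod * s = v = l'.prod = l₁.prod * s * l₂.prod, and l₂ ≠ [] because τ ≠ [] (H ≠ ⊥: if τ = [] then Cov ⊥ [] H says H = {1}): two different positions
of l' with the same prefix product contradict Cov ⊥ (prefix products pairwise different). So s ∈ R'; s ≠ 1 since otherwise the prefix products
l₁.prod and l₁.prod * s coincide. hrot (l'.prod = v = l₁.prod * a) gives a Hamiltonian path with steps in R (R symmetric) and end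
l₁.prod * s = v a⁻¹ s. -/
theorem ext_thm [Finite G] (h : CD D C) (hwalk : WalkS C) (htower : TowerS G) (hrot : RotS G) :
    ExtS C := by
  classical
  intro R' R W hR hR' hRR hWE hWi hW0 hWg a ha haH hcl hav
  obtain ⟨L, hL, hLc, hLlen⟩ := hwalk (Subgroup.closure R') W hWi hW0 hWg a haH hav
  have key : ∀ w ∈ Ends R', ∃ l' τ : List G, (∀ x ∈ l', x ∈ R) ∧
      Cov ⊥ l' (Subgroup.closure R : Set G) ∧ l'.prod = L.prod * w ∧
      Cov ⊥ τ (Subgroup.closure R' : Set G) ∧
      (∀ l₁ s l₂, l' = l₁ ++ s :: l₂ → s ∈ R' ∨ (∃ L₁ t L₂, L = L₁ ++ t :: L₂ ∧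
        L₁.prod⁻¹ * l₁.prod ∈ Subgroup.closure R' ∧ ((∃ w' ∈ W, t = w' * a) → s = a) ∧
        ∃ l₃, l₂ = l₃ ++ τ)) := by
    rintro w ⟨τ, hτR, hτ, rfl⟩
    obtain ⟨l', h1, h2, h3, h4⟩ := htower (Subgroup.closure R') R' {a, a⁻¹}
      (fun t s => (∃ w' ∈ W, t = w' * a) → s = a) τ hτ hτR L (by
        intro t ht
        by_cases h5 : ∃ w' ∈ W, t = w' * a
        · obtain ⟨w', hw', rfl⟩ := h5
          obtain ⟨l, hlR, hl, rfl⟩ := hWE hw'
          exact ⟨l, a, hl, hlR, by simp, rfl, fun _ => rfl⟩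
        · obtain ⟨w', hw', ht'⟩ := hL.step t ht
          rcases ht' with ht' | ht'
          · exact absurd ⟨w', hw', ht'⟩ h5
          · subst ht'
            obtain ⟨l, hlR, hl, rfl⟩ := hWE hw'
            exact ⟨l, a⁻¹, hl, hlR, by simp, rfl, fun h6 => absurd h6 h5⟩) hLc.dis
    refine ⟨l', τ, ?_, h2.congr ?_, h3, hτ, h4⟩
    · intro x hx
      rcases h1 x hx with h5 | h5
      · exact hRR h5
      · rcases h5 with rfl | h5
        · exact ha
        · rw [Set.mem_singleton_iff] at h5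
          subst h5
          exact hR _ ha
    · intro g
      rw [← hcl, hLc.cov]
      rfl
  refine ⟨L, hL, ?_, hLlen, ?_⟩
  · intro w hw
    obtain ⟨l', τ, h1, h2, h3, -, -⟩ := key w hw
    exact ⟨l', h1, h2, h3⟩
  · intro E hHE hconj haE haaE hHne w hw
    obtain ⟨l', τ, h1, h2, h3, hτ, h4⟩ := key w hw
    have hwH : w ∈ Subgroup.closure R' := ends_sub R' hw
    have hvE : L.prod * w * a⁻¹ ∈ E := by
      have e1 : L.prod * w * a⁻¹ = (L.prod * a) * (a⁻¹ * w * a) * (a * a)⁻¹ := by group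
      rw [e1]
      exact E.mul_mem (E.mul_mem (hL.X E hHE hconj) (hconj w (hHE hwH))) (E.inv_mem haaE)
    have haR : a ∈ Subgroup.closure R := Subgroup.subset_closure ha
    have hvR : L.prod * w * a⁻¹ ∈ Subgroup.closure R := by
      have h5 : L.prod * w ∈ Subgroup.closure R := by
        rw [← h3]
        exact h2.prod_mem
      exact Subgroup.mul_mem _ h5 (Subgroup.inv_mem _ haR)
    obtain ⟨p, hp, hpv⟩ := (h2.cov _).1 hvR
    rw [Subgroup.mem_bot, inv_mul_eq_one] at hpv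
    obtain ⟨l₁, l₂', hl, hpl⟩ := T9.mem_pre hp
    have hl1 : l₁.prod = L.prod * w * a⁻¹ := by rw [← hpl, hpv]
    have hne : l₂' ≠ [] := by
      rintro rfl
      rw [List.append_nil] at hl
      rw [hl, hl1] at h3
      apply haH
      have e1 : a = 1 := by
        have : L.prod * w * a⁻¹ = L.prod * w * 1 := by rw [h3, mul_one]
        have := mul_left_cancel this
        exact inv_eq_one.1 this
      rw [e1]
      exact Subgroup.one_mem _
    obtain ⟨s, l₂, rfl⟩ := List.exists_cons_of_ne_nil hne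
    have hla : (l₁ ++ s :: l₂).prod = l₁.prod * a := by
      rw [← hl, h3, hl1]
      group
    have hc := h2
    rw [hl] at hc
    rcases h4 l₁ s l₂ hl with hs | ⟨L₁, t, L₂, hL', hLl, hQ, l₃, hl3⟩
    · refine ⟨s, hs, T9.dis_step hc, ?_⟩
      obtain ⟨h5, h6⟩ := hrot l₁ l₂ s a _ hc hla
      refine ⟨_, ?_, h5, ?_⟩
      · intro x hx
        rw [List.mem_append, List.mem_cons, List.mem_reverse, List.mem_map] at hx
        rcases hx with hx | rfl | ⟨y, hy, rfl⟩
        · exact h1 x (by rw [hl]; exact List.mem_append_left _ hx)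
        · exact ha
        · apply hR
          exact h1 y (by rw [hl]; exact List.mem_append_right _ (List.mem_cons_of_mem _ hy))
      · rw [h6, hl1]
    · exfalso
      have hLE : L₁.prod ∈ E := by
        have e1 : L₁.prod = l₁.prod * (L₁.prod⁻¹ * l₁.prod)⁻¹ := by group
        rw [e1, hl1]
        rw [hl1] at hLl
        exact E.mul_mem hvE (E.inv_mem (hHE hLl))
      have h5 := evr_split (hL.EV E hHE hconj haE haaE) hL' (by rw [one_mul]; exact hLE)
      have h6 : s = a := hQ h5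
      subst h6
      have h7 : l₂ ≠ [] := by
        rw [hl3]
        intro h8
        exact T9.cov_ne_nil hτ hHne (List.append_eq_nil_iff.1 h8).2
      apply T9.dis_tail hc h7
      rw [List.prod_append, List.prod_cons, ← mul_assoc] at hla
      exact mul_eq_left.1 hla

end Pool.Agent.H268.CI
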