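import Pool.Agent.H268.CI.T8
import Pool.Agent.H268.CI.T6
import Pool.Agent.H268.CI.T9
import Pool.Agent.H268.CI.T11
import Pool.Agent.H268.CI.T12
import Pool.Agent.H268.CI.T13
import Pool.Agent.H268.CI.T14
import Pool.Agent.H268.CI.T15

/-! The induction. -/

namespace Pool.Agent.H268.CI

open Pool.Agent.H761J.Ham Pool.Agent.H761J.Nil

variable {G : Type*} [Group G] {D C : Subgroup G}

theorem ends_nonempty [Finite G] (hext : ExtS C) {R : Set G}
    (hR : ∀ x ∈ R, x⁻¹ ∈ R) (hIH : IH R) : (Ends R).Nonempty := by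
  by_cases hbot : Subgroup.closure R = ⊥
  · refine ⟨1, [], by simp, ?_, rfl⟩
    rw [hbot]
    exact cov_nil ⊥
  · obtain ⟨R', -, h2, h3, h4, a, haR, haH, hcl, hav⟩ : ∃ R' : Set G, (∅ : Set G) ⊆ R' ∧ R' ⊆ R ∧
        (∀ x ∈ R', x⁻¹ ∈ R') ∧
        Subgroup.closure R' ≠ Subgroup.closure R ∧ ∃ a ∈ R, a ∉ Subgroup.closure R' ∧
        Subgroup.closure ((Subgroup.closure R' : Set G) ∪ {a}) = Subgroup.closure R ∧
        (a ∉ C ∨ (a ∈ C ∧ Subgroup.closure R' ≤ C)) := by
      by_cases hKC : Subgroup.closure R ≤ C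
      · exact pick' hR (R0 := ∅) (by simp) (Set.empty_subset _)
          (by rw [Subgroup.closure_empty]; exact fun h => hbot h.symm) (Or.inl hKC)
      · obtain ⟨R', -, h⟩ := pick' (C := C) hR (R0 := {r ∈ R | r ∈ C})
          (fun x hx => ⟨hR x hx.1, C.inv_mem hx.2⟩) (fun x hx => hx.1) (by
            intro h
            apply hKC
            rw [← h, Subgroup.closure_le]
            exact fun x hx => hx.2) (Or.inr (fun r hr hrC => ⟨hr, hrC⟩))
        exact ⟨R', Set.empty_subset _, h⟩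
    obtain hg := hIH R' h3 h2 h4
    obtain ⟨L, hL⟩ := hext.all hR h3 h2 hg haR haH hcl hav
    obtain ⟨w, hw⟩ := hg.ne
    exact ⟨_, hL.ends w hw⟩

/-- the pair `(p, q)` of inverting elements -/
theorem pair_case [Finite G] (h : CD D C) (hext : ExtS C) {R : Set G}
    (hR : ∀ x ∈ R, x⁻¹ ∈ R) (hIH : IH R) {E : Subgroup G}
    (hN : NN C (Subgroup.closure R) E) (hEK : E ≤ Subgroup.closure R)
    (hne : E ≠ Subgroup.closure R) (hRC : ∀ r ∈ R, r ∈ C → r ∈ E)
    (hend : ∀ w ∈ Ends R, w ∈ E) {p q : G} (hp : p ∈ R) (hq : q ∈ R) (hpC : p ∉ C) (hqC : q ∉ C)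
    (hcl : Subgroup.closure ({r ∈ R | r ∈ C} ∪ {p, p⁻¹, q, q⁻¹}) = Subgroup.closure R) :
    ((∃ s ∈ R, s ∈ C ∧ s ≠ 1) → q ∈ E) ∧ ((∀ s ∈ R, s ∈ C → s = 1) → p ∈ E) := by
  set R2 : Set G := {r ∈ R | r ∈ C} ∪ {q, q⁻¹} with hR2
  have hR2R : R2 ⊆ R := by
    rintro r (hr | rfl | hr)
    · exact hr.1
    · exact hq
    · rw [Set.mem_singleton_iff] at hr
      subst hr; exact hR _ hq
  have hR2s : ∀ x ∈ R2, x⁻¹ ∈ R2 := by
    rintro r (hr | rfl | hr)
    · exact Or.inl ⟨hR _ hr.1, C.inv_mem hr.2⟩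
    · right; simp
    · rw [Set.mem_singleton_iff] at hr
      subst hr; right; simp
  have hq2 : q ∈ R2 := Or.inr (by simp)
  have hqinv : q⁻¹ ∉ C := fun h => hqC (by have := C.inv_mem h; rwa [inv_inv] at this)
  have hneq : Subgroup.closure R2 ≠ Subgroup.closure R := by
    intro hcl2
    refine one_inv h hN hEK hne hRC hR2R hq2 hqC hcl2 ?_
    rintro r (hr | rfl | hr) hrC
    · exact absurd hr.2 hrC
    · rw [inv_mul_cancel]; exact E.one_mem
    · rw [Set.mem_singleton_iff] at hr
      subst hr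
      rw [← mul_inv_rev]
      exact E.inv_mem (hN.F4 q (Subgroup.subset_closure hq) hqC)
  have hpH : p ∉ Subgroup.closure R2 := by
    intro hpH
    apply hneq
    apply le_antisymm (Subgroup.closure_mono hR2R)
    rw [← hcl, Subgroup.closure_le]
    rintro r (hr | rfl | rfl | rfl | hr)
    · exact Subgroup.subset_closure (Or.inl hr)
    · exact hpH
    · exact Subgroup.inv_mem _ hpH
    · exact Subgroup.subset_closure hq2
    · rw [Set.mem_singleton_iff] at hr
      subst hr
      exact Subgroup.inv_mem _ (Subgroup.subset_closure hq2)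
  have hcl' : Subgroup.closure ((Subgroup.closure R2 : Set G) ∪ {p}) = Subgroup.closure R := by
    have hpp : p ∈ Subgroup.closure ((Subgroup.closure R2 : Set G) ∪ {p}) :=
      Subgroup.subset_closure (by simp)
    have hle : Subgroup.closure R2 ≤ Subgroup.closure ((Subgroup.closure R2 : Set G) ∪ {p}) :=
      fun x hx => Subgroup.subset_closure (Or.inl hx)
    apply le_antisymm
    · rw [Subgroup.closure_le]
      rintro x (hx | hx)
      · exact Subgroup.closure_mono hR2R hx
      · rw [Set.mem_singleton_iff] at hx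
        subst hx; exact Subgroup.subset_closure hp
    · rw [← hcl, Subgroup.closure_le]
      rintro r (hr | rfl | rfl | rfl | hr)
      · exact hle (Subgroup.subset_closure (Or.inl hr))
      · exact hpp
      · exact Subgroup.inv_mem _ hpp
      · exact hle (Subgroup.subset_closure hq2)
      · rw [Set.mem_singleton_iff] at hr
        subst hr
        exact hle (Subgroup.inv_mem _ (Subgroup.subset_closure hq2))
  have hg := hIH R2 hR2s hR2R hneq
  constructor
  · rintro ⟨s, hsR, hsC, hs1⟩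
    obtain ⟨L, hL⟩ := hext.all hR hR2s hR2R hg hp hpH hcl' (Or.inl hpC)
    obtain ⟨w, hw, hwC⟩ := hg.p2 C ⟨⟨q, Subgroup.subset_closure hq2, hqC⟩,
      fun g _ k _ hg hk => h.mul g k hg hk⟩ s (Or.inl ⟨hsR, hsC⟩) hsC hs1
    have h1 := hend _ (hL.ends w hw)
    have h2 := hend _ (hL.ends _ (ends_inv hR2s w hw))
    have hww : w * w ∈ E := by
      have e : w * w = (L.prod * w⁻¹)⁻¹ * (L.prod * w) := by group
      rw [e]; exact E.mul_mem (E.inv_mem h2) h1
    have hwK : w ∈ Subgroup.closure R := Subgroup.closure_mono hR2R (ends_sub R2 hw)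
    have hwE := hN.F3 w hwK hwC hww
    have hv : L.prod ∈ E := by
      have e : L.prod = L.prod * w * w⁻¹ := by group
      rw [e]; exact E.mul_mem h1 (E.inv_mem hwE)
    have hle : Subgroup.closure R2 ≤ E := by
      rw [← hg.gen, Subgroup.closure_le]
      intro w' hw'
      have e : w' = L.prod⁻¹ * (L.prod * w') := by group
      rw [e]
      exact E.mul_mem (E.inv_mem hv) (hend _ (hL.ends w' hw'))
    exact hle (Subgroup.subset_closure hq2)
  · intro htriv
    have hcl2 : Subgroup.closure R2 = Subgroup.zpowers q := by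
      apply le_antisymm
      · rw [Subgroup.closure_le]
        rintro r (hr | rfl | hr)
        · rw [htriv r hr.1 hr.2]; exact Subgroup.one_mem _
        · exact Subgroup.mem_zpowers _
        · rw [Set.mem_singleton_iff] at hr
          subst hr; exact Subgroup.inv_mem _ (Subgroup.mem_zpowers _)
      · rw [Subgroup.zpowers_le]; exact Subgroup.subset_closure hq2
    exact two_case h hext hN hR hR2s hR2R hp hq2 hpC hqC hcl2 (cyc_ends hq2 hcl2) hpH hcl' hend

theorem nonnormal_case [Finite G] (h : CD D C) (hext : ExtS C) {R : Set G}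
    (hR : ∀ x ∈ R, x⁻¹ ∈ R) (hIH : IH R) {E : Subgroup G} (hEK : E ≤ Subgroup.closure R)
    (hne : E ≠ Subgroup.closure R)
    (hmax : ∀ E' : Subgroup G, E ≤ E' → E' ≤ Subgroup.closure R → E' = E ∨
      E' = Subgroup.closure R)
    (hend : ∀ w ∈ Ends R, w ∈ E)
    (hnorm : ¬ ∀ k ∈ Subgroup.closure R, ∀ g ∈ E, k⁻¹ * g * k ∈ E) : False := by
  have hN := nn_facts h hEK hne hmax hnorm
  obtain ⟨e, heE, heC⟩ := hN.notC
  have hKC : ¬ Subgroup.closure R ≤ C := fun hle => heC (hle (hEK heE))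
  -- a general consequence of `lemmaQ`
  have hQ : ∀ R0 : Set G, (∀ x ∈ R0, x⁻¹ ∈ R0) → R0 ⊆ R →
      Subgroup.closure R0 ≠ Subgroup.closure R → (∀ r ∈ R, r ∈ C → r ∈ R0) →
      ∀ g ∈ Subgroup.closure R0, g ∈ C → g ∈ E := by
    intro R0 h1 h2 h3 h4
    obtain ⟨R', k1, k2, k3, k4, a, haR, haH, hcl, hav⟩ := pick' (C := C) hR h1 h2 h3 (Or.inr h4)
    have hg := hIH R' k3 k2 k4
    obtain ⟨L, hL⟩ := hext.all hR k3 k2 hg haR haH hcl hav
    intro g hgR hgC
    exact lemmaQ h hN k3 k2 hg hL hend g (Subgroup.closure_mono k1 hgR) hgC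
  have hB : Subgroup.closure {r ∈ R | r ∈ C} ≠ Subgroup.closure R := by
    intro hcl
    apply hKC
    rw [← hcl, Subgroup.closure_le]
    exact fun x hx => hx.2
  have hRC : ∀ r ∈ R, r ∈ C → r ∈ E := fun r hr hrC =>
    hQ {r ∈ R | r ∈ C} (fun x hx => ⟨hR x hx.1, C.inv_mem hx.2⟩) (fun x hx => hx.1) hB
      (fun r hr hrC => ⟨hr, hrC⟩) r (Subgroup.subset_closure ⟨hr, hrC⟩) hrC
  obtain ⟨p, hp, hpC⟩ : ∃ p ∈ R, p ∉ C := by
    by_contra hcon
    push Not at hcon
    apply hKC
    rw [Subgroup.closure_le]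
    exact hcon
  obtain ⟨q, hq, hqC, hpq⟩ : ∃ q ∈ R, q ∉ C ∧ p⁻¹ * q ∉ E := by
    by_contra hcon
    push Not at hcon
    exact one_inv h hN hEK hne hRC subset_rfl hp hpC rfl hcon
  have hpinv : p⁻¹ ∉ C := fun h => hpC (by have := C.inv_mem h; rwa [inv_inv] at this)
  have hcl : Subgroup.closure ({r ∈ R | r ∈ C} ∪ {p, p⁻¹, q, q⁻¹}) = Subgroup.closure R := by
    by_contra hne2
    apply hpq
    refine hQ ({r ∈ R | r ∈ C} ∪ {p, p⁻¹, q, q⁻¹}) ?_ ?_ hne2 (fun r hr hrC => Or.inl ⟨hr, hrC⟩)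
      (p⁻¹ * q) ?_ (h.mul _ _ hpinv hqC)
    · rintro r (hr | rfl | rfl | rfl | hr)
      · exact Or.inl ⟨hR _ hr.1, C.inv_mem hr.2⟩
      · right; simp
      · right; simp
      · right; simp
      · rw [Set.mem_singleton_iff] at hr
        subst hr; right; simp
    · rintro r (hr | rfl | rfl | rfl | hr)
      · exact hr.1
      · exact hp
      · exact hR _ hp
      · exact hq
      · rw [Set.mem_singleton_iff] at hr
        subst hr; exact hR _ hq
    · refine Subgroup.mul_mem _ (Subgroup.inv_mem _ (Subgroup.subset_closure (Or.inr ?_)))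
        (Subgroup.subset_closure (Or.inr ?_)) <;> simp
  have hcl' : Subgroup.closure ({r ∈ R | r ∈ C} ∪ {q, q⁻¹, p, p⁻¹}) = Subgroup.closure R := by
    rw [← hcl]
    congr 2
    ext z
    simp only [Set.mem_insert_iff, Set.mem_singleton_iff]
    tauto
  have h1 := pair_case h hext hR hIH hN hEK hne hRC hend hp hq hpC hqC hcl
  have h2 := pair_case h hext hR hIH hN hEK hne hRC hend hq hp hqC hpC hcl'
  by_cases hB1 : ∃ s ∈ R, s ∈ C ∧ s ≠ 1
  · exact hpq (E.mul_mem (E.inv_mem (h2.1 hB1)) (h1.1 hB1))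
  · push Not at hB1
    exact hpq (E.mul_mem (E.inv_mem (h1.2 hB1)) (h2.2 hB1))

/-- **Main induction.** -/
theorem good_all [Finite G] (h : CD D C) (n : ℕ) :
    ∀ R : Set G, (∀ x ∈ R, x⁻¹ ∈ R) → Nat.card (Subgroup.closure R) = n → Good R := by
  classical
  have hext : ExtS C := ext_thm h (walk_thm h) tower2 rot
  induction n using Nat.strong_induction_on with
  | _ n ih =>
  intro R hR hcard
  set K := Subgroup.closure R with hK
  have hIH : IH R := by
    intro R' hR' hRR hne
    refine ih (Nat.card (Subgroup.closure R')) ?_ R' hR' rfl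
    rw [← hcard]
    have hle : Subgroup.closure R' ≤ K := Subgroup.closure_mono hRR
    have hlt : Subgroup.closure R' < K := lt_of_le_of_ne hle hne
    have h1 : (Subgroup.closure R' : Set G) ⊂ (K : Set G) := hlt
    exact Set.ncard_lt_ncard h1 (Set.toFinite _)
  refine ⟨ends_nonempty hext hR hIH, ?_, p2_step h hext hR hIH⟩
  by_contra hcon
  have hWH : Subgroup.closure (Ends R) ≤ K := by
    rw [Subgroup.closure_le]
    exact ends_sub R
  obtain ⟨E, hE⟩ := (Set.toFinite {E : Subgroup G | Subgroup.closure (Ends R) ≤ E ∧ E ≤ K ∧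
    E ≠ K}).exists_maximal ⟨_, le_refl _, hWH, hcon⟩
  obtain ⟨hE1, hE2, hE3⟩ := hE.prop
  have hmax : ∀ E' : Subgroup G, E ≤ E' → E' ≤ K → E' = E ∨ E' = K := by
    intro E' h1 h2
    by_cases h3 : E' = K
    · exact Or.inr h3
    · exact Or.inl (le_antisymm (hE.le_of_ge ⟨hE1.trans h1, h2, h3⟩ h1) h1)
  have hend : ∀ w ∈ Ends R, w ∈ E := fun w hw => hE1 (Subgroup.subset_closure hw)
  by_cases hnorm : ∀ k ∈ Subgroup.closure R, ∀ g ∈ E, k⁻¹ * g * k ∈ E
  · exact normal_case h hext hR hIH hE2 hE3 hmax hend hnorm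
  · exact nonnormal_case h hext hR hIH hE2 hE3 hmax hend hnorm

/-- the hypothesis of the main theorem gives the structure `CD` -/
theorem cd_of (hG : ∀ g : G, (∀ x ∈ commutator G, g * x * g⁻¹ = x) ∨
    (∀ x ∈ commutator G, g * x * g⁻¹ = x⁻¹)) :
    CD (commutator G) (Subgroup.centralizer (commutator G : Set G)) := by
  have hmemC : ∀ g : G, g ∈ Subgroup.centralizer (commutator G : Set G) ↔
      ∀ x ∈ commutator G, g * x = x * g := by
    intro g
    rw [Subgroup.mem_centralizer_iff]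
    exact ⟨fun h x hx => (h x hx).symm, fun h x hx => (h x hx).symm⟩
  have hinv : ∀ g : G, g ∉ Subgroup.centralizer (commutator G : Set G) →
      ∀ x ∈ commutator G, g * x * g⁻¹ = x⁻¹ := by
    intro g hg
    rcases hG g with h | h
    · exfalso
      apply hg
      rw [hmemC]
      intro x hx
      have := h x hx
      calc g * x = g * x * g⁻¹ * g := by group
        _ = x * g := by rw [this]
    · exact h
  refine ⟨?_, ?_, ?_, ?_, ?_⟩
  · intro g k
    have h2 := Subgroup.commutator_mem_commutator (Subgroup.mem_top g⁻¹)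
      (Subgroup.mem_top k⁻¹)
    rw [commutatorElement_def, inv_inv, inv_inv] at h2
    exact h2
  · intro g hg
    exact (hmemC g).1 hg
  · intro g hg x hx
    have := hinv g hg x hx
    calc g * x = g * x * g⁻¹ * g := by group
      _ = x⁻¹ * g := by rw [this]
  · intro g k hg hk
    rw [hmemC]
    intro x hx
    have h1 := hinv k hk x hx
    have h2 := hinv g hg x⁻¹ ((commutator G).inv_mem hx)
    rw [inv_inv] at h2
    calc g * k * x = g * (k * x * k⁻¹) * g⁻¹ * (g * k) := by group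
      _ = x * (g * k) := by rw [h1, h2]
  · -- the commutator subgroup is abelian
    by_cases hex : ∃ g : G, g ∉ Subgroup.centralizer (commutator G : Set G)
    · obtain ⟨g, hg⟩ := hex
      intro y hy
      rw [hmemC]
      intro x hx
      have h1 := hinv g hg x hx
      have h2 := hinv g hg y hy
      have h3 := hinv g hg (x * y) ((commutator G).mul_mem hx hy)
      have h4 : g * (x * y) * g⁻¹ = x⁻¹ * y⁻¹ := by
        calc g * (x * y) * g⁻¹ = (g * x * g⁻¹) * (g * y * g⁻¹) := by group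
          _ = _ := by rw [h1, h2]
      rw [h4] at h3
      have h5 := congrArg (fun z => z⁻¹) h3
      simp only [mul_inv_rev, inv_inv] at h5
      exact h5
    · push Not at hex
      intro y _
      exact hex y

end Pool.Agent.H268.CI
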