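import Pool.Agent.H268.CI.Defs

/-! Base walk, odd number of levels. -/

namespace Pool.Agent.H268.CI

open Pool.Agent.H761J.Ham Pool.Agent.H761J.Nil

variable {G : Type*} [Group G] {D C : Subgroup G}

namespace T2

/-- alternating pairs -/
def pairs (x a : G) : ℕ → List G
  | 0 => []
  | b + 1 => (x * a) :: (x⁻¹ * a⁻¹) :: pairs x a b

theorem pairs_len (x a : G) (b : ℕ) : (pairs x a b).length = 2 * b := by
  induction b with
  | zero => rfl
  | succ b ih =>
    simp only [pairs, List.length_cons, ih]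
    omega

theorem pairs_mem (x a : G) (b : ℕ) : ∀ t ∈ pairs x a b, t = x * a ∨ t = x⁻¹ * a⁻¹ := by
  induction b with
  | zero => intro t ht; simp [pairs] at ht
  | succ b ih =>
    intro t ht
    simp only [pairs, List.mem_cons] at ht
    rcases ht with h | h | h
    · exact Or.inl h
    · exact Or.inr h
    · exact ih t h

variable {x a f : G}

theorem pairs_prod (hf : (x * a) * (x⁻¹ * a⁻¹) = f) (b : ℕ) : (pairs x a b).prod = f ^ b := by
  induction b with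
  | zero => simp [pairs]
  | succ b ih =>
    simp only [pairs, List.prod_cons, ih]
    rw [← mul_assoc, hf, pow_succ']

theorem pairs_pre (hf : (x * a) * (x⁻¹ * a⁻¹) = f) (b : ℕ) :
    ∀ j ≤ b, f ^ j ∈ pre (pairs x a b) := by
  induction b with
  | zero =>
    intro j hj
    obtain rfl : j = 0 := by omega
    simp [pairs, pre]
  | succ b ih =>
    intro j hj
    cases j with
    | zero => rw [pow_zero]; exact one_mem_pre _
    | succ j =>
      simp only [pairs, pre, List.mem_cons, List.mem_map]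
      right
      refine ⟨(x⁻¹ * a⁻¹) * f ^ j, Or.inr ⟨_, ih j (by omega), rfl⟩, ?_⟩
      rw [← mul_assoc, hf, pow_succ']

theorem pairs_pre' (hf : (x * a) * (x⁻¹ * a⁻¹) = f) (b : ℕ) :
    ∀ j < b, f ^ j * (x * a) ∈ pre (pairs x a b) := by
  induction b with
  | zero =>
    intro j hj
    omega
  | succ b ih =>
    intro j hj
    cases j with
    | zero =>
      simp only [pairs, pre, List.mem_cons, List.mem_map]
      right
      exact ⟨1, Or.inl rfl, by simp⟩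
    | succ j =>
      simp only [pairs, pre, List.mem_cons, List.mem_map]
      right
      refine ⟨(x⁻¹ * a⁻¹) * (f ^ j * (x * a)), Or.inr ⟨_, ih j (by omega), rfl⟩, ?_⟩
      rw [← mul_assoc, hf, ← mul_assoc, pow_succ']

/-- repeated blocks -/
def rp (x a : G) (b : ℕ) : ℕ → List G
  | 0 => []
  | k + 1 => pairs x a b ++ (x * a) :: rp x a b k

theorem rp_len (x a : G) (b k : ℕ) : (rp x a b k).length = k * (2 * b + 1) := by
  induction k with
  | zero => simp [rp]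
  | succ k ih =>
    simp only [rp, List.length_append, List.length_cons, ih, pairs_len]
    ring

theorem rp_mem (x a : G) (b k : ℕ) : ∀ t ∈ rp x a b k, t = x * a ∨ t = x⁻¹ * a⁻¹ := by
  induction k with
  | zero => intro t ht; simp [rp] at ht
  | succ k ih =>
    intro t ht
    simp only [rp, List.mem_append, List.mem_cons] at ht
    rcases ht with h | h | h
    · exact pairs_mem x a b t h
    · exact Or.inl h
    · exact ih t h

theorem rp_prod (hf : (x * a) * (x⁻¹ * a⁻¹) = f) (b k : ℕ) :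
    (rp x a b k).prod = (f ^ b * (x * a)) ^ k := by
  induction k with
  | zero => simp [rp]
  | succ k ih =>
    simp only [rp, List.prod_append, List.prod_cons, ih, pairs_prod hf]
    rw [← mul_assoc, ← pow_succ']

theorem rp_hit (hf : (x * a) * (x⁻¹ * a⁻¹) = f) (b K : ℕ) : ∀ k ≤ K, ∀ p ∈ pre (pairs x a b),
    (f ^ b * (x * a)) ^ k * p ∈ pre (rp x a b K ++ pairs x a b) := by
  induction K with
  | zero =>
    intro k hk p hp
    obtain rfl : k = 0 := by omega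
    simpa [rp] using hp
  | succ K ih =>
    intro k hk p hp
    have e : rp x a b (K + 1) ++ pairs x a b =
        pairs x a b ++ (x * a) :: (rp x a b K ++ pairs x a b) := by
      simp [rp]
    rw [e]
    cases k with
    | zero =>
      rw [pow_zero, one_mul]
      exact pre_append_left _ _ hp
    | succ k =>
      rw [pre_append, List.mem_append, List.mem_map]
      right
      refine ⟨_, ih k (by omega) p hp, ?_⟩
      rw [pairs_prod hf, ← mul_assoc, ← pow_succ']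

/-- powers of `f ^ b * (x * a)` and of `a` -/
theorem gpow (h : CD D C) {H : Subgroup G} (hx : x ∈ H) (b : ℕ) (z : ℤ) :
    (a ^ z)⁻¹ * ((fw a x) ^ b * (x * a)) ^ z ∈ Subgroup.zpowers (fw a x) ⊔ H := by
  have hN : Subgroup.zpowers (fw a x) ≤ D := by
    rw [Subgroup.zpowers_le]
    exact fw_mem h a x
  set U := Subgroup.zpowers (fw a x) ⊔ H with hU
  set g := (fw a x) ^ b * (x * a) with hg
  have hc : ∀ I : ℤ, (a ^ I)⁻¹ * ((fw a x) ^ b * x) * a ^ I ∈ U := by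
    intro I
    have e : (a ^ I)⁻¹ * ((fw a x) ^ b * x) * a ^ I =
        ((a ^ I)⁻¹ * (fw a x) ^ b * a ^ I) * (x * (x⁻¹ * ((a ^ I)⁻¹ * x * a ^ I))) := by group
    rw [e]
    refine U.mul_mem ?_ (U.mul_mem ?_ ?_)
    · exact Subgroup.mem_sup_left (h.norm' hN _ (Subgroup.pow_mem _ (Subgroup.mem_zpowers _) b))
    · exact Subgroup.mem_sup_right hx
    · exact Subgroup.mem_sup_left (h.wN hN (Subgroup.mem_zpowers _) I)
  have key : ∀ z : ℤ, (a ^ (z + 1))⁻¹ * g ^ (z + 1) =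
      ((a ^ (z + 1))⁻¹ * ((fw a x) ^ b * x) * a ^ (z + 1)) * ((a ^ z)⁻¹ * g ^ z) := by
    intro z
    have e1 : g ^ (z + 1) = ((fw a x) ^ b * (x * a)) * g ^ z := by
      rw [add_comm, zpow_add, zpow_one]
    have e2 : a ^ (z + 1) = a * a ^ z := by rw [add_comm, zpow_add, zpow_one]
    rw [e1, e2]
    group
  induction z using Int.induction_on with
  | zero => simp [U.one_mem]
  | succ i ih =>
    rw [key]
    exact U.mul_mem (hc _) ih
  | pred i ih =>
    have := key (-(i : ℤ) - 1)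
    rw [sub_add_cancel] at this
    have e : (a ^ (-(i : ℤ) - 1))⁻¹ * g ^ (-(i : ℤ) - 1) =
        ((a ^ (-(i : ℤ)))⁻¹ * ((fw a x) ^ b * x) * a ^ (-(i : ℤ)))⁻¹ *
          ((a ^ (-(i : ℤ)))⁻¹ * g ^ (-(i : ℤ))) := by
      rw [this]; group
    rw [e]
    exact U.mul_mem (U.inv_mem (hc _)) ih

end T2

open T2 in
/-- Proof. f = fw a x ∈ D, U = ⟨f⟩ ⊔ H, m = 2M+1. x and a are both outside of C, so x a ∈ C commutes with f, and x inverts f.
x a x⁻¹ a⁻¹ = (x a) f (x a)⁻¹ = f, i.e. (x * a) * (x⁻¹ * a⁻¹) = f.   x a = a x f (a⁻¹ x a = x f = x * fw a x).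
T = closure {x, f} ⊆ U, a⁻¹ T a ⊆ T, (x a)^m ∈ a^m T ⊆ U (a^m ∈ U by hm), so (x a)^m = f^i h₀ with h₀ ∈ H (`CD.mem_sup_z`);
h₀ = f^(-i) (x a)^m ∈ C commutes with f.  x⁻¹ (x a) x = a x = (x a) f⁻¹, so x⁻¹ (x a)^m x = (x a)^m f^(-m); also
x⁻¹ (x a)^m x = x⁻¹ f^i h₀ x = f^(-i) (x⁻¹ h₀ x). Hence f^(m-2i) = h₀ (x⁻¹ h₀ x)⁻¹ ∈ H, n ∣ m - 2 i, so n is odd, n = 2b+1.
Put g = f^b (x a) (commutes with f). g^m = f^(b m) (x a)^m = f^(b m + i) h₀, and b m + i ≡ 2 b i + i = n i ≡ 0 mod n, so g^m ∈ H.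
pairs b = [x a, x⁻¹ a⁻¹] repeated b times (product f^b; prefix products f^j (j ≤ b), f^j x a (j < b)).
  L = (pairs b ++ [x a]) repeated (m-1) times, then pairs b.  The block has product g.
Prefix products of L: g^k f^j (0 ≤ j ≤ b, k < m) and g^k f^j x a = f^(j-b) g^(k+1) (0 ≤ j < b, k < m).
Cov by `cov_of_hits` with ι = Fin m × Fin n, rep (k,j) = f^j g^k (commuting elements). Distinct: g^(k'-k) f^(j'-j) ∈ H implies
g^(k'-k) ∈ U; g^k ∈ a^k T for all k ∈ ℤ (g = f^b a x f ∈ a T), so a^(k'-k) ∈ U, m ∣ k'-k, k = k', then n ∣ j'-j.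
Hits: level k, j ≤ b: g^k f^j. level k ≥ 1, j > b: f^(j'-b) g^k with j' = j - b - 1 < b: f^(j'-b) = f^(j-n)·... (j - (j'-b) = n). level 0,
j > b: f^(j'-b) g^m with g^m ∈ H. Then the set {g | ∃ (k,j), rep⁻¹ g ∈ H} = SN (a^k U = g^k U, reduce exponents mod m with a^m ∈ U).
Length: (m-1)(2b+1) + 2b + 1 = m n. L ≠ []: if m ≥ 3 (M ≥ 1) the first block starts with x a; if m = 1 then a ∈ U, a ∉ H so
f ∉ H, n > 1, b ≥ 1 and pairs b starts with x a.
X: L.prod = g^(m-1) f^b, L.prod * a = g^m g⁻¹ f^b a = g^m (x a)⁻¹ a = g^m (a⁻¹ x⁻¹ a) ∈ E as g^m ∈ H. -/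
theorem base_odd (h : CD D C) {H : Subgroup G} {x a : G} (hx : x ∈ H) (hxC : x ∉ C)
    (haC : a ∉ C) (haH : a ∉ H) {n M : ℕ} (hn0 : 0 < n)
    (hn : ∀ z : ℤ, (fw a x) ^ z ∈ H ↔ (n : ℤ) ∣ z)
    (hm : ∀ I : ℤ, a ^ I ∈ Subgroup.zpowers (fw a x) ⊔ H ↔ ((2 * M + 1 : ℕ) : ℤ) ∣ I) :
    ∃ L : List G, (∀ t ∈ L, ∃ w, (w = x ∨ w = x⁻¹) ∧ (t = w * a ∨ t = w * a⁻¹)) ∧
      (∃ L', L = (x * a) :: L') ∧
      Cov H L (SN H a (Subgroup.zpowers (fw a x))) ∧
      (∀ E : Subgroup G, H ≤ E → (∀ g ∈ E, a⁻¹ * g * a ∈ E) → L.prod * a ∈ E) ∧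
      L.length + 1 = (2 * M + 1) * n := by
  have hfD : fw a x ∈ D := fw_mem h a x
  have hyC : x * a ∈ C := h.mul x a hxC haC
  have hgp := fun (b : ℕ) (z : ℤ) => gpow (a := a) h hx b z
  have hxa : x * a = a * x * fw a x := by unfold fw; group
  have hpair : (x * a) * (x⁻¹ * a⁻¹) = fw a x := by
    have h1 : (x * a) * (x⁻¹ * a⁻¹) = (x * a) * fw a x * (x * a)⁻¹ := by unfold fw; group
    rw [h1, h.cent _ hyC _ hfD]
    group
  set f := fw a x with hf
  set U := Subgroup.zpowers f ⊔ H with hU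
  set y := x * a with hy
  have hcomm : Commute f y := (h.cent y hyC f hfD).symm
  have hfH : f ^ (n : ℤ) ∈ H := (hn n).2 (dvd_refl _)
  have hHU : H ≤ U := le_sup_right
  have hfU : ∀ j : ℤ, f ^ j ∈ U := fun j =>
    Subgroup.mem_sup_left (Subgroup.zpow_mem _ (Subgroup.mem_zpowers _) j)
  -- the parity of `n`
  have hymU : y ^ ((2 * M + 1 : ℕ) : ℤ) ∈ U := by
    have h1 := hgp 0 ((2 * M + 1 : ℕ) : ℤ)
    rw [pow_zero, one_mul] at h1
    have h2 : a ^ ((2 * M + 1 : ℕ) : ℤ) ∈ U := (hm _).2 (dvd_refl _)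
    have := U.mul_mem h2 h1
    rwa [mul_inv_cancel_left] at this
  obtain ⟨i, hi⟩ := (h.mem_sup_z hfD).1 hymU
  set m : ℤ := ((2 * M + 1 : ℕ) : ℤ) with hmdef
  set h0 := (f ^ i)⁻¹ * y ^ m with hh0
  have hym : y ^ m = f ^ i * h0 := by rw [hh0, mul_inv_cancel_left]
  have hcy : ∀ (i j : ℤ), f ^ i * y ^ j = y ^ j * f ^ i := fun i j =>
    (hcomm.zpow_zpow i j).eq
  have hfh0 : ∀ j : ℤ, f ^ j * h0 = h0 * f ^ j := by
    intro j
    rw [hh0]
    have e1 : f ^ j * (f ^ i)⁻¹ = (f ^ i)⁻¹ * f ^ j := by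
      rw [← zpow_neg, ← zpow_add, ← zpow_add, add_comm]
    rw [← mul_assoc, e1, mul_assoc, hcy, mul_assoc]
  have hinv : ∀ j : ℤ, x⁻¹ * f ^ j * x = f ^ (-j) := by
    intro j
    have h1 := h.inv x hxC (f ^ (-j)) (D.zpow_mem hfD _)
    rw [← zpow_neg, neg_neg] at h1
    have : x⁻¹ * f ^ j * x = x⁻¹ * (f ^ j * x) := by group
    rw [this, ← h1]
    group
  have hxyx : x⁻¹ * y * x = y * f⁻¹ := by
    have e1 : x⁻¹ * y * x = a * x := by rw [hy]; group
    have e2 : y * f⁻¹ = a * x := by rw [hxa]; group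
    rw [e1, e2]
  have hxymx : x⁻¹ * y ^ m * x = y ^ m * f ^ (-m) := by
    have e1 : x⁻¹ * y ^ m * x = (x⁻¹ * y * x) ^ m := by
      have := conj_zpow (i := m) (a := x⁻¹) (b := y)
      rw [inv_inv] at this
      exact this.symm
    have e2 : Commute y f⁻¹ := hcomm.symm.inv_right
    rw [e1, hxyx, e2.mul_zpow, inv_zpow, zpow_neg]
  have hdiv : (n : ℤ) ∣ 2 * i - m := by
    rw [← hn]
    have e1 : x⁻¹ * y ^ m * x = f ^ (-i) * (x⁻¹ * h0 * x) := by
      rw [hym, ← hinv i]; group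
    rw [hxymx, hym] at e1
    have e2 : f ^ (2 * i - m) = (x⁻¹ * h0 * x) * h0⁻¹ := by
      have e3 : x⁻¹ * h0 * x = f ^ i * (f ^ i * h0 * f ^ (-m)) := by
        rw [e1, zpow_neg, mul_inv_cancel_left]
      rw [e3]
      have e4 : f ^ i * h0 * f ^ (-m) = f ^ i * f ^ (-m) * h0 := by
        rw [mul_assoc, ← hfh0, mul_assoc]
      rw [e4]
      have e5 : f ^ i * (f ^ i * f ^ (-m) * h0) * h0⁻¹ = f ^ i * (f ^ i * f ^ (-m)) := by group
      rw [e5, ← zpow_add, ← zpow_add]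
      congr 1
      ring
    rw [e2]
    exact H.mul_mem (H.mul_mem (H.mul_mem (H.inv_mem hx) hi) hx) (H.inv_mem hi)
  obtain ⟨b, hb⟩ : ∃ b : ℕ, n = 2 * b + 1 := by
    rcases Nat.even_or_odd' n with ⟨b, hb | hb⟩
    · exfalso
      have h2 : (2 : ℤ) ∣ 2 * i - m := dvd_trans ⟨(b : ℤ), by rw [hb]; push_cast; ring⟩ hdiv
      have h3 : m = 2 * (M : ℤ) + 1 := by rw [hmdef]; push_cast; ring
      omega
    · exact ⟨b, hb⟩
  set g := f ^ b * y with hg
  have hfg : Commute f g := by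
    rw [hg]
    exact ((Commute.refl f).pow_right b).mul_right hcomm
  have hgm : g ^ m ∈ H := by
    obtain ⟨c, hc⟩ := hdiv
    have e1 : g ^ m = f ^ ((b : ℤ) * m + i) * h0 := by
      rw [hg, ((hcomm.pow_left b)).mul_zpow, hym, ← zpow_natCast, ← zpow_mul, ← mul_assoc,
        ← zpow_add]
    rw [e1]
    refine H.mul_mem ((hn _).2 ⟨i - b * c, ?_⟩) hi
    have e2 : m = 2 * i - n * c := by linarith
    rw [e2, hb]
    push_cast
    ring
  have hgU : ∀ z : ℤ, (a ^ z)⁻¹ * g ^ z ∈ U := fun z => hgp b z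
  have hzz : ∀ (i j : ℤ), f ^ i * g ^ j = g ^ j * f ^ i := fun i j => (hfg.zpow_zpow i j).eq
  have hgz : g = f ^ (b : ℤ) * y := by rw [zpow_natCast]
  refine ⟨rp x a b (2 * M) ++ pairs x a b, ?_, ?_, ?_, ?_, ?_⟩
  · intro t ht
    rw [List.mem_append] at ht
    have h1 : t = x * a ∨ t = x⁻¹ * a⁻¹ := by
      rcases ht with ht | ht
      · exact rp_mem x a b _ t ht
      · exact pairs_mem x a b t ht
    rcases h1 with h1 | h1
    · exact ⟨x, Or.inl rfl, Or.inl h1⟩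
    · exact ⟨x⁻¹, Or.inr rfl, Or.inr h1⟩
  · cases M with
    | succ M =>
      have e : rp x a b (2 * (M + 1)) = pairs x a b ++ (x * a) :: rp x a b (2 * M + 1) := rfl
      rw [e]
      cases b with
      | zero => exact ⟨_, rfl⟩
      | succ b => exact ⟨_, rfl⟩
    | zero =>
      cases b with
      | succ b => exact ⟨_, rfl⟩
      | zero =>
        exfalso
        have h1 : f ∈ H := by
          have := (hn 1).2 (by rw [hb]; norm_num)
          rwa [zpow_one] at this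
        have h2 : a ∈ U := by
          have := (hm 1).2 (by norm_num)
          rwa [zpow_one] at this
        have h3 : U ≤ H := sup_le (by rw [Subgroup.zpowers_le]; exact h1) le_rfl
        exact haH (h3 h2)
  · have hcov := cov_of_hits (U := H) (L := rp x a b (2 * M) ++ pairs x a b)
      (ι := Fin (2 * M + 1) × Fin n) (fun kj => f ^ (kj.2 : ℤ) * g ^ (kj.1 : ℤ)) ?_ ?_ ?_
    · refine hcov.congr fun s => ?_
      constructor
      · rintro ⟨I, hI⟩
        have h1 : (g ^ I)⁻¹ * s ∈ U := by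
          have e : (g ^ I)⁻¹ * s = ((a ^ I)⁻¹ * g ^ I)⁻¹ * ((a ^ I)⁻¹ * s) := by group
          rw [e]
          exact U.mul_mem (U.inv_mem (hgU I)) hI
        obtain ⟨t, ht⟩ := (h.mem_sup_z hfD).1 h1
        have hmpos : (0 : ℤ) < m := by rw [hmdef]; positivity
        have hnpos : (0 : ℤ) < n := by exact_mod_cast hn0
        have k1 := Int.emod_nonneg I hmpos.ne'
        have k2 := Int.emod_lt_of_pos I hmpos
        have k3 := Int.emod_nonneg t hnpos.ne'
        have k4 := Int.emod_lt_of_pos t hnpos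
        have k5 := Int.emod_add_mul_ediv I m
        have k6 := Int.emod_add_mul_ediv t n
        refine ⟨(⟨(I % m).toNat, by omega⟩, ⟨(t % n).toNat, by omega⟩), ?_⟩
        have c1 : (((I % m).toNat : ℕ) : ℤ) = I % m := Int.toNat_of_nonneg k1
        have c2 : (((t % n).toNat : ℕ) : ℤ) = t % n := Int.toNat_of_nonneg k3
        show (f ^ (((t % n).toNat : ℕ) : ℤ) * g ^ (((I % m).toNat : ℕ) : ℤ))⁻¹ * s ∈ H
        rw [c1, c2]
        have e1 : g ^ I = g ^ (I % m) * (g ^ m) ^ (I / m) := by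
          rw [← zpow_mul, ← zpow_add, k5]
        have e2 : f ^ t = f ^ (t % n) * (f ^ (n : ℤ)) ^ (t / n) := by
          rw [← zpow_mul, ← zpow_add, k6]
        have e3 : (f ^ (t % n) * g ^ (I % m))⁻¹ * s =
            ((g ^ m) ^ (I / m) * (f ^ (n : ℤ)) ^ (t / n)) * ((f ^ t)⁻¹ * ((g ^ I)⁻¹ * s)) := by
          have e4 : g ^ I * f ^ t = (f ^ (t % n) * g ^ (I % m)) *
              ((g ^ m) ^ (I / m) * (f ^ (n : ℤ)) ^ (t / n)) := by
            rw [e1, e2, ← zpow_mul, ← zpow_mul, ← zpow_add, ← zpow_add]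
            have e5 : f ^ (t % ↑n) * g ^ (I % m) * (g ^ (m * (I / m)) * f ^ (↑n * (t / ↑n))) =
                f ^ (t % ↑n) * g ^ (I % m + m * (I / m)) * f ^ (↑n * (t / ↑n)) := by
              rw [zpow_add]; group
            rw [e5, hzz, mul_assoc, ← zpow_add]
          have e6 : (f ^ t)⁻¹ * ((g ^ I)⁻¹ * s) = (g ^ I * f ^ t)⁻¹ * s := by group
          rw [e6, e4]
          group
        rw [e3]
        exact H.mul_mem (H.mul_mem (H.zpow_mem hgm _) (H.zpow_mem hfH _)) ht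
      · rintro ⟨⟨k, j⟩, hs⟩
        refine ⟨(k : ℤ), ?_⟩
        have hs' : (f ^ ((j : ℕ) : ℤ) * g ^ ((k : ℕ) : ℤ))⁻¹ * s ∈ H := hs
        have e : (a ^ ((k : ℕ) : ℤ))⁻¹ * s = ((a ^ ((k : ℕ) : ℤ))⁻¹ * g ^ ((k : ℕ) : ℤ)) *
            (f ^ ((j : ℕ) : ℤ) * ((f ^ ((j : ℕ) : ℤ) * g ^ ((k : ℕ) : ℤ))⁻¹ * s)) := by
          rw [hzz]; group
        rw [e]
        exact U.mul_mem (hgU _) (U.mul_mem (hfU _) (hHU hs'))
    · rw [List.length_append, rp_len, pairs_len, Fintype.card_prod, Fintype.card_fin,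
        Fintype.card_fin, hb]
      ring
    · rintro ⟨k, j⟩ ⟨k', j'⟩ hd
      have hd' : (f ^ ((j : ℕ) : ℤ) * g ^ ((k : ℕ) : ℤ))⁻¹ *
          (f ^ ((j' : ℕ) : ℤ) * g ^ ((k' : ℕ) : ℤ)) ∈ H := hd
      have e1 : (f ^ ((j : ℕ) : ℤ) * g ^ ((k : ℕ) : ℤ))⁻¹ *
          (f ^ ((j' : ℕ) : ℤ) * g ^ ((k' : ℕ) : ℤ)) =
          f ^ (((j' : ℕ) : ℤ) - ((j : ℕ) : ℤ)) * g ^ (((k' : ℕ) : ℤ) - ((k : ℕ) : ℤ)) := by
        have e2 : f ^ ((j' : ℕ) : ℤ) = f ^ ((j : ℕ) : ℤ) * f ^ (((j' : ℕ) : ℤ) - ((j : ℕ) : ℤ)) := by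
          rw [← zpow_add]; congr 1; ring
        have e3 : g ^ ((k' : ℕ) : ℤ) = g ^ ((k : ℕ) : ℤ) * g ^ (((k' : ℕ) : ℤ) - ((k : ℕ) : ℤ)) := by
          rw [← zpow_add]; congr 1; ring
        have e4 : f ^ ((j' : ℕ) : ℤ) * g ^ ((k' : ℕ) : ℤ) =
            (f ^ ((j : ℕ) : ℤ) * g ^ ((k : ℕ) : ℤ)) *
            (f ^ (((j' : ℕ) : ℤ) - ((j : ℕ) : ℤ)) * g ^ (((k' : ℕ) : ℤ) - ((k : ℕ) : ℤ))) := by
          rw [e3]
          conv_lhs => rw [e2]
          have e5 := hzz (((j' : ℕ) : ℤ) - ((j : ℕ) : ℤ)) ((k : ℕ) : ℤ)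
          calc f ^ ((j : ℕ) : ℤ) * f ^ (((j' : ℕ) : ℤ) - ((j : ℕ) : ℤ)) *
                (g ^ ((k : ℕ) : ℤ) * g ^ (((k' : ℕ) : ℤ) - ((k : ℕ) : ℤ)))
              = f ^ ((j : ℕ) : ℤ) * (f ^ (((j' : ℕ) : ℤ) - ((j : ℕ) : ℤ)) *
                g ^ ((k : ℕ) : ℤ)) * g ^ (((k' : ℕ) : ℤ) - ((k : ℕ) : ℤ)) := by group
            _ = _ := by rw [e5]; group
        rw [e4, inv_mul_cancel_left]
      rw [e1] at hd'
      have hU1 : g ^ (((k' : ℕ) : ℤ) - ((k : ℕ) : ℤ)) ∈ U := by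
        have := U.mul_mem (hfU (-(((j' : ℕ) : ℤ) - ((j : ℕ) : ℤ)))) (hHU hd')
        rwa [zpow_neg, inv_mul_cancel_left] at this
      have hU2 : a ^ (((k' : ℕ) : ℤ) - ((k : ℕ) : ℤ)) ∈ U := by
        have := U.mul_mem hU1 (U.inv_mem (hgU (((k' : ℕ) : ℤ) - ((k : ℕ) : ℤ))))
        rw [mul_inv_rev, inv_inv, mul_inv_cancel_left] at this
        exact this
      have hk := (hm _).1 hU2
      have hk0 : ((k' : ℕ) : ℤ) - ((k : ℕ) : ℤ) = 0 := by
        refine Int.eq_zero_of_abs_lt_dvd hk ?_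
        have := k.2
        have := k'.2
        rw [abs_lt]
        constructor <;> push_cast <;> omega
      rw [hk0, zpow_zero, mul_one] at hd'
      have hj := (hn _).1 hd'
      have hj0 : ((j' : ℕ) : ℤ) - ((j : ℕ) : ℤ) = 0 := by
        refine Int.eq_zero_of_abs_lt_dvd hj ?_
        have := j.2
        have := j'.2
        rw [abs_lt]
        constructor <;> omega
      refine Prod.ext (Fin.ext ?_) (Fin.ext ?_)
      · show (k : ℕ) = k'
        omega
      · show (j : ℕ) = j'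
        omega
    · rintro ⟨k, j⟩
      have hkl := k.2
      have hjl := j.2
      show ∃ q ∈ pre (rp x a b (2 * M) ++ pairs x a b),
        q⁻¹ * (f ^ ((j : ℕ) : ℤ) * g ^ ((k : ℕ) : ℤ)) ∈ H
      by_cases hjb : (j : ℕ) ≤ b
      · refine ⟨g ^ (k : ℕ) * f ^ (j : ℕ),
          rp_hit hpair b (2 * M) k (by omega) _ (pairs_pre hpair b j hjb), ?_⟩
        rw [hzz, zpow_natCast, zpow_natCast, inv_mul_cancel]
        exact H.one_mem
      · push Not at hjb
        have hj1 : ((j : ℕ) - b - 1) < b := by omega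
        have hcast : (((j : ℕ) - b - 1 : ℕ) : ℤ) = (j : ℕ) - b - 1 := by omega
        -- the prefix product
        have hq : ∀ K : ℕ, g ^ K * (f ^ ((j : ℕ) - b - 1) * (x * a)) =
            f ^ ((((j : ℕ) : ℤ)) - 2 * b - 1) * g ^ ((K : ℤ) + 1) := by
          intro K
          have e1 : x * a = f ^ (-(b : ℤ)) * g := by
            rw [hgz, ← mul_assoc, ← zpow_add, neg_add_cancel, zpow_zero, one_mul]
          rw [e1, ← zpow_natCast f, hcast, ← mul_assoc (f ^ _), ← zpow_add, ← mul_assoc,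
            ← zpow_natCast g, ← hzz, mul_assoc, zpow_add_one]
          congr 2
          ring
        rcases Nat.eq_zero_or_pos (k : ℕ) with hk0 | hk0
        · refine ⟨g ^ (2 * M) * (f ^ ((j : ℕ) - b - 1) * (x * a)),
            rp_hit hpair b (2 * M) (2 * M) le_rfl _ (pairs_pre' hpair b _ hj1), ?_⟩
          rw [hq, hk0]
          have e1 : (f ^ ((((j : ℕ) : ℤ)) - 2 * b - 1) * g ^ (((2 * M : ℕ) : ℤ) + 1))⁻¹ *
              (f ^ ((j : ℕ) : ℤ) * g ^ (((0 : ℕ)) : ℤ)) = (g ^ m)⁻¹ * f ^ (n : ℤ) := by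
            have e2 : (((2 * M : ℕ) : ℤ) + 1) = m := by rw [hmdef]; push_cast; ring
            rw [e2, Nat.cast_zero, zpow_zero, mul_one, mul_inv_rev, mul_assoc, ← zpow_neg,
              ← zpow_neg, ← zpow_add]
            congr 2
            omega
          rw [e1]
          exact H.mul_mem (H.inv_mem hgm) hfH
        · refine ⟨g ^ ((k : ℕ) - 1) * (f ^ ((j : ℕ) - b - 1) * (x * a)),
            rp_hit hpair b (2 * M) ((k : ℕ) - 1) (by omega) _ (pairs_pre' hpair b _ hj1), ?_⟩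
          rw [hq]
          have e2 : ((((k : ℕ) - 1 : ℕ) : ℤ) + 1) = ((k : ℕ) : ℤ) := by omega
          rw [e2]
          have e1 : (f ^ ((((j : ℕ) : ℤ)) - 2 * b - 1) * g ^ ((k : ℕ) : ℤ))⁻¹ *
              (f ^ ((j : ℕ) : ℤ) * g ^ ((k : ℕ) : ℤ)) = f ^ (n : ℤ) := by
            rw [hzz, hzz, mul_inv_rev, mul_assoc, inv_mul_cancel_left, ← zpow_neg, ← zpow_add]
            congr 1
            omega
          rw [e1]
          exact hfH
  · intro E hHE haE
    have e1 : (rp x a b (2 * M) ++ pairs x a b).prod * a = g ^ m * (a⁻¹ * x⁻¹ * a) := by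
      rw [List.prod_append, rp_prod hpair, pairs_prod hpair]
      have e2 : m = ((2 * M : ℕ) : ℤ) + 1 := by rw [hmdef]; push_cast; ring
      rw [e2, zpow_add_one, zpow_natCast]
      have e3 : g = f ^ b * (x * a) := rfl
      conv_rhs => rw [mul_assoc (g ^ (2 * M))]
      rw [← e3]
      have e4 : g * (a⁻¹ * x⁻¹ * a) = f ^ b * a := by
        rw [e3]; group
      rw [e4, mul_assoc]
    rw [e1]
    exact E.mul_mem (hHE hgm) (haE _ (E.inv_mem (hHE hx)))
  · rw [List.length_append, rp_len, pairs_len, hb]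
    ring

end Pool.Agent.H268.CI
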