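import Pool.Agent.H268.CI.Defs

/-! Transfer of the library walk (class two) to the subgroup `C`. -/

namespace Pool.Agent.H268.CI

open Pool.Agent.H761J.Ham Pool.Agent.H761J.Nil

variable {G : Type*} [Group G] {D C : Subgroup G}

namespace T3

theorem pre_map_val {C : Subgroup G} (L : List C) :
    pre (L.map (fun x : C => (x : G))) = (pre L).map (fun x : C => (x : G)) := by
  induction L with
  | nil => simp [pre]
  | cons x L ih =>
    simp only [List.map_cons, pre, ih, List.map_map, Subgroup.coe_one]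
    congr 1

theorem prod_map_val {C : Subgroup G} (L : List C) :
    (L.map (fun x : C => (x : G))).prod = (L.prod : C) := by
  induction L with
  | nil => simp
  | cons x L ih => rw [List.map_cons, List.prod_cons, List.prod_cons, ih, Subgroup.coe_mul]

end T3

/-- Proof. Apply `Pool.Agent.H761J.Nil.walk_exists` in the group `↥C` (its hZ: for g h z in ↥C the commutator g⁻¹ h⁻¹ g h is in D and z ∈ C,
so they commute by CD.cent) with H' = H.subgroupOf C, W' = Subtype.val ⁻¹' W, a' = ⟨a, haC⟩ (W ⊆ H ≤ C). Closure of W' is H'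
(map back with Subgroup.map C.subtype, map_closure / closure of image). Take L = L'.map Subtype.val; pre (L.map val) = (pre L').map val;
transfer Cov (every element of closure (H ∪ {a}) is in C; closure in ↥C maps to closure in G); for E ≤ G use E.subgroupOf C. -/
theorem walk_c [Finite G] (h : CD D C) {H : Subgroup G} {W : Set G} (hWi : ∀ w ∈ W, w⁻¹ ∈ W)
    (hW0 : W.Nonempty) (hWg : Subgroup.closure W = H) {a : G} (haC : a ∈ C) (hHC : H ≤ C) :
    ∃ L : List G, (∀ t ∈ L, ∃ w ∈ W, t = w * a ∨ t = w * a⁻¹) ∧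
      Cov H L (Subgroup.closure ((H : Set G) ∪ {a}) : Subgroup G) ∧
      (∀ E : Subgroup G, H ≤ E → (∀ g ∈ E, a⁻¹ * g * a ∈ E) → L.prod * a ∈ E) := by
  have hWH : W ⊆ H := by rw [← hWg]; exact Subgroup.subset_closure
  have himg : C.subtype '' {w : C | (w : G) ∈ W} = W := by
    ext x
    constructor
    · rintro ⟨y, hy, rfl⟩
      exact hy
    · intro hx
      exact ⟨⟨x, hHC (hWH hx)⟩, hx, rfl⟩
  have hmapH : (H.subgroupOf C).map C.subtype = H := by
    rw [Subgroup.subgroupOf_map_subtype, inf_eq_left.mpr hHC]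
  have hgen : Subgroup.closure {w : C | (w : G) ∈ W} = H.subgroupOf C := by
    apply Subgroup.map_injective C.subtype_injective
    rw [MonoidHom.map_closure, himg, hmapH, hWg]
  have hZ : ∀ g h' z : C, (g⁻¹ * h'⁻¹ * g * h') * z = z * (g⁻¹ * h'⁻¹ * g * h') := by
    intro g h' z
    apply Subtype.ext
    exact (h.cent z z.2 _ (h.comm g h')).symm
  obtain ⟨L', h1, h2, h3⟩ := Pool.Agent.H761J.Nil.walk_exists hZ (H := H.subgroupOf C)
    (W := {w : C | (w : G) ∈ W}) (fun w hw => hWi _ hw)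
    (by obtain ⟨w, hw⟩ := hW0; exact ⟨⟨w, hHC (hWH hw)⟩, hw⟩) hgen ⟨a, haC⟩
  have himg2 : C.subtype '' (((H.subgroupOf C : Subgroup C) : Set C) ∪ {⟨a, haC⟩}) =
      (H : Set G) ∪ {a} := by
    ext x
    constructor
    · rintro ⟨y, hy | hy, rfl⟩
      · exact Or.inl hy
      · right
        rw [Set.mem_singleton_iff] at hy ⊢
        rw [hy]
        rfl
    · rintro (hx | hx)
      · exact ⟨⟨x, hHC hx⟩, Or.inl hx, rfl⟩
      · rw [Set.mem_singleton_iff] at hx
        subst hx
        exact ⟨⟨x, haC⟩, Or.inr rfl, rfl⟩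
  have hcl : (Subgroup.closure (((H.subgroupOf C : Subgroup C) : Set C) ∪ {⟨a, haC⟩})).map
      C.subtype = Subgroup.closure ((H : Set G) ∪ {a}) := by
    rw [MonoidHom.map_closure, himg2]
  have hmem : ∀ g : C, g ∈ Subgroup.closure (((H.subgroupOf C : Subgroup C) : Set C) ∪
      {⟨a, haC⟩}) ↔ (g : G) ∈ Subgroup.closure ((H : Set G) ∪ {a}) := by
    intro g
    rw [← hcl, Subgroup.mem_map]
    constructor
    · intro hg
      exact ⟨g, hg, rfl⟩
    · rintro ⟨x, hx, hxg⟩
      have : x = g := Subtype.ext hxg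
      rwa [← this]
  have hleC : Subgroup.closure ((H : Set G) ∪ {a}) ≤ C := by
    rw [Subgroup.closure_le]
    rintro x (hx | hx)
    · exact hHC hx
    · rw [Set.mem_singleton_iff] at hx
      subst hx
      exact haC
  refine ⟨L'.map (fun x : C => (x : G)), ?_, ⟨?_, ?_⟩, ?_⟩
  · intro t ht
    obtain ⟨t', ht', rfl⟩ := List.mem_map.mp ht
    obtain ⟨w, hw, hw'⟩ := h1 t' ht'
    refine ⟨w, hw, ?_⟩
    rcases hw' with hw' | hw'
    · left; rw [hw']; rfl
    · right; rw [hw']; rfl
  · rw [T3.pre_map_val, List.pairwise_map]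
    exact h2.dis.imp fun {p q} hpq hpq' => hpq (Subgroup.mem_subgroupOf.mpr hpq')
  · intro g
    rw [T3.pre_map_val]
    constructor
    · intro hg
      obtain ⟨p, hp, hpg⟩ := (h2.cov ⟨g, hleC hg⟩).mp ((hmem ⟨g, hleC hg⟩).mpr hg)
      exact ⟨p, List.mem_map_of_mem hp, hpg⟩
    · rintro ⟨p, hp, hpg⟩
      obtain ⟨p', hp', rfl⟩ := List.mem_map.mp hp
      have hgC : g ∈ C := by
        have : g = (p' : G) * ((p' : G)⁻¹ * g) := by group
        rw [this]
        exact C.mul_mem p'.2 (hHC hpg)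
      exact (hmem ⟨g, hgC⟩).mp ((h2.cov ⟨g, hgC⟩).mpr ⟨p', hp', Subgroup.mem_subgroupOf.mpr hpg⟩)
  · intro E hE hE'
    have h4 := h3 (E.subgroupOf C) (fun x hx => Subgroup.mem_subgroupOf.mpr (hE hx))
      (fun g hg => Subgroup.mem_subgroupOf.mpr (hE' g hg))
    rw [T3.prod_map_val]
    exact h4

end Pool.Agent.H268.CI
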