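import Pool.Agent.H268.CI.Defs

/-! Nested step, `H ≤ C`. -/

namespace Pool.Agent.H268.CI

open Pool.Agent.H761J.Ham Pool.Agent.H761J.Nil

variable {G : Type*} [Group G] {D C : Subgroup G}

namespace T4

variable {G : Type*} [Group G] {D C : Subgroup G}

/-- the exponents `j` with `f ^ j ∈ ⟨a⟩ (N ⊔ H)` -/
def Qd (H : Subgroup G) (a : G) (N : Subgroup G) (f : G) (j : ℤ) : Prop :=
  ∃ I : ℤ, (a ^ I)⁻¹ * f ^ j ∈ N ⊔ H

variable {H N : Subgroup G} {a f : G}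

theorem U_le (h : CD D C) (hHC : H ≤ C) (hND : N ≤ D) : N ⊔ H ≤ C :=
  sup_le (hND.trans h.le) hHC

theorem Q_zero : Qd H a N f 0 := ⟨0, by simp⟩

theorem Q_add (h : CD D C) (hHC : H ≤ C) (hND : N ≤ D) (hf : f ∈ D) (p q : ℤ)
    (hp : Qd H a N f p) (hq : Qd H a N f q) : Qd H a N f (p + q) := by
  obtain ⟨I, hI⟩ := hp
  obtain ⟨J, hJ⟩ := hq
  refine ⟨J + I, ?_⟩
  have hc := h.cent _ (U_le h hHC hND hJ) (f ^ p) (D.zpow_mem hf p)
  have e : (a ^ (J + I))⁻¹ * f ^ (p + q) = ((a ^ I)⁻¹ * f ^ p) * ((a ^ J)⁻¹ * f ^ q) := by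
    calc (a ^ (J + I))⁻¹ * f ^ (p + q)
        = (a ^ I)⁻¹ * (((a ^ J)⁻¹ * f ^ q) * f ^ p) := by
          rw [zpow_add, add_comm p q, zpow_add]; group
      _ = (a ^ I)⁻¹ * (f ^ p * ((a ^ J)⁻¹ * f ^ q)) := by rw [hc]
      _ = _ := by group
  rw [e]
  exact Subgroup.mul_mem _ hI hJ

theorem Q_neg (h : CD D C) (hHC : H ≤ C) (hND : N ≤ D) (hf : f ∈ D) (p : ℤ)
    (hp : Qd H a N f p) : Qd H a N f (-p) := by
  obtain ⟨I, hI⟩ := hp
  refine ⟨-I, ?_⟩
  have hfp : f ^ p ∈ D := D.zpow_mem hf p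
  have haI : a ^ I ∈ C := by
    have e : a ^ I = f ^ p * ((a ^ I)⁻¹ * f ^ p)⁻¹ := by group
    rw [e]
    exact C.mul_mem (h.le hfp) (C.inv_mem (U_le h hHC hND hI))
  have hc := h.cent _ haI (f ^ (-p)) (D.zpow_mem hf (-p))
  have e : (a ^ (-I))⁻¹ * f ^ (-p) = ((a ^ I)⁻¹ * f ^ p)⁻¹ := by
    calc (a ^ (-I))⁻¹ * f ^ (-p) = a ^ I * f ^ (-p) := by rw [zpow_neg, inv_inv]
      _ = f ^ (-p) * a ^ I := hc
      _ = _ := by rw [zpow_neg]; group
  rw [e]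
  exact Subgroup.inv_mem _ hI

theorem Q_eps (h : CD D C) (hHC : H ≤ C) (hND : N ≤ D) (hf : f ∈ D) {ε : ℤ}
    (hε : ε = 1 ∨ ε = -1) (j : ℤ) : Qd H a N f (ε * j) ↔ Qd H a N f j := by
  rcases hε with rfl | rfl
  · rw [one_mul]
  · rw [neg_one_mul]
    refine ⟨fun h1 => ?_, Q_neg h hHC hND hf j⟩
    have := Q_neg h hHC hND hf _ h1
    rwa [neg_neg] at this

theorem S_iff (h : CD D C) (hHC : H ≤ C) (hND : N ≤ D) (hf : f ∈ D) {s : G}
    (hs : s ∈ SN H a N) (j : ℤ) : f ^ j * s ∈ SN H a N ↔ Qd H a N f j := by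
  obtain ⟨I, hI⟩ := hs
  obtain ⟨ε, hε, -, -, -, hcomm⟩ := h.zpow_comm hf (a ^ I) j
  have e0 : f ^ j * s = a ^ I * f ^ (ε * j) * ((a ^ I)⁻¹ * s) := by
    rw [← hcomm]; group
  rw [← Q_eps h hHC hND hf hε j]
  constructor
  · rintro ⟨J, hJ⟩
    rw [e0] at hJ
    refine ⟨J - I, ?_⟩
    have e : (a ^ (J - I))⁻¹ * f ^ (ε * j) =
        ((a ^ J)⁻¹ * (a ^ I * f ^ (ε * j) * ((a ^ I)⁻¹ * s))) * ((a ^ I)⁻¹ * s)⁻¹ := by
      rw [sub_eq_neg_add, zpow_add, zpow_neg]; group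
    rw [e]
    exact Subgroup.mul_mem _ hJ (Subgroup.inv_mem _ hI)
  · rintro ⟨J, hJ⟩
    refine ⟨I + J, ?_⟩
    rw [e0]
    have e : (a ^ (I + J))⁻¹ * (a ^ I * f ^ (ε * j) * ((a ^ I)⁻¹ * s)) =
        ((a ^ J)⁻¹ * f ^ (ε * j)) * ((a ^ I)⁻¹ * s) := by
      rw [zpow_add]; group
    rw [e]
    exact Subgroup.mul_mem _ hJ hI

theorem gam_f (h : CD D C) (hHC : H ≤ C) (hND : N ≤ D) (hf : f ∈ D) {j : ℤ}
    (hj : Qd H a N f j) : f ^ j ∈ Gam H a N := by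
  apply gam_of
  · intro s hs
    exact (S_iff h hHC hND hf hs j).2 hj
  · intro s hs
    rw [← zpow_neg]
    exact (S_iff h hHC hND hf hs (-j)).2 (Q_neg h hHC hND hf j hj)

end T4

open T4 in
/-- Model: the library proof `Pool.Agent.H761J.Nil.st_step` (Nil5.lean), with the iteration `hit`. Proof.
f = fw a w ∈ D, S = SN H a N, U = N ⊔ H ≤ C (N ≤ D ≤ C). L = (w₁ a) :: L' (hS.hd), Γ = Gam H a N contains a, N, w₁, L.prod
(gam_a, gam_N, gam_w, St.prod_mem). N' = N ⊔ zpowers f.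
(1) Q j := ∃ I : ℤ, (a^I)⁻¹ f^j ∈ U is a subgroup of ℤ (`int_gen`; orderOf f ∈ Q, f ≠ .. finite): if f^j = a^I u then a^I = f^j u⁻¹ ∈ C
commutes with f, so f^(j+j') = a^I' f^j u' = a^(I'+I) u u', and f^(-j) = a^(-I) u⁻¹ (f^j commutes with a^I, so u a^I = f^j).
So Q j ↔ k₀ ∣ j. Q j ↔ f^j ∈ Γ: if f^(±j) = a^Δ v, v ∈ U then f^j a^I u = a^I f^(±j) u = a^(I+Δ) v u; conversely apply to 1 ∈ S.
If s ∈ S and f^j s ∈ S then Q j (s = a^I u, f^j s = a^I f^(±j) u = a^I' u', so f^(±j) ∈ a^(I'-I) U).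
(2) Iteration for k < k₀: ∃ M, steps ok (Wk.step and stepN for N'), M = (w₁ a) :: M', M.prod = f^k γ with γ ∈ Γ,
Cov H M {g | ∃ i ≤ k, (f^i)⁻¹ g ∈ S}, X and EV (as in Wk) for M, M.length + 1 = (k+1) (L.length+1).
 k = 0: M = L. Step: M⁺ = M ++ (w a) :: ((w⁻¹ a) :: L'). By X for M with E = C (H ≤ C; a⁻¹ C a ≤ C: CD.Cconj'): M.prod a ∈ C, so γ a ∈ C
 commutes with f. w ∈ H ≤ C commutes with f, so w a w⁻¹ = a (a⁻¹ w a) w⁻¹ = a w f w⁻¹ = a f. `cov_head` gives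
 Cov H ((w⁻¹ a)::L') {g | (w₁ w) g ∈ S}; (w₁ w) (M.prod w a)⁻¹ g = w₁ (a f)⁻¹ γ⁻¹ f^(-k) g = w₁ (γ a)⁻¹ f^(-(k+1)) g: in S iff
 f^(-(k+1)) g ∈ S (w₁, γ a ∈ Γ). Disjointness from (1): 0 < k+1-i < k₀. `cov_concat`.
 M⁺.prod = f^k γ (w a w⁻¹) a L'.prod = f^(k+1) (γ a w₁⁻¹ L.prod).
 X: M⁺.prod a = (M.prod a)(a⁻¹ w a)(w₁ w)⁻¹ (L.prod a) ∈ E.
 EV: use evr_append: EVr for M; the step w a is taken at M.prod ∉ E (since M.prod a ∈ E and a ∉ E); then position M.prod w a =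
 (M.prod a)(a⁻¹ w a) ∈ E and the step w⁻¹ a is of the required form; then L' starts at M.prod w a w⁻¹ a ≡ a ≡ w₁ a modulo E on the left
 (E p: M.prod w a w⁻¹ ∈ E, w₁ ∈ E), so EVr for L' follows from EVr for L = (w₁ a)::L' at 1 (evr_mem).
(3) k = k₀ - 1: {g | ∃ i < k₀, (f^i)⁻¹ g ∈ S} = SN H a N': ⊆: f^i a^I u = a^I f^(±i) u. ⊇: a^I ν' h with ν' = ν f^j: = f^(±j) (a^I ν h), and reduce
 the exponent mod k₀ (f^(k₀) ∈ Γ). len: (fw a x)^(L.length+1) ∈ H implies the power (k₀ (L.length+1)). NK: f ∈ closure (H ∪ {a}). -/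
theorem ns1 [Finite G] (h : CD D C) {H : Subgroup G} {W : Set G} (hWH : W ⊆ H)
    (hWi : ∀ w ∈ W, w⁻¹ ∈ W) {a x : G} (hHC : H ≤ C) {N : Subgroup G} {L : List G}
    (hS : St D H W a x N L) {w : G} (hw : w ∈ W) :
    ∃ N' L', St D H W a x N' L' ∧ N ≤ N' ∧ fw a w ∈ N' := by
  classical
  obtain ⟨f, hfdef⟩ : ∃ f, f = fw a w := ⟨_, rfl⟩
  have hf : f ∈ D := by rw [hfdef]; exact fw_mem h a w
  have hND := hS.ND
  have hwH : w ∈ H := hWH hw
  have hwC : w ∈ C := hHC hwH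
  obtain ⟨w₁, L', hL, hw₁W, hw₁N⟩ := hS.hd
  have hw₁H : w₁ ∈ H := hWH hw₁W
  have hw₁Γ : w₁ ∈ Gam H a N := gam_w h hND hw₁H hw₁N
  have haΓ : a ∈ Gam H a N := gam_a
  have hLΓ : L.prod ∈ Gam H a N := hS.prod_mem h hWH
  have hwa : w * a * w⁻¹ = a * f := by
    have h1 : w * a = a * w * f := by rw [hfdef]; unfold fw; group
    have h2 : w⁻¹ * f = f * w⁻¹ := h.cent _ (C.inv_mem hwC) f hf
    calc w * a * w⁻¹ = a * w * (f * w⁻¹) := by rw [h1]; group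
      _ = a * w * (w⁻¹ * f) := by rw [h2]
      _ = a * f := by group
  obtain ⟨k₀, hk0, hk⟩ := int_gen (Qd H a N f) Q_zero (Q_add h hHC hND hf)
    (Q_neg h hHC hND hf) (orderOf f : ℤ)
    ⟨0, by rw [zpow_natCast, pow_orderOf_eq_one]; simp⟩
    (by have := orderOf_pos f; omega)
  have hNN' : N ≤ N ⊔ Subgroup.zpowers f := le_sup_left
  have hfN' : f ∈ N ⊔ Subgroup.zpowers f := Subgroup.mem_sup_right (Subgroup.mem_zpowers f)
  -- the iteration
  have hit : ∀ k : ℕ, k < k₀ → ∃ M : List G,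
      (∀ t ∈ M, ∃ v ∈ W, fw a v ∈ N ⊔ Subgroup.zpowers f ∧ (t = v * a ∨ t = v * a⁻¹)) ∧
      (∃ M', M = (w₁ * a) :: M') ∧
      (∃ γ ∈ Gam H a N, M.prod = f ^ k * γ) ∧
      Cov H M {g | ∃ i : ℕ, i ≤ k ∧ (f ^ i)⁻¹ * g ∈ SN H a N} ∧
      (∀ E : Subgroup G, H ≤ E → (∀ g ∈ E, a⁻¹ * g * a ∈ E) → M.prod * a ∈ E) ∧
      (∀ E : Subgroup G, H ≤ E → (∀ g ∈ E, a⁻¹ * g * a ∈ E) → a ∉ E → a * a ∈ E →
        EVr E (fun t => ∃ w ∈ W, t = w * a) 1 M) ∧
      M.length + 1 = (k + 1) * (L.length + 1) := by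
    intro k
    induction k with
    | zero =>
      intro _
      refine ⟨L, fun t ht => ?_, ⟨L', hL⟩, ⟨L.prod, hLΓ, by simp⟩, hS.cov.congr ?_, hS.wk.X,
        hS.wk.EV, by ring⟩
      · obtain ⟨v, hv, h1, h2⟩ := hS.stepN t ht
        exact ⟨v, hv, hNN' h1, h2⟩
      · intro g
        simp only [Set.mem_ofPred_eq]
        constructor
        · rintro ⟨i, hi, hg⟩
          obtain rfl : i = 0 := by omega
          simpa using hg
        · intro hg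
          exact ⟨0, le_refl _, by simpa using hg⟩
    | succ k ih =>
      intro hklt
      obtain ⟨M, hM1, ⟨M', hM2⟩, ⟨γk, hγk, hM3⟩, hM4, hM5, hM6, hM7⟩ := ih (by omega)
      have hcov2 := cov_head hw₁H hwH (hL ▸ hS.cov)
      -- `γ a` commutes with `f`
      have hγaC : γk * a ∈ C := by
        have h1 := hM5 C hHC (fun g hg => h.Cconj' a hg)
        rw [hM3] at h1
        have e : γk * a = (f ^ k)⁻¹ * (f ^ k * γk * a) := by group
        rw [e]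
        exact C.mul_mem (C.inv_mem (h.le (D.pow_mem hf k))) h1
      have hγaf : (γk * a) * f = f * (γk * a) := h.cent _ hγaC f hf
      have hγaΓ : γk * a ∈ Gam H a N := Subgroup.mul_mem _ hγk haΓ
      have hMwa : M.prod * (w * a) * w⁻¹ = f ^ (k + 1) * (γk * a) := by
        rw [hM3]
        calc f ^ k * γk * (w * a) * w⁻¹ = f ^ k * γk * (w * a * w⁻¹) := by group
          _ = f ^ k * ((γk * a) * f) := by rw [hwa]; group
          _ = f ^ (k + 1) * (γk * a) := by rw [hγaf, pow_succ]; group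
      -- the key computation
      have key : ∀ g : G, (w₁ * w) * ((M.prod * (w * a))⁻¹ * g) =
          (w₁ * (γk * a)⁻¹) * ((f ^ (k + 1))⁻¹ * g) := by
        intro g
        have e1 : (w₁ * w) * ((M.prod * (w * a))⁻¹ * g) =
            w₁ * (M.prod * (w * a) * w⁻¹)⁻¹ * g := by group
        rw [e1, hMwa]
        group
      have hconst : w₁ * (γk * a)⁻¹ ∈ Gam H a N :=
        Subgroup.mul_mem _ hw₁Γ (Subgroup.inv_mem _ hγaΓ)
      have hmemS2 : ∀ g : G, ((M.prod * (w * a))⁻¹ * g) ∈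
          {g | (w₁ * w) * g ∈ SN H a N} ↔ (f ^ (k + 1))⁻¹ * g ∈ SN H a N := by
        intro g
        simp only [Set.mem_ofPred_eq]
        rw [key]
        exact (mem_gam.1 hconst _).symm
      have hd : ∀ g ∈ {g | ∃ i : ℕ, i ≤ k ∧ (f ^ i)⁻¹ * g ∈ SN H a N},
          (M.prod * (w * a))⁻¹ * g ∉ {g | (w₁ * w) * g ∈ SN H a N} := by
        rintro g ⟨i, hi, hg⟩ hcon
        rw [hmemS2] at hcon
        have h1 : Qd H a N f ((k + 1 - i : ℕ) : ℤ) := by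
          rw [← S_iff h hHC hND hf hcon]
          have h4 : f ^ ((k + 1 - i : ℕ) : ℤ) * ((f ^ (k + 1))⁻¹ * g) = (f ^ i)⁻¹ * g := by
            have h5 : f ^ ((k + 1 - i : ℕ) : ℤ) * (f ^ (k + 1))⁻¹ = (f ^ i)⁻¹ := by
              rw [← zpow_natCast f (k + 1), ← zpow_natCast f i, ← zpow_neg, ← zpow_neg,
                ← zpow_add]
              congr 1
              omega
            rw [← mul_assoc, h5]
          rw [h4]; exact hg
        rw [hk] at h1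
        have := Int.le_of_dvd (by omega) h1
        omega
      have hcov := cov_concat (s := w * a) hM4 hcov2 hd
      refine ⟨M ++ (w * a) :: ((w⁻¹ * a) :: L'), ?_, ?_, ?_, hcov.congr ?_, ?_, ?_, ?_⟩
      · have hfwi : fw a w⁻¹ ∈ N ⊔ Subgroup.zpowers f := by
          have e : fw a w⁻¹ = f⁻¹ := by
            have e1 : fw a w⁻¹ = (w * a * w⁻¹)⁻¹ * a := by unfold fw; group
            rw [e1, hwa]; group
          rw [e]
          exact Subgroup.inv_mem _ hfN'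
        intro t ht
        simp only [List.mem_append, List.mem_cons] at ht
        rcases ht with ht | rfl | rfl | ht
        · exact hM1 t ht
        · exact ⟨w, hw, by rw [← hfdef]; exact hfN', Or.inl rfl⟩
        · exact ⟨w⁻¹, hWi w hw, hfwi, Or.inl rfl⟩
        · obtain ⟨v, hv, h1, h2⟩ := hS.stepN t (by rw [hL]; exact List.mem_cons_of_mem _ ht)
          exact ⟨v, hv, hNN' h1, h2⟩
      · exact ⟨M' ++ (w * a) :: ((w⁻¹ * a) :: L'), by rw [hM2]; rfl⟩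
      · refine ⟨(γk * a) * (w₁⁻¹ * L.prod), Subgroup.mul_mem _ hγaΓ
          (Subgroup.mul_mem _ (Subgroup.inv_mem _ hw₁Γ) hLΓ), ?_⟩
        rw [List.prod_append, List.prod_cons, List.prod_cons]
        have h1 : L.prod = w₁ * a * L'.prod := by rw [hL, List.prod_cons]
        rw [h1]
        calc M.prod * (w * a * (w⁻¹ * a * L'.prod))
            = (M.prod * (w * a) * w⁻¹) * (a * L'.prod) := by group
          _ = f ^ (k + 1) * (γk * a) * (a * L'.prod) := by rw [hMwa]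
          _ = _ := by group
      · intro g
        simp only [Set.mem_ofPred_eq]
        have h1 := hmemS2 g
        simp only [Set.mem_ofPred_eq] at h1
        rw [h1]
        constructor
        · rintro ⟨i, hi, hg⟩
          rcases Nat.lt_or_ge k i with hki | hki
          · obtain rfl : i = k + 1 := by omega
            exact Or.inr hg
          · exact Or.inl ⟨i, hki, hg⟩
        · rintro (⟨i, hi, hg⟩ | hg)
          · exact ⟨i, by omega, hg⟩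
          · exact ⟨k + 1, le_refl _, hg⟩
      · intro E hHE hE
        have h1 : (M ++ (w * a) :: ((w⁻¹ * a) :: L')).prod * a =
            (M.prod * a) * (a⁻¹ * w * a) * (w₁ * w)⁻¹ * (L.prod * a) := by
          rw [List.prod_append, List.prod_cons, List.prod_cons, hL, List.prod_cons]
          group
        rw [h1]
        exact E.mul_mem (E.mul_mem (E.mul_mem (hM5 E hHE hE) (hE w (hHE hwH)))
          (E.inv_mem (hHE (H.mul_mem hw₁H hwH)))) (hS.wk.X E hHE hE)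
      · intro E hHE hE haE haaE
        rw [evr_append]
        refine ⟨hM6 E hHE hE haE haaE, ?_⟩
        have h1 := hS.wk.EV E hHE hE haE haaE
        rw [hL] at h1
        refine ⟨fun _ => ⟨w, hw, rfl⟩, fun _ => ⟨w⁻¹, hWi w hw, rfl⟩, ?_⟩
        refine (evr_mem ?_ L').2 h1.2
        have e : 1 * M.prod * (w * a) * (w⁻¹ * a) * (1 * (w₁ * a))⁻¹ =
            (M.prod * a) * (a⁻¹ * w * a) * w⁻¹ * w₁⁻¹ := by group
        rw [e]
        exact E.mul_mem (E.mul_mem (E.mul_mem (hM5 E hHE hE) (hE w (hHE hwH)))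
          (E.inv_mem (hHE hwH))) (E.inv_mem (hHE hw₁H))
      · have h1 : L.length = L'.length + 1 := by rw [hL]; rfl
        rw [List.length_append, List.length_cons, List.length_cons]
        have e : (k + 1 + 1) * (L.length + 1) = (k + 1) * (L.length + 1) + (L.length + 1) := by
          ring
        rw [e, ← hM7, h1]
        ring
  obtain ⟨M, hM1, ⟨M', hM2⟩, -, hM4, hM5, hM6, hM7⟩ := hit (k₀ - 1) (by omega)
  have hN'D : N ⊔ Subgroup.zpowers f ≤ D := sup_le hND (by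
    rw [Subgroup.zpowers_le]; exact hf)
  have haK : a ∈ Subgroup.closure ((H : Set G) ∪ {a}) := Subgroup.subset_closure (by simp)
  have hwK : w ∈ Subgroup.closure ((H : Set G) ∪ {a}) :=
    Subgroup.subset_closure (Or.inl hwH)
  refine ⟨N ⊔ Subgroup.zpowers f, M, ⟨⟨fun t ht => ?_, hM5, hM6⟩, hN'D, ?_, hNN' hS.fx, hM1,
    ⟨w₁, M', hM2, hw₁W, hNN' hw₁N⟩, hM4.congr ?_, ?_⟩, hNN', hfdef ▸ hfN'⟩
  · obtain ⟨v, hv, -, h2⟩ := hM1 t ht
    exact ⟨v, hv, h2⟩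
  · refine sup_le hS.NK ?_
    rw [Subgroup.zpowers_le, hfdef]
    exact Subgroup.mul_mem _ (Subgroup.mul_mem _ (Subgroup.mul_mem _
      (Subgroup.inv_mem _ hwK) (Subgroup.inv_mem _ haK)) hwK) haK
  · intro g
    simp only [Set.mem_ofPred_eq]
    constructor
    · rintro ⟨I, hI⟩
      obtain ⟨ν', hν', hg⟩ := (h.mem_sup hN'D).1 hI
      obtain ⟨ν, hν, hνz⟩ := (h.mem_sup hND).1 hν'
      obtain ⟨j, hj⟩ := Subgroup.mem_zpowers_iff.1 hνz
      -- `g = a^I ν f^j h₀`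
      have hνf : ν * f ^ j = f ^ j * ν := h.Dc (hND hν) (D.zpow_mem hf j)
      obtain ⟨ε, hε, -, -, hcomm, -⟩ := h.zpow_comm hf (a ^ I) j
      set r : ℤ := (ε * j) % k₀ with hr
      set q : ℤ := (ε * j) / k₀ with hq
      have hr0 : 0 ≤ r := Int.emod_nonneg _ (by omega)
      have hrk : r < k₀ := Int.emod_lt_of_pos _ (by omega)
      have hs : a ^ I * (ν * (ν'⁻¹ * ((a ^ I)⁻¹ * g))) ∈ SN H a N := by
        refine ⟨I, ?_⟩
        rw [inv_mul_cancel_left]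
        exact Subgroup.mul_mem _ (Subgroup.mem_sup_left hν) (Subgroup.mem_sup_right hg)
      refine ⟨r.toNat, by omega, ?_⟩
      have h2 : f ^ r.toNat = f ^ r := by
        rw [← zpow_natCast, Int.toNat_of_nonneg hr0]
      have e1 : g = f ^ (ε * j) * (a ^ I * (ν * (ν'⁻¹ * ((a ^ I)⁻¹ * g)))) := by
        have e2 : ν' = f ^ j * ν := by
          rw [← hνf, hj]; group
        calc g = a ^ I * (ν' * (ν'⁻¹ * ((a ^ I)⁻¹ * g))) := by group
          _ = a ^ I * ((f ^ j * ν) * (ν'⁻¹ * ((a ^ I)⁻¹ * g))) := by rw [← e2]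
          _ = (a ^ I * f ^ j) * (ν * (ν'⁻¹ * ((a ^ I)⁻¹ * g))) := by group
          _ = _ := by rw [hcomm]; group
      have e3 : (f ^ r)⁻¹ * g = f ^ ((k₀ : ℤ) * q) *
          (a ^ I * (ν * (ν'⁻¹ * ((a ^ I)⁻¹ * g)))) := by
        have e4 : (k₀ : ℤ) * q = -r + ε * j := by
          have := Int.emod_add_mul_ediv (ε * j) k₀
          rw [← hr, ← hq] at this
          linarith
        rw [e4, zpow_add, zpow_neg]
        conv_lhs => rw [e1]
        group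
      rw [h2, e3]
      exact (S_iff h hHC hND hf hs _).2 ((hk _).2 (dvd_mul_right _ _))
    · rintro ⟨i, hi, I, hI⟩
      obtain ⟨ε, hε, -, -, -, hcomm⟩ := h.zpow_comm hf (a ^ I) (i : ℤ)
      refine ⟨I, ?_⟩
      have e : (a ^ I)⁻¹ * g = f ^ (ε * (i : ℤ)) * ((a ^ I)⁻¹ * ((f ^ i)⁻¹ * g)) := by
        calc (a ^ I)⁻¹ * g = (a ^ I)⁻¹ * (f ^ (i : ℤ) * a ^ I) * ((a ^ I)⁻¹ * ((f ^ i)⁻¹ * g)) := by
              rw [zpow_natCast]; group
          _ = _ := by rw [hcomm]; group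
      rw [e]
      refine Subgroup.mul_mem _ (Subgroup.mem_sup_left (Subgroup.zpow_mem _ hfN' _)) ?_
      exact sup_le_sup_right hNN' H hI
  · rw [hM7]
    have e : k₀ - 1 + 1 = k₀ := by omega
    rw [e, mul_comm, pow_mul]
    exact H.pow_mem hS.len _


end Pool.Agent.H268.CI
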