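import Pool.Agent.H268.CI.Defs

/-! Nested step, `H` not in `C`. -/

namespace Pool.Agent.H268.CI

open Pool.Agent.H761J.Ham Pool.Agent.H761J.Nil

variable {G : Type*} [Group G] {D C : Subgroup G}

namespace T5

/-- the square of `f = fw a w` is in `N ⊔ H` -/
theorem sq_mem (h : CD D C) {H N : Subgroup G} (hN : N ≤ D) {a x w : G} (haC : a ∉ C)
    (hx : x ∈ H) (hxC : x ∉ C) (hw : w ∈ H) (hd : fw a x ∈ N) :
    fw a w * fw a w ∈ N ⊔ H := by
  set f : G := fw a w with hf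
  set d : G := fw a x with hdd
  set δ : G := w⁻¹ * x⁻¹ * w * x with hδ
  have hfD : f ∈ D := fw_mem h a w
  have hdD : d ∈ D := hN hd
  have hδD : δ ∈ D := h.comm w x
  have hδH : δ ∈ H := H.mul_mem (H.mul_mem (H.mul_mem (H.inv_mem hw) (H.inv_mem hx)) hw) hx
  have hνN : w⁻¹ * d * w ∈ N := h.norm' hN w hd
  have e1 : x⁻¹ * f * x = f⁻¹ := by
    have := h.inv x hxC f⁻¹ (D.inv_mem hfD)
    rw [inv_inv] at this
    rw [mul_assoc, ← this]; group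
  have e2 : a⁻¹ * δ * a = δ⁻¹ := by
    have := h.inv a haC δ⁻¹ (D.inv_mem hδD)
    rw [inv_inv] at this
    rw [mul_assoc, ← this]; group
  have e3 : x⁻¹ * f * x = δ⁻¹ * (w⁻¹ * d * w) * f * (a⁻¹ * δ * a) * d⁻¹ := by
    rw [hf, hdd, hδ]; unfold fw; group
  rw [e1, e2] at e3
  -- `f⁻¹ = δ⁻¹ ν f δ⁻¹ d⁻¹`
  have c1 : f * δ⁻¹ = δ⁻¹ * f := h.Dc hfD (D.inv_mem hδD)
  have e4 : f⁻¹ = δ⁻¹ * (w⁻¹ * d * w) * δ⁻¹ * d⁻¹ * f := by
    rw [e3]
    have c2 : f * d⁻¹ = d⁻¹ * f := h.Dc hfD (D.inv_mem hdD)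
    calc δ⁻¹ * (w⁻¹ * d * w) * f * δ⁻¹ * d⁻¹ = δ⁻¹ * (w⁻¹ * d * w) * (f * δ⁻¹) * d⁻¹ := by
          simp only [mul_assoc]
      _ = δ⁻¹ * (w⁻¹ * d * w) * δ⁻¹ * (f * d⁻¹) := by rw [c1]; simp only [mul_assoc]
      _ = _ := by rw [c2]; simp only [mul_assoc]
  have e5 : f * f = (δ⁻¹ * (w⁻¹ * d * w) * δ⁻¹ * d⁻¹)⁻¹ := by
    have : (f * f)⁻¹ = δ⁻¹ * (w⁻¹ * d * w) * δ⁻¹ * d⁻¹ := by
      rw [mul_inv_rev]
      nth_rewrite 1 [e4]
      group
    rw [← this, inv_inv]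
  rw [e5]
  exact Subgroup.inv_mem _ (Subgroup.mul_mem _ (Subgroup.mul_mem _ (Subgroup.mul_mem _
    (Subgroup.inv_mem _ (Subgroup.mem_sup_right hδH)) (Subgroup.mem_sup_left hνN))
    (Subgroup.inv_mem _ (Subgroup.mem_sup_right hδH))) (Subgroup.inv_mem _
    (Subgroup.mem_sup_left hd)))

/-- powers of `a` move across `f` -/
theorem conj_cases (h : CD D C) {f : G} (hf : f ∈ D) (g : G) :
    g⁻¹ * f * g = f ∨ g⁻¹ * f * g = f⁻¹ := by
  have := h.conj hf g⁻¹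
  rwa [inv_inv] at this

/-- `f` stabilises `SN H a N` if `SN H a N` and `f SN H a N` are not disjoint -/
theorem gam_of_meet (h : CD D C) {H N : Subgroup G} {a f s : G} (hfD : f ∈ D)
    (hff : f * f ∈ N ⊔ H) (hs : s ∈ SN H a N) (hfs : f * s ∈ SN H a N) : f ∈ Gam H a N := by
  obtain ⟨I, hI⟩ := hs
  obtain ⟨J, hJ⟩ := hfs
  set U : Subgroup G := N ⊔ H with hU
  -- `f ^ ε ∈ a ^ Δ U`
  have h1 : (a ^ (J - I))⁻¹ * ((a ^ I)⁻¹ * f * a ^ I) ∈ U := by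
    have e : (a ^ (J - I))⁻¹ * ((a ^ I)⁻¹ * f * a ^ I) =
        ((a ^ J)⁻¹ * (f * s)) * ((a ^ I)⁻¹ * s)⁻¹ := by
      have : (a ^ (J - I))⁻¹ * (a ^ I)⁻¹ = (a ^ J)⁻¹ := by
        rw [← mul_inv_rev, ← zpow_add]; congr 2; ring
      rw [← mul_assoc, ← mul_assoc, this]; group
    rw [e]; exact U.mul_mem hJ (U.inv_mem hI)
  have h2 : (a ^ (J - I))⁻¹ * f ∈ U ∧ (a ^ (J - I))⁻¹ * f⁻¹ ∈ U := by
    rcases conj_cases h hfD (a ^ I) with e | e
    · rw [e] at h1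
      refine ⟨h1, ?_⟩
      have e2 : (a ^ (J - I))⁻¹ * f⁻¹ = ((a ^ (J - I))⁻¹ * f) * (f * f)⁻¹ := by group
      rw [e2]; exact U.mul_mem h1 (U.inv_mem hff)
    · rw [e] at h1
      refine ⟨?_, h1⟩
      have e2 : (a ^ (J - I))⁻¹ * f = ((a ^ (J - I))⁻¹ * f⁻¹) * (f * f) := by group
      rw [e2]; exact U.mul_mem h1 hff
  have h3 : ∀ φ : G, (φ = f ∨ φ = f⁻¹) → ∀ s ∈ SN H a N, φ * s ∈ SN H a N := by
    rintro φ hφ s ⟨K, hK⟩
    have hφ' : (a ^ K)⁻¹ * φ * a ^ K = f ∨ (a ^ K)⁻¹ * φ * a ^ K = f⁻¹ := by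
      rcases hφ with rfl | rfl
      · exact conj_cases h hfD (a ^ K)
      · rcases conj_cases h (D.inv_mem hfD) (a ^ K) with e | e
        · exact Or.inr e
        · rw [inv_inv] at e; exact Or.inl e
    have hφU : (a ^ (J - I))⁻¹ * ((a ^ K)⁻¹ * φ * a ^ K) ∈ U := by
      rcases hφ' with e | e
      · rw [e]; exact h2.1
      · rw [e]; exact h2.2
    refine ⟨K + (J - I), ?_⟩
    have e : (a ^ (K + (J - I)))⁻¹ * (φ * s) =
        ((a ^ (J - I))⁻¹ * ((a ^ K)⁻¹ * φ * a ^ K)) * ((a ^ K)⁻¹ * s) := by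
      rw [zpow_add, mul_inv_rev]; group
    rw [e]; exact U.mul_mem hφU hK
  exact gam_of (h3 f (Or.inl rfl)) (h3 f⁻¹ (Or.inr rfl))

theorem sn_mono {H N N' : Subgroup G} {a : G} (hNN : N ≤ N') {s : G} (hs : s ∈ SN H a N) :
    s ∈ SN H a N' := by
  obtain ⟨I, hI⟩ := hs
  exact ⟨I, sup_le_sup_right hNN H hI⟩

/-- `SN H a (N ⊔ ⟨f⟩)` -/
theorem sn_new (h : CD D C) {H N : Subgroup G} (hN : N ≤ D) {a f : G} (hfD : f ∈ D)
    (hff : f * f ∈ N ⊔ H) (g : G) :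
    g ∈ SN H a (N ⊔ Subgroup.zpowers f) ↔ g ∈ SN H a N ∨ f⁻¹ * g ∈ SN H a N := by
  have hN' : N ⊔ Subgroup.zpowers f ≤ D := sup_le hN (by rw [Subgroup.zpowers_le]; exact hfD)
  have hffG : f * f ∈ Gam H a N := gam_D h (D.mul_mem hfD hfD) hff
  constructor
  · rintro ⟨I, hI⟩
    rw [h.mem_sup hN'] at hI
    obtain ⟨ν', hν', hu⟩ := hI
    have h1 : ∃ ν ∈ N, ∃ j : ℤ, ν' = ν * f ^ j := by
      have hNn : ∀ p ∈ N ⊔ Subgroup.zpowers f, ∃ ν ∈ N, ν⁻¹ * p ∈ Subgroup.zpowers f := by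
        intro p hp; exact (h.mem_sup hN).1 hp
      obtain ⟨ν, hν, hp⟩ := hNn ν' hν'
      obtain ⟨j, hj⟩ := Subgroup.mem_zpowers_iff.1 hp
      exact ⟨ν, hν, j, by rw [hj]; group⟩
    obtain ⟨ν, hν, j, rfl⟩ := h1
    have hνG : ν ∈ Gam H a N := gam_N h hN hν
    have hff' : ∀ q : ℤ, f ^ (2 * q) ∈ Gam H a N := by
      intro q
      rw [zpow_mul, zpow_two]
      exact Subgroup.zpow_mem _ hffG q
    -- the element of `H`
    set u : G := (ν * f ^ j)⁻¹ * ((a ^ I)⁻¹ * g) with hu0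
    have huS : u ∈ SN H a N := sn_sup (Subgroup.mem_sup_right hu)
    have hg : g = a ^ I * ν * f ^ j * u := by rw [hu0]; group
    obtain ⟨q, hq | hq⟩ := Int.even_or_odd' j
    · left
      rw [hg, hq]
      exact (mem_gam.1 (Subgroup.mul_mem _ (Subgroup.mul_mem _ (Subgroup.zpow_mem _ gam_a I)
        hνG) (hff' q)) u).1 huS
    · right
      -- `g = γ f u`, `γ = a ^ I ν f ^ (2 q)`
      set γ : G := a ^ I * ν * f ^ (2 * q) with hγ
      have hγG : γ ∈ Gam H a N := Subgroup.mul_mem _ (Subgroup.mul_mem _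
        (Subgroup.zpow_mem _ gam_a I) hνG) (hff' q)
      have hg2 : g = γ * f * u := by
        rw [hg, hq, hγ, zpow_add, zpow_one]; simp only [mul_assoc]
      rcases h.conj hfD γ with e | e
      · -- `γ f = f γ`
        have : f⁻¹ * g = γ * u := by
          rw [hg2]
          have e2 : γ * f = f * γ := by
            calc γ * f = (γ * f * γ⁻¹) * γ := by group
              _ = f * γ := by rw [e]
          rw [e2]; group
        rw [this]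
        exact (mem_gam.1 hγG u).1 huS
      · have : f⁻¹ * g = (f * f)⁻¹ * γ * u := by
          rw [hg2]
          have e2 : γ * f = f⁻¹ * γ := by
            calc γ * f = (γ * f * γ⁻¹) * γ := by group
              _ = f⁻¹ * γ := by rw [e]
          rw [e2]; group
        rw [this]
        exact (mem_gam.1 (Subgroup.mul_mem _ (Subgroup.inv_mem _ hffG) hγG) u).1 huS
  · have hfG : f ∈ Gam H a (N ⊔ Subgroup.zpowers f) :=
      gam_N h hN' (Subgroup.mem_sup_right (Subgroup.mem_zpowers f))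
    rintro (hg | hg)
    · exact sn_mono le_sup_left hg
    · have := (mem_gam.1 hfG _).1 (sn_mono (le_sup_left : N ≤ N ⊔ Subgroup.zpowers f) hg)
      rwa [mul_inv_cancel_left] at this

end T5

open T5

/-- Model: the library proof `Pool.Agent.H761J.Nil.st_step` (Nil5.lean), but at most one additional block is needed. Proof.
f = fw a w ∈ D, d = fw a x ∈ N (hS.fx), S = SN H a N, U = N ⊔ H, L = (w₁ a) :: L' (hS.hd), Γ = Gam H a N contains a, N, w₁, L.prod.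
N' = N ⊔ zpowers f (or N' = N if fw a w ∈ N).
(1) f * f ∈ U: let δ = w⁻¹ x⁻¹ w x ∈ D ⊓ H, so x⁻¹ w x = w δ; x⁻¹ a x = a d⁻¹ (d⁻¹ = a⁻¹ x⁻¹ a x). x ∉ C inverts f:
f⁻¹ = x⁻¹ f x = (w δ)⁻¹ (a d⁻¹)⁻¹ (w δ) (a d⁻¹) = δ⁻¹ (w⁻¹ d w) (w⁻¹ a⁻¹ w a) (a⁻¹ δ a) d⁻¹ = δ⁻² (w⁻¹ d w) d⁻¹ f (D is abelian, a ∉ C inverts δ).
If w ∈ C: f² = δ² ∈ H. If w ∉ C: w⁻¹ d w = d⁻¹, f² = δ² d² ∈ U.
So f * f ∈ Γ (gam_D), f⁻¹ ∈ f U.
(2) If f ∈ Γ, then take L' := L and N' := N ⊔ zpowers f: SN H a N' = S (as a set; a^I ν f^j h = f^(±j) (a^I ν h)). All fields carry over (fw a w ∈ N').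
(3) If f ∉ Γ then S and f S are disjoint: if s = a^I u ∈ S and f s ∈ S then f^(±1) ∈ a^Δ U, and f^(±1) U = f U, so f a^J U = a^J f^(±1) U = a^(J+Δ) U
for all J, also f⁻¹ a^J U = a^J f^(∓1) U = a^(J+Δ) U, so f ∈ Γ (gam_of).
Take L⁺ = L ++ (w a) :: ((w⁻¹ a) :: L'). `cov_head` gives Cov H ((w⁻¹ a)::L') {g | (w₁ w) g ∈ S}; (w₁ w) (L.prod w a)⁻¹ g = w₁ (w a w⁻¹)⁻¹ L.prod⁻¹ g,
w a w⁻¹ = a (a⁻¹ w a) w⁻¹ = a w f w⁻¹ = a f^(±1), (a f^(±1))⁻¹ L.prod⁻¹ g = f^(∓1) (a⁻¹ L.prod⁻¹) g = (a⁻¹ L.prod⁻¹) f^(±1) g, so it is in S iff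
f^(±1) g ∈ S iff f⁻¹ g ∈ S (as f² ∈ Γ). `cov_concat`; S ∪ f S = SN H a N' (f² ∈ Γ). 
X: L⁺.prod a = (L.prod a)(a⁻¹ w a)(w₁ w)⁻¹ (L.prod a) ∈ E.
EV: use evr_append: EVr for L; the step w a is taken at L.prod ∉ E (since L.prod a ∈ E and a ∉ E); then position L.prod w a =
(L.prod a)(a⁻¹ w a) ∈ E and the step w⁻¹ a is of the required form; then L' starts at L.prod w a w⁻¹ a ≡ a ≡ w₁ a modulo E on the left
(L.prod w a w⁻¹ ∈ E, w₁ ∈ E), so EVr for L' follows from EVr for L = (w₁ a)::L' at 1 (evr_mem).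
len: L⁺.length + 1 = 2 (L.length + 1). NK: f ∈ closure (H ∪ {a}). -/
theorem ns2 (h : CD D C) {H : Subgroup G} {W : Set G} (hWH : W ⊆ H)
    (hWi : ∀ w ∈ W, w⁻¹ ∈ W) {a x : G} (haC : a ∉ C) (hx : x ∈ H) (hxC : x ∉ C)
    {N : Subgroup G} {L : List G} (hS : St D H W a x N L) {w : G} (hw : w ∈ W) :
    ∃ N' L', St D H W a x N' L' ∧ N ≤ N' ∧ fw a w ∈ N' := by
  set f : G := fw a w with hf
  have hwH : w ∈ H := hWH hw
  have hfD : f ∈ D := fw_mem h a w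
  have hff : f * f ∈ N ⊔ H := sq_mem h hS.ND haC hx hxC hwH hS.fx
  have hffG : f * f ∈ Gam H a N := gam_D h (D.mul_mem hfD hfD) hff
  have hLG : L.prod ∈ Gam H a N := hS.prod_mem h hWH
  have haG : a ∈ Gam H a N := gam_a
  have haK : a ∈ Subgroup.closure ((H : Set G) ∪ {a}) := Subgroup.subset_closure (by simp)
  have hwK : w ∈ Subgroup.closure ((H : Set G) ∪ {a}) := Subgroup.subset_closure (Or.inl hwH)
  have hfK : f ∈ Subgroup.closure ((H : Set G) ∪ {a}) := by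
    rw [hf]
    exact Subgroup.mul_mem _ (Subgroup.mul_mem _ (Subgroup.mul_mem _
      (Subgroup.inv_mem _ hwK) (Subgroup.inv_mem _ haK)) hwK) haK
  have hN'D : N ⊔ Subgroup.zpowers f ≤ D :=
    sup_le hS.ND (by rw [Subgroup.zpowers_le]; exact hfD)
  have hN'K : N ⊔ Subgroup.zpowers f ≤ Subgroup.closure ((H : Set G) ∪ {a}) :=
    sup_le hS.NK (by rw [Subgroup.zpowers_le]; exact hfK)
  have hNN' : N ≤ N ⊔ Subgroup.zpowers f := le_sup_left
  have hfN' : f ∈ N ⊔ Subgroup.zpowers f := Subgroup.mem_sup_right (Subgroup.mem_zpowers f)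
  obtain ⟨w₁, L', hL, hw₁W, hw₁N⟩ := hS.hd
  have hw₁H : w₁ ∈ H := hWH hw₁W
  have hw₁G : w₁ ∈ Gam H a N := gam_w h hS.ND hw₁H hw₁N
  have hstepN : ∀ t ∈ L, ∃ w ∈ W, fw a w ∈ N ⊔ Subgroup.zpowers f ∧
      (t = w * a ∨ t = w * a⁻¹) := by
    intro t ht
    obtain ⟨v, hv, hvN, ht⟩ := hS.stepN t ht
    exact ⟨v, hv, hNN' hvN, ht⟩
  by_cases hfG : f ∈ Gam H a N
  · refine ⟨N ⊔ Subgroup.zpowers f, L, ⟨hS.wk, hN'D, hN'K, hNN' hS.fx, hstepN,
      ⟨w₁, L', hL, hw₁W, hNN' hw₁N⟩, hS.cov.congr ?_, hS.len⟩, hNN', hfN'⟩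
    intro g
    rw [sn_new h hS.ND hfD hff]
    constructor
    · rintro (hg | hg)
      · exact hg
      · have := (mem_gam.1 hfG _).1 hg
        rwa [mul_inv_cancel_left] at this
    · exact Or.inl
  · -- one additional block
    have half : ∀ φ : G, (φ = f ∨ φ = f⁻¹) → ∀ g, φ * g ∈ SN H a N ↔ f⁻¹ * g ∈ SN H a N := by
      rintro φ hφ g
      rcases hφ with rfl | rfl
      · have e : f * g = (f * f) * (f⁻¹ * g) := by group
        rw [e]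
        exact (mem_gam.1 hffG _).symm
      · exact Iff.rfl
    have half2 : ∀ γ ∈ Gam H a N, ∀ φ : G, (φ = f ∨ φ = f⁻¹) → ∀ g,
        φ * (γ * g) ∈ SN H a N ↔ f⁻¹ * g ∈ SN H a N := by
      intro γ hγ φ hφ g
      rw [half φ hφ]
      have e : f⁻¹ * (γ * g) = γ * ((γ⁻¹ * f⁻¹ * γ) * g) := by group
      rw [e, ← mem_gam.1 hγ]
      apply half
      rcases conj_cases h (D.inv_mem hfD) γ with e | e
      · exact Or.inr e
      · rw [inv_inv] at e; exact Or.inl e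
    have hcov2 := cov_head hw₁H hwH (hL ▸ hS.cov)
    have key : ∀ g : G, (w₁ * w) * ((L.prod * (w * a))⁻¹ * g) ∈ SN H a N ↔
        f⁻¹ * g ∈ SN H a N := by
      intro g
      have e1 : (w₁ * w) * ((L.prod * (w * a))⁻¹ * g) =
          w₁ * ((w * f * w⁻¹)⁻¹ * ((a⁻¹ * L.prod⁻¹) * g)) := by
        rw [hf]; unfold fw; group
      rw [e1, ← mem_gam.1 hw₁G]
      apply half2 _ (Subgroup.mul_mem _ (Subgroup.inv_mem _ haG) (Subgroup.inv_mem _ hLG))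
      rcases h.conj hfD w with e | e
      · rw [e]; exact Or.inr rfl
      · rw [e, inv_inv]; exact Or.inl rfl
    have hd : ∀ g ∈ SN H a N, (L.prod * (w * a))⁻¹ * g ∉ {g | (w₁ * w) * g ∈ SN H a N} := by
      intro g hg hcon
      have hcon' : (w₁ * w) * ((L.prod * (w * a))⁻¹ * g) ∈ SN H a N := hcon
      rw [key] at hcon'
      apply hfG
      apply gam_of_meet h hfD hff hcon'
      rwa [mul_inv_cancel_left]
    have hcov := cov_concat (s := w * a) hS.cov hcov2 hd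
    have hfw' : fw a w⁻¹ ∈ N ⊔ Subgroup.zpowers f := by
      have e : fw a w⁻¹ = w * f⁻¹ * w⁻¹ := by rw [hf]; unfold fw; group
      rw [e]
      exact h.norm hN'D w (Subgroup.inv_mem _ hfN')
    refine ⟨N ⊔ Subgroup.zpowers f, L ++ (w * a) :: ((w⁻¹ * a) :: L'),
      ⟨⟨?_, ?_, ?_⟩, hN'D, hN'K, hNN' hS.fx, ?_, ?_, hcov.congr ?_, ?_⟩, hNN', hfN'⟩
    · intro t ht
      simp only [List.mem_append, List.mem_cons] at ht
      rcases ht with ht | rfl | rfl | ht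
      · exact hS.wk.step t ht
      · exact ⟨w, hw, Or.inl rfl⟩
      · exact ⟨w⁻¹, hWi w hw, Or.inl rfl⟩
      · exact hS.wk.step t (by rw [hL]; exact List.mem_cons_of_mem _ ht)
    · intro E hHE hE
      have h1 : (L ++ (w * a) :: ((w⁻¹ * a) :: L')).prod * a =
          (L.prod * a) * (a⁻¹ * w * a) * (w₁ * w)⁻¹ * (L.prod * a) := by
        rw [List.prod_append, List.prod_cons, List.prod_cons, hL, List.prod_cons]
        group
      rw [h1]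
      exact E.mul_mem (E.mul_mem (E.mul_mem (hS.wk.X E hHE hE) (hE w (hHE hwH)))
        (E.inv_mem (hHE (H.mul_mem hw₁H hwH)))) (hS.wk.X E hHE hE)
    · intro E hHE hE haE haaE
      have hEV := hS.wk.EV E hHE hE haE haaE
      rw [evr_append]
      refine ⟨hEV, fun _ => ⟨w, hw, rfl⟩, fun _ => ⟨w⁻¹, hWi w hw, rfl⟩, ?_⟩
      rw [hL] at hEV
      refine (evr_mem ?_ L').2 hEV.2
      have e : 1 * L.prod * (w * a) * (w⁻¹ * a) * (1 * (w₁ * a))⁻¹ =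
          (L.prod * a) * (a⁻¹ * w * a) * (w₁ * w)⁻¹ := by group
      rw [e]
      exact E.mul_mem (E.mul_mem (hS.wk.X E hHE hE) (hE w (hHE hwH)))
        (E.inv_mem (hHE (H.mul_mem hw₁H hwH)))
    · intro t ht
      simp only [List.mem_append, List.mem_cons] at ht
      rcases ht with ht | rfl | rfl | ht
      · exact hstepN t ht
      · exact ⟨w, hw, hfN', Or.inl rfl⟩
      · exact ⟨w⁻¹, hWi w hw, hfw', Or.inl rfl⟩
      · exact hstepN t (by rw [hL]; exact List.mem_cons_of_mem _ ht)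
    · exact ⟨w₁, L' ++ (w * a) :: ((w⁻¹ * a) :: L'), by rw [hL]; rfl, hw₁W, hNN' hw₁N⟩
    · intro g
      rw [sn_new h hS.ND hfD hff]
      simp only [Set.mem_ofPred_eq]
      rw [key]
    · have hlen : (L ++ (w * a) :: ((w⁻¹ * a) :: L')).length + 1 = (L.length + 1) * 2 := by
        have : L.length = L'.length + 1 := by rw [hL]; rfl
        simp only [List.length_append, List.length_cons]
        omega
      rw [hlen, pow_mul]
      exact H.pow_mem hS.len 2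

end Pool.Agent.H268.CI
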