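import Pool.Agent.H268.CI.Defs2
import Pool.Agent.H268.CI.T1
import Pool.Agent.H268.CI.T2
import Pool.Agent.H268.CI.T3
import Pool.Agent.H268.CI.T4
import Pool.Agent.H268.CI.T5

/-! The walk theorem. -/

namespace Pool.Agent.H268.CI

open Pool.Agent.H761J.Ham Pool.Agent.H761J.Nil

variable {G : Type*} [Group G] {D C : Subgroup G}

theorem evr_mono {E : Subgroup G} {P P' : G → Prop} (hP : ∀ t, P t → P' t) {l : List G} :
    ∀ {p : G}, EVr E P p l → EVr E P' p l := by
  induction l with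
  | nil => intro p _; trivial
  | cons t l ih =>
    intro p hp
    exact ⟨fun h => hP _ (hp.1 h), ih hp.2⟩

theorem fw_inv_mem (h : CD D C) (a x : G) : fw a x⁻¹ ∈ Subgroup.zpowers (fw a x) := by
  have hN : Subgroup.zpowers (fw a x) ≤ D := by
    rw [Subgroup.zpowers_le]; exact fw_mem h a x
  have e : fw a x⁻¹ = x * (fw a x)⁻¹ * x⁻¹ := by unfold fw; group
  rw [e]
  exact h.norm hN x (Subgroup.inv_mem _ (Subgroup.mem_zpowers _))

/-- an odd number of levels is impossible if there is a set `E` as in `EV` -/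
theorem ev_vac {H E : Subgroup G} {a x : G} (hx : x ∈ H) (hHE : H ≤ E)
    (hEa : ∀ g ∈ E, a⁻¹ * g * a ∈ E) (haE : a ∉ E) (haa : a * a ∈ E) {k : ℕ}
    (hk : a ^ ((2 * k + 1 : ℕ) : ℤ) ∈ Subgroup.zpowers (fw a x) ⊔ H) : False := by
  have hf : fw a x ∈ E := by
    have e : fw a x = x⁻¹ * (a⁻¹ * x * a) := by unfold fw; group
    rw [e]
    exact E.mul_mem (E.inv_mem (hHE hx)) (hEa x (hHE hx))
  have hU : Subgroup.zpowers (fw a x) ⊔ H ≤ E := by
    refine sup_le ?_ hHE
    rw [Subgroup.zpowers_le]; exact hf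
  have h1 := hU hk
  apply haE
  have e : a = ((a * a) ^ k)⁻¹ * a ^ ((2 * k + 1 : ℕ) : ℤ) := by
    rw [zpow_natCast, pow_succ, pow_mul, pow_two, ← mul_assoc, inv_mul_cancel, one_mul]
  rw [e]
  exact E.mul_mem (E.inv_mem (E.pow_mem haa k)) h1

theorem sn_top (h : CD D C) {H N : Subgroup G} {W : Set G} {a : G} (hN : N ≤ D)
    (hNK : N ≤ Subgroup.closure ((H : Set G) ∪ {a})) (hWg : Subgroup.closure W = H)
    (hf : ∀ w ∈ W, fw a w ∈ N) (g : G) :
    g ∈ Subgroup.closure ((H : Set G) ∪ {a}) ↔ g ∈ SN H a N := by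
  have haK : a ∈ Subgroup.closure ((H : Set G) ∪ {a}) := Subgroup.subset_closure (by simp)
  have hHK : H ≤ Subgroup.closure ((H : Set G) ∪ {a}) := fun x hx =>
    Subgroup.subset_closure (Or.inl hx)
  constructor
  · intro hg
    -- `a` normalises `N ⊔ H`
    have h1 : ∀ I : ℤ, ∀ u ∈ N ⊔ H, (a ^ I)⁻¹ * u * a ^ I ∈ N ⊔ H := by
      intro I u hu
      have h2 : N ⊔ H ≤ (N ⊔ H).comap (MulAut.conj ((a ^ I)⁻¹)).toMonoidHom := by
        refine sup_le ?_ ?_
        · intro y hy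
          rw [Subgroup.mem_comap]
          simp only [MulEquiv.coe_toMonoidHom, MulAut.conj_apply]
          exact Subgroup.mem_sup_left (h.norm hN _ hy)
        · conv_lhs => rw [← hWg]
          rw [Subgroup.closure_le]
          intro w hw
          rw [SetLike.mem_coe, Subgroup.mem_comap]
          simp only [MulEquiv.coe_toMonoidHom, MulAut.conj_apply, inv_inv]
          have e : (a ^ I)⁻¹ * w * a ^ I = w * (w⁻¹ * ((a ^ I)⁻¹ * w * a ^ I)) := by group
          rw [e]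
          exact Subgroup.mul_mem _ (Subgroup.mem_sup_right (hWg ▸ Subgroup.subset_closure hw))
            (Subgroup.mem_sup_left (h.wN hN (hf w hw) I))
      have h3 := h2 hu
      rw [Subgroup.mem_comap] at h3
      simpa only [MulEquiv.coe_toMonoidHom, MulAut.conj_apply, inv_inv] using h3
    refine Subgroup.closure_induction_right (p := fun g _ => g ∈ SN H a N) ?_ ?_ ?_ hg
    · exact sn_sup (Subgroup.one_mem _)
    · rintro x - y hy hx
      rcases hy with hy | hy
      · exact sn_right hx (Subgroup.mem_sup_right hy)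
      · rw [Set.mem_singleton_iff] at hy
        subst hy
        obtain ⟨I, hI⟩ := hx
        refine ⟨I + 1, ?_⟩
        have e : (y ^ (I + 1))⁻¹ * (x * y) = (y ^ (1 : ℤ))⁻¹ * ((y ^ I)⁻¹ * x) * y ^ (1 : ℤ) := by
          rw [zpow_add]; group
        rw [e]
        exact h1 1 _ hI
    · rintro x - y hy hx
      rcases hy with hy | hy
      · exact sn_right hx (Subgroup.mem_sup_right (H.inv_mem hy))
      · rw [Set.mem_singleton_iff] at hy
        subst hy
        obtain ⟨I, hI⟩ := hx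
        refine ⟨I - 1, ?_⟩
        have e : (y ^ (I - 1))⁻¹ * (x * y⁻¹) =
            (y ^ (-1 : ℤ))⁻¹ * ((y ^ I)⁻¹ * x) * y ^ (-1 : ℤ) := by
          rw [zpow_sub]; group
        rw [e]
        exact h1 (-1) _ hI
  · rintro ⟨I, hI⟩
    have e : g = a ^ I * ((a ^ I)⁻¹ * g) := by group
    rw [e]
    exact Subgroup.mul_mem _ (Subgroup.zpow_mem _ haK I) ((sup_le hNK hHK : N ⊔ H ≤ _) hI)

theorem walk_thm [Finite G] (h : CD D C) : WalkS C := by
  classical
  intro H W hWi hW0 hWg a haH hav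
  have hWH : W ⊆ H := by rw [← hWg]; exact Subgroup.subset_closure
  -- the first element
  obtain ⟨x, hxW, hxC⟩ : ∃ x ∈ W, ¬ H ≤ C → x ∉ C := by
    by_cases hHC : H ≤ C
    · obtain ⟨x, hx⟩ := hW0
      exact ⟨x, hx, fun h => absurd hHC h⟩
    · by_contra hcon
      push Not at hcon
      apply hHC
      rw [← hWg, Subgroup.closure_le]
      intro w hw
      exact (hcon w hw).2
  have hx : x ∈ H := hWH hxW
  have hfD : fw a x ∈ D := fw_mem h a x
  have hND : Subgroup.zpowers (fw a x) ≤ D := by rw [Subgroup.zpowers_le]; exact hfD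
  have hNK : Subgroup.zpowers (fw a x) ≤ Subgroup.closure ((H : Set G) ∪ {a}) := by
    rw [Subgroup.zpowers_le]
    have haK : a ∈ Subgroup.closure ((H : Set G) ∪ {a}) := Subgroup.subset_closure (by simp)
    have hxK : x ∈ Subgroup.closure ((H : Set G) ∪ {a}) := Subgroup.subset_closure (Or.inl hx)
    unfold fw
    exact Subgroup.mul_mem _ (Subgroup.mul_mem _ (Subgroup.mul_mem _
      (Subgroup.inv_mem _ hxK) (Subgroup.inv_mem _ haK)) hxK) haK
  obtain ⟨n, hn0, hn⟩ := int_gen (fun z => (fw a x) ^ z ∈ H)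
    (by simp [H.one_mem])
    (by intro p q hp hq; rw [zpow_add]; exact H.mul_mem hp hq)
    (by intro p hp; rw [zpow_neg]; exact H.inv_mem hp)
    (orderOf (fw a x) : ℤ)
    (by rw [zpow_natCast, pow_orderOf_eq_one]; exact H.one_mem)
    (by have := orderOf_pos (fw a x); omega)
  obtain ⟨m, hm0, hm⟩ := int_gen (fun z => a ^ z ∈ Subgroup.zpowers (fw a x) ⊔ H)
    (by rw [zpow_zero]; exact Subgroup.one_mem _)
    (by intro p q hp hq; rw [zpow_add]; exact Subgroup.mul_mem _ hp hq)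
    (by intro p hp; rw [zpow_neg]; exact Subgroup.inv_mem _ hp)
    (orderOf a : ℤ)
    (by rw [zpow_natCast, pow_orderOf_eq_one]; exact Subgroup.one_mem _)
    (by have := orderOf_pos a; omega)
  -- a base walk gives a state
  have hbase : ∀ L : List G, (∀ t ∈ L, ∃ w, (w = x ∨ w = x⁻¹) ∧ (t = w * a ∨ t = w * a⁻¹)) →
      (∃ L', L = (x * a) :: L') → Cov H L (SN H a (Subgroup.zpowers (fw a x))) →
      (∀ E : Subgroup G, H ≤ E → (∀ g ∈ E, a⁻¹ * g * a ∈ E) → L.prod * a ∈ E) →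
      (∀ E : Subgroup G, H ≤ E → (∀ g ∈ E, a⁻¹ * g * a ∈ E) → a ∉ E → a * a ∈ E →
        EVr E (fun t => t = x * a) 1 L) → (∃ k, L.length + 1 = k * n) →
      St D H W a x (Subgroup.zpowers (fw a x)) L := by
    intro L h1 h2 h3 h4 h5 h6
    obtain ⟨L', hL'⟩ := h2
    refine ⟨⟨?_, h4, ?_⟩, hND, hNK, Subgroup.mem_zpowers _, ?_, ⟨x, L', hL', hxW,
      Subgroup.mem_zpowers _⟩, h3, ?_⟩
    · intro t ht
      obtain ⟨w, hw, ht⟩ := h1 t ht
      refine ⟨w, ?_, ht⟩
      rcases hw with rfl | rfl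
      · exact hxW
      · exact hWi _ hxW
    · intro E hE1 hE2 hE3 hE4
      exact evr_mono (fun t ht => ⟨x, hxW, ht⟩) (h5 E hE1 hE2 hE3 hE4)
    · intro t ht
      obtain ⟨w, hw, ht⟩ := h1 t ht
      rcases hw with rfl | rfl
      · exact ⟨_, hxW, Subgroup.mem_zpowers _, ht⟩
      · exact ⟨_, hWi _ hxW, fw_inv_mem h a x, ht⟩
    · obtain ⟨k, hk⟩ := h6
      rw [hk, ← zpow_natCast, hn]
      exact ⟨k, by push_cast; ring⟩
  -- the iteration
  have hfinal : (∃ L, St D H W a x (Subgroup.zpowers (fw a x)) L) → (H ≤ C ∨ (a ∉ C ∧ x ∉ C)) →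
      ∃ L : List G, Wk H W a L ∧ Cov H L (Subgroup.closure ((H : Set G) ∪ {a}) : Subgroup G) ∧
      (¬ H ≤ C → ∃ x ∈ W, x ∉ C ∧ (fw a x) ^ (L.length + 1) ∈ H) := by
    rintro ⟨L0, hL0⟩ hcase
    have hst : ∀ s : Finset G, (↑s : Set G) ⊆ W → ∃ N L, St D H W a x N L ∧
        ∀ w ∈ s, fw a w ∈ N := by
      intro s
      induction s using Finset.induction_on with
      | empty => intro _; exact ⟨_, L0, hL0, by simp⟩
      | insert w s _ ih =>
        intro hsW
        rw [Finset.coe_insert] at hsW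
        obtain ⟨N, L, hS, hw⟩ := ih ((Set.subset_insert _ _).trans hsW)
        have hwW : w ∈ W := hsW (Set.mem_insert _ _)
        obtain ⟨N', L', hS', hle, hf⟩ : ∃ N' L', St D H W a x N' L' ∧ N ≤ N' ∧ fw a w ∈ N' := by
          rcases hcase with hHC | ⟨haC, hxC'⟩
          · exact ns1 h hWH hWi hHC hS hwW
          · exact ns2 h hWH hWi haC hx hxC' hS hwW
        refine ⟨N', L', hS', ?_⟩
        intro v hv
        rw [Finset.mem_insert] at hv
        rcases hv with rfl | hv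
        · exact hf
        · exact hle (hw v hv)
    obtain ⟨N, L, hS, hf⟩ := hst (Set.toFinite W).toFinset (by simp)
    refine ⟨L, hS.wk, hS.cov.congr ?_, ?_⟩
    · intro g
      exact sn_top h hS.ND hS.NK hWg (fun w hw => hf w (by simpa using hw)) g
    · intro hHC
      exact ⟨x, hxW, hxC hHC, hS.len⟩
  rcases Nat.even_or_odd' m with ⟨k, hk | hk⟩
  · obtain ⟨M, rfl⟩ : ∃ M, k = M + 1 := ⟨k - 1, by omega⟩
    subst hk
    obtain ⟨L, h1, h2, h3, h4, h5, h6⟩ := base_even h hx hn0 hn hm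
    apply hfinal ⟨L, hbase L h1 h2 h3 h4 h5 ⟨_, h6⟩⟩
    by_cases hHC : H ≤ C
    · exact Or.inl hHC
    · right
      rcases hav with hav | hav
      · exact ⟨hav, hxC hHC⟩
      · exact absurd hav.2 hHC
  · subst hk
    by_cases hHC : H ≤ C
    · have haC : a ∈ C := by
        by_contra haC
        have hfC : Subgroup.zpowers (fw a x) ⊔ H ≤ C := sup_le (hND.trans h.le) hHC
        have h1 := hfC ((hm _).2 (dvd_refl _))
        apply haC
        have e : a = ((a * a) ^ k)⁻¹ * a ^ ((2 * k + 1 : ℕ) : ℤ) := by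
          rw [zpow_natCast, pow_succ, pow_mul, pow_two, ← mul_assoc, inv_mul_cancel, one_mul]
        rw [e]
        exact C.mul_mem (C.inv_mem (C.pow_mem (h.mul a a haC haC) k)) h1
      obtain ⟨L, h1, h2, h3⟩ := walk_c h hWi hW0 hWg haC hHC
      refine ⟨L, ⟨h1, h3, ?_⟩, h2, fun h => absurd hHC h⟩
      intro E hE1 hE2 hE3 hE4
      exact (ev_vac hx hE1 hE2 hE3 hE4 ((hm _).2 (dvd_refl _))).elim
    · have haC : a ∉ C := by
        rcases hav with hav | hav
        · exact hav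
        · exact absurd hav.2 hHC
      obtain ⟨L, h1, h2, h3, h4, h6⟩ := base_odd h hx (hxC hHC) haC haH hn0 hn hm
      refine hfinal ⟨L, hbase L h1 h2 h3 h4 ?_ ⟨_, h6⟩⟩ (Or.inr ⟨haC, hxC hHC⟩)
      intro E hE1 hE2 hE3 hE4
      exact (ev_vac hx hE1 hE2 hE3 hE4 ((hm _).2 (dvd_refl _))).elim

end Pool.Agent.H268.CI
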